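import Pool.Agent.H12.VZ.Defs

/-!
# The main theorem with the vanishing of the antisymmetrizations as a hypothesis

`voisin_core`, `voisin_quotient` (`H25/VO/V11`, `V12`) where the numerical condition is replaced by the
vanishing of the antisymmetrization of every eigenfunctional.
-/

set_option autoImplicit false
set_option linter.overlappingInstances false
set_option linter.unusedSectionVars false

namespace Pool.Agent.H12.VZ

open FF IntermediateField Module Polynomial Pool.Agent.W603.LV Pool.Agent.W619.PQ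
  Pool.Agent.Q70.CH Pool.Agent.H25.VO

open Equiv TensorProduct

section

variable {k : Type} [Field k] [CharZero k] [IsAlgClosed k] {F₁ F₂ K₁ K₂ : Type} [Field F₁]
  [Algebra k F₁] [IsFF k F₁] [Field F₂] [Algebra k F₂] [IsFF k F₂] [Field K₁] [Algebra k K₁]
  [IsFF k K₁] [Field K₂] [Algebra k K₂] [IsFF k K₂] [Algebra F₁ K₁] [IsScalarTower k F₁ K₁]
  [Algebra F₂ K₂] [IsScalarTower k F₂ K₂] {G : Type} [CommGroup G] [Fintype G]
  {a₁ : G →* (K₁ ≃ₐ[k] K₁)} {a₂ : G →* (K₂ ≃ₐ[k] K₂)}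

/-- **Main theorem** for invariant Albanese-trivial cycles on the product of two curves. -/
theorem voisin_core' (hq₁ : IsQuot a₁ F₁) (hq₂ : IsQuot a₂ F₂) {n : ℕ}
    (hvan : ∀ (κ : Fin n → (G →* kˣ)) (o₁ : Place k F₁) (o₂ : Place k F₂) (W : Type)
      [AddCommGroup W] [Module k W] [Module ℚ W] (Θ : (Fin n → Place k K₁ × Place k K₂) → W),
      Eig a₁ a₂ o₁ o₂ κ Θ → ∀ w : Fin n → Place k K₁ × Place k K₂,
        ∑ σ : Equiv.Perm (Fin n), ((Equiv.Perm.sign σ : ℤ) : ℚ) • Θ (fun i => w (σ i)) = 0)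
    (a : Fin n → (Place k K₁ × Place k K₂) →₀ ℚ)
    (hinv : ∀ i g, (a i).mapDomain (fun p => (act a₁ g p.1, act a₂ g p.2)) = a i)
    (h1 : ∀ i, (a i).mapDomain Prod.fst ∈ TC k K₁) (h2 : ∀ i, (a i).mapDomain Prod.snd ∈ TC k K₂) :
    ∑ σ : Perm (Fin n), ((Perm.sign σ : ℤ) : ℚ) • cross (fun i => a (σ i)) ∈ TT k K₁ K₂ n := by
  classical
  have : Finite (G →* kˣ) := finite_dual
  have : Fintype (G →* kˣ) := Fintype.ofFinite _
  obtain ⟨p₁, -⟩ := exists_place (k := k) (K := K₁)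
  obtain ⟨p₂, -⟩ := exists_place (k := k) (K := K₂)
  obtain ⟨o₁, e₁, he₁, ho₁⟩ := exists_below (IsScalarTower.toAlgHom k F₁ K₁) p₁
  obtain ⟨o₂, e₂, he₂, ho₂⟩ := exists_below (IsScalarTower.toAlgHom k F₂ K₂) p₂
  have hp₁ : Over p₁ o₁ e₁ := ⟨he₁, ho₁⟩
  have hp₂ : Over p₂ o₂ e₂ := ⟨he₂, ho₂⟩
  -- the universal functional
  let M := ((Fin n → Place k K₁ × Place k K₂) →₀ ℚ) ⧸ TT k K₁ K₂ n
  let Φ₀ : (Fin n → Place k K₁ × Place k K₂) → k ⊗[ℚ] M := fun v =>
    (1 : k) ⊗ₜ[ℚ] (TT k K₁ K₂ n).mkQ (Finsupp.single v 1)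
  have hΦ₀ : KillsF (PP k K₁ K₂ n) Φ₀ := by
    intro B _ _ _ s hs t ht
    have h3 := killsF_mkQ (X := PP k K₁ K₂ n) B s hs t ht
    have h4 : ((divisor k t).sum fun Q m => m • Φ₀ (s Q)) =
        (1 : k) ⊗ₜ[ℚ] ((divisor k t).sum fun Q m => m • (TT k K₁ K₂ n).mkQ
          (Finsupp.single (s Q) 1)) := by
      unfold Finsupp.sum
      rw [TensorProduct.tmul_sum]
      apply Finset.sum_congr rfl
      intro Q _
      exact (map_zsmul (TensorProduct.mk ℚ k M 1) _ _).symm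
    have h5 : ((divisor k t).sum fun Q m => m • (TT k K₁ K₂ n).mkQ
          (Finsupp.single (s Q) 1)) = 0 := h3
    rw [h4, h5, TensorProduct.tmul_zero]
  have hlc₀ : ∀ z, Finsupp.linearCombination ℚ Φ₀ z = (1 : k) ⊗ₜ[ℚ] (TT k K₁ K₂ n).mkQ z := by
    intro z
    have h3 : Finsupp.linearCombination ℚ Φ₀ =
        (TensorProduct.mk ℚ k M 1) ∘ₗ (TT k K₁ K₂ n).mkQ := by
      apply Finsupp.lhom_ext'
      intro v
      apply LinearMap.ext_ring
      rw [LinearMap.comp_apply, LinearMap.comp_apply, Finsupp.lsingle_apply,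
        Finsupp.linearCombination_single, one_smul]
      rfl
    rw [h3]; rfl
  -- normalization
  obtain ⟨Φ, ⟨hK, hPr⟩, hnorm⟩ := exists_normal (W := k ⊗[ℚ] M) (rep (n := n) a₁ a₂ p₁ p₂)
    (by
      rintro ⟨i, b⟩ s t v
      cases b <;> simp [rep])
    (by
      rintro ⟨i, b⟩ ⟨j, b'⟩ s t v hne
      by_cases hij : i = j
      · subst hij
        cases b <;> cases b' <;> simp [rep] at hne ⊢
      · cases b <;> cases b' <;>
          simp [rep, Function.update_of_ne hij, Function.update_of_ne (Ne.symm hij),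
            Function.update_comm hij])
    (fun Φ => KillsF (PP k K₁ K₂ n) Φ ∧
      ∀ a : Fin n → (Place k K₁ × Place k K₂) →₀ ℚ, (∀ i, (a i).mapDomain Prod.fst ∈ TC k K₁) →
      (∀ i, (a i).mapDomain Prod.snd ∈ TC k K₂) →
      Finsupp.linearCombination ℚ Φ (cross a) = Finsupp.linearCombination ℚ Φ₀ (cross a))
    (by
      rintro Φ σ ⟨hK, hPr⟩
      refine ⟨hK.sub (KillsF.smul _ (KillsF.sum _ fun g _ => hK.comp (rep_isMap p₁ p₂ σ g))), ?_⟩
      intro a ha1 ha2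
      rw [lc_sub, lc_smul, lc_sum, hPr a ha1 ha2]
      have h3 : ∀ g : G, Finsupp.linearCombination ℚ
          (fun v => Φ (rep a₁ a₂ p₁ p₂ σ g v)) (cross a) = 0 := by
        intro g
        rw [lc_comp Φ (rep a₁ a₂ p₁ p₂ σ g)]
        apply hK.ev
        obtain ⟨i, b⟩ := σ
        cases b with
        | true => exact e1_cross (act a₁ g p₁) i a (ha2 i)
        | false => exact e2_cross (act a₂ g p₂) i a (ha1 i)
      rw [Finset.sum_congr rfl fun g _ => h3 g, Finset.sum_const_zero, smul_zero, sub_zero])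
    Φ₀ ⟨hΦ₀, fun _ _ _ => rfl⟩
  have hEig : ∀ κ : Fin n → (G →* kˣ), Eig a₁ a₂ o₁ o₂ κ (PhiK a₁ a₂ Φ κ) :=
    fun κ => phiK_eig hq₁ hq₂ hp₁ hp₂ hK (fun v i => hnorm (i, true) v)
      (fun v i => hnorm (i, false) v) κ
  -- antisymmetrization
  have hanti : ∀ (κ : Fin n → (G →* kˣ)) (v : Fin n → Place k K₁ × Place k K₂),
      ∑ σ : Perm (Fin n), ((Perm.sign σ : ℤ) : ℚ) • PhiK a₁ a₂ Φ κ (fun i => v (σ i)) = 0 := by
    intro κ v
    exact hvan κ o₁ o₂ _ _ (hEig κ) v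
  -- evaluation
  have hev : ∀ σ : Perm (Fin n), ((Fintype.card (G →* kˣ)) ^ n * Fintype.card (Fin n → G) : ℕ) •
      Finsupp.linearCombination ℚ Φ (cross fun i => a (σ i)) =
      ∑ κ : Fin n → (G →* kˣ), Finsupp.linearCombination ℚ (fun v =>
        PhiK a₁ a₂ Φ κ (fun i => v (σ i))) (cross a) := by
    intro σ
    have h3 : ∀ κ : Fin n → (G →* kˣ), Finsupp.linearCombination ℚ (fun v =>
        PhiK a₁ a₂ Φ κ (fun i => v (σ i))) (cross a) =
        Finsupp.linearCombination ℚ (PhiK a₁ a₂ Φ κ) (cross fun i => a (σ i)) := by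
      intro κ
      rw [cross_perm, lc_comp (PhiK a₁ a₂ Φ κ) (fun v i => v (σ i))]
    rw [Finset.sum_congr rfl fun κ _ => h3 κ, ← lc_sum]
    simp only [sum_phiK]
    rw [lc_nsmul, lc_sum, mul_smul]
    congr 1
    have h4 : ∀ s : Fin n → G, Finsupp.linearCombination ℚ (fun v => Φ (tw a₁ a₂ s s v))
        (cross fun i => a (σ i)) = Finsupp.linearCombination ℚ Φ (cross fun i => a (σ i)) := by
      intro s
      rw [lc_comp Φ (tw a₁ a₂ s s)]
      congr 1
      have h5 := cross_map (fun i => a (σ i)) (fun i p => (act a₁ (s i) p.1, act a₂ (s i) p.2))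
      simp only [hinv] at h5
      exact h5
    rw [Finset.sum_congr rfl fun s _ => h4 s, Finset.sum_const, Finset.card_univ]
  -- conclusion
  have hfin : Finsupp.linearCombination ℚ Φ₀
      (∑ σ : Perm (Fin n), ((Perm.sign σ : ℤ) : ℚ) • cross (fun i => a (σ i))) = 0 := by
    have h3 : Finsupp.linearCombination ℚ Φ₀
        (∑ σ : Perm (Fin n), ((Perm.sign σ : ℤ) : ℚ) • cross (fun i => a (σ i))) =
        ∑ σ : Perm (Fin n), ((Perm.sign σ : ℤ) : ℚ) •
          Finsupp.linearCombination ℚ Φ (cross fun i => a (σ i)) := by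
      rw [map_sum]
      apply Finset.sum_congr rfl
      intro σ _
      rw [map_smul, hPr (fun i => a (σ i)) (fun i => h1 _) (fun i => h2 _)]
    rw [h3]
    set C := ((Fintype.card (G →* kˣ)) ^ n * Fintype.card (Fin n → G) : ℕ) with hC
    have hC0 : (C : ℚ) ≠ 0 := by
      have : C ≠ 0 := by
        rw [hC]
        exact mul_ne_zero (pow_ne_zero _ Fintype.card_ne_zero) Fintype.card_ne_zero
      exact_mod_cast this
    have h4 : (C : ℚ) • ∑ σ : Perm (Fin n), ((Perm.sign σ : ℤ) : ℚ) •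
        Finsupp.linearCombination ℚ Φ (cross fun i => a (σ i)) = 0 := by
      rw [Finset.smul_sum]
      have h5 : ∀ σ : Perm (Fin n), (C : ℚ) • (((Perm.sign σ : ℤ) : ℚ) •
          Finsupp.linearCombination ℚ Φ (cross fun i => a (σ i))) =
          ∑ κ : Fin n → (G →* kˣ), Finsupp.linearCombination ℚ (fun v =>
            ((Perm.sign σ : ℤ) : ℚ) • PhiK a₁ a₂ Φ κ (fun i => v (σ i))) (cross a) := by
        intro σ
        rw [smul_comm, Nat.cast_smul_eq_nsmul, hev, Finset.smul_sum]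
        apply Finset.sum_congr rfl
        intro κ _
        rw [lc_smul]
      rw [Finset.sum_congr rfl fun σ _ => h5 σ, Finset.sum_comm]
      apply Finset.sum_eq_zero
      intro κ _
      rw [← lc_sum]
      simp only [hanti]
      rw [Finsupp.linearCombination_apply]
      simp
    exact (smul_eq_zero.1 h4).resolve_left hC0
  rw [hlc₀] at hfin
  have h3 := one_tmul_eq_zero hfin
  rwa [← LinearMap.mem_ker, Submodule.ker_mkQ] at h3

theorem voisin_quotient' (hq₁ : IsQuot a₁ F₁) (hq₂ : IsQuot a₂ F₂) {n : ℕ}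
    (hvan : ∀ (κ : Fin n → (G →* kˣ)) (o₁ : Place k F₁) (o₂ : Place k F₂) (W : Type)
      [AddCommGroup W] [Module k W] [Module ℚ W] (Θ : (Fin n → Place k K₁ × Place k K₂) → W),
      Eig a₁ a₂ o₁ o₂ κ Θ → ∀ w : Fin n → Place k K₁ × Place k K₂,
        ∑ σ : Equiv.Perm (Fin n), ((Equiv.Perm.sign σ : ℤ) : ℚ) • Θ (fun i => w (σ i)) = 0) (z : Fin n → (Place k K₁ × Place k K₂) →₀ ℚ)
    (h1 : ∀ i, (∑ g : G, (z i).mapDomain (act₂ a₁ a₂ g)).mapDomain Prod.fst ∈ TC k K₁)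
    (h2 : ∀ i, (∑ g : G, (z i).mapDomain (act₂ a₁ a₂ g)).mapDomain Prod.snd ∈ TC k K₂) :
    alt (fun i => (z i).mapDomain (Quotient.mk (orb a₁ a₂))) ∈
      (TT k K₁ K₂ n).map (Finsupp.lmapDomain ℚ ℚ
        (fun (v : Fin n → Place k K₁ × Place k K₂) i => Quotient.mk (orb a₁ a₂) (v i))) := by
  classical
  have key := voisin_core' hq₁ hq₂ hvan (fun i => ∑ g : G, (z i).mapDomain (act₂ a₁ a₂ g))
    (by
      intro i g
      change Finsupp.mapDomain (act₂ a₁ a₂ g) _ = _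
      rw [Finsupp.mapDomain_finsetSum]
      refine Fintype.sum_equiv (Equiv.mulLeft g) _ _ fun h => ?_
      rw [Equiv.coe_mulLeft, ← Finsupp.mapDomain_comp]
      congr 1
      ext1 p
      simp only [Function.comp, act₂, act_mul]) h1 h2
  have h3 : ∀ i, (∑ g : G, (z i).mapDomain (act₂ a₁ a₂ g)).mapDomain (Quotient.mk (orb a₁ a₂)) =
      (Fintype.card G : ℚ) • (z i).mapDomain (Quotient.mk (orb a₁ a₂)) := by
    intro i
    rw [Finsupp.mapDomain_finsetSum]
    have h4 : ∀ g : G, ((z i).mapDomain (act₂ a₁ a₂ g)).mapDomain (Quotient.mk (orb a₁ a₂)) =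
        (z i).mapDomain (Quotient.mk (orb a₁ a₂)) := by
      intro g
      rw [← Finsupp.mapDomain_comp]
      congr 1
      ext1 p
      exact Quotient.sound ⟨g⁻¹, by simp [act₂, ← act_mul, act_one]⟩
    rw [Finset.sum_congr rfl fun g _ => h4 g, Finset.sum_const, Finset.card_univ,
      Nat.cast_smul_eq_nsmul]
  have h5 := alt_map (Quotient.mk (orb a₁ a₂)) (fun i => ∑ g : G, (z i).mapDomain (act₂ a₁ a₂ g))
  simp only [h3] at h5
  rw [alt_smul] at h5
  have h6 : (Fintype.card G : ℚ) ^ n ≠ 0 := pow_ne_zero _ (by exact_mod_cast Fintype.card_ne_zero)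
  have h7 : alt (fun i => (z i).mapDomain (Quotient.mk (orb a₁ a₂))) =
      ((Fintype.card G : ℚ) ^ n)⁻¹ • Finsupp.lmapDomain ℚ ℚ
        (fun (v : Fin n → Place k K₁ × Place k K₂) i => Quotient.mk (orb a₁ a₂) (v i))
        (alt (fun i => ∑ g : G, (z i).mapDomain (act₂ a₁ a₂ g))) := by
    rw [h5, smul_smul, inv_mul_cancel₀ h6, one_smul]
  rw [h7]
  exact Submodule.smul_mem _ _ (Submodule.mem_map_of_mem key)

end

end Pool.Agent.H12.VZ
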