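import Pool.Agent.H12.VZ.Fano1

/-!
# Two points of the elliptic curve with opposite characters
-/

set_option autoImplicit false
set_option linter.overlappingInstances false
set_option linter.unusedSectionVars false

namespace Pool.Agent.H12.VZ

open FF IntermediateField Module Polynomial Pool.Agent.W603.LV Pool.Agent.W619.PQ
  Pool.Agent.Q70.CH Pool.Agent.H25.VO

variable {k : Type} [Field k] [CharZero k] [IsAlgClosed k] {F K : Type} [Field F] [Algebra k F]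
  [IsFF k F] [Field K] [Algebra k K] [IsFF k K] [Algebra F K] [IsScalarTower k F K] {G : Type}
  [CommGroup G] [Fintype G] {a : G →* (K ≃ₐ[k] K)} {ψ : G →* kˣ} {d : ℕ} {τ : F} {v : K}

/-- a value on a curve is a value on its image -/
lemma vl_down {L L' : Type} [Field L] [Algebra k L] [IsFF k L] [Field L'] [Algebra k L'] [IsFF k L']
    {φ : L →ₐ[k] L'} {Q : Place k L'} {f : L} {c : k} (h : Vl Q (φ f) c) : Vl (below φ Q) f c := by
  obtain ⟨e, he, h1⟩ := below_spec φ Q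
  have h2 : φ f - algebraMap k L' c = φ (f - algebraMap k L c) := by rw [map_sub, φ.commutes]
  unfold Vl at h
  rw [h2] at h
  rcases h with h | h
  · left
    exact (map_eq_zero φ).1 h
  · right
    rw [h1] at h
    by_contra hc
    push Not at hc
    have : (e : ℤ) * (below φ Q).ord (f - algebraMap k L c) ≤ 0 :=
      mul_nonpos_of_nonneg_of_nonpos (by positivity) (by omega)
    omega

/-- the value of `v` at a point which is not over a branch point -/
lemma exists_value {p q a' b' : ℕ} (h : Tri d p q a' b') (hM : Model a ψ d (bet k a' b') τ v)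
    {e₀ : Place k K} {τ₀ : k} (he₀ : Vl e₀ (algebraMap F K τ) τ₀) (h0 : τ₀ ≠ 0) (h1 : τ₀ ≠ 1) :
    ∃ v₀, v₀ ≠ 0 ∧ Vl e₀ v v₀ := by
  obtain ⟨hd, -⟩ := h.pos
  have h2 : Vl e₀ (v ^ d) ((bet k a' b').eval τ₀) := by
    rw [hM.root]
    have h3 : algebraMap F K (aeval τ (bet k a' b')) =
        aeval (algebraMap F K τ) (bet k a' b') := (aeval_algebraMap_apply K τ _).symm
    rw [h3]
    exact vl_aeval he₀ _
  have h3 : (bet k a' b').eval τ₀ ≠ 0 := by
    unfold bet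
    rw [eval_mul, eval_pow, eval_pow, eval_sub, eval_X, eval_C]
    exact mul_ne_zero (pow_ne_zero _ h0) (pow_ne_zero _ (sub_ne_zero.2 h1))
  obtain ⟨h4, h5⟩ := h2.ne_zero h3
  have hvne : v ≠ 0 := by
    rintro rfl
    exact h4 (zero_pow hd.ne')
  rw [e₀.ord_pow] at h5
  have h6 : e₀.ord v = 0 := by
    rcases mul_eq_zero.1 h5 with h7 | h7
    · omega
    · exact h7
  obtain ⟨c, hc⟩ := exists_vl e₀ (f := v) (Or.inr h6.ge)
  exact ⟨c, hc.ne_zero_of_ord hvne h6, hc⟩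

lemma smul_self {W : Type} [AddCommGroup W] [Module k W] {u : kˣ} {w : W} (h : w = (u : k) • w)
    (hu : u ≠ 1) : w = 0 := by
  have h4 : ((1 : k) - (u : k)) • w = 0 := by
    rw [sub_smul, one_smul, ← h, sub_self]
  rcases smul_eq_zero.1 h4 with h5 | h5
  · exfalso
    apply hu
    rw [sub_eq_zero] at h5
    exact Units.ext (by simpa using h5.symm)
  · exact h5

theorem vanish_cross {p q a' b' : ℕ} (h : Tri d p q a' b') (hM : Model a ψ d (bet k a' b') τ v)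
    {W : Type} [AddCommGroup W] [Module k W] {Θ : Place k K × Place k K → W}
    (hK : KillsF ((curve (k := k) K).prod (curve (k := k) K)) Θ)
    (e1 : ∀ u z, Θ (act a u z.1, z.2) = (((ψ u)⁻¹ : kˣ) : k) • Θ z)
    (e2 : ∀ u z, Θ (z.1, act a u z.2) = ((ψ u : kˣ) : k) • Θ z) (z : Place k K × Place k K) :
    Θ z = 0 := by
  classical
  obtain ⟨hd, hap, hbq, hab, hp, hq, ha, hb, hd2⟩ := h.pos
  obtain ⟨z₁, z₂⟩ := z
  -- branch points
  have hbr₁ : ∀ x₁ x₂ : Place k K, (Vl x₁ (algebraMap F K τ) 0 ∨ Vl x₁ (algebraMap F K τ) 1 ∨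
      x₁.ord (algebraMap F K τ) < 0) → Θ (x₁, x₂) = 0 := by
    intro x₁ x₂ hx
    obtain ⟨u, hu1, hu2⟩ := branch h hM x₁ hx
    have h3 := e1 u (x₁, x₂)
    simp only at h3
    rw [hu1] at h3
    exact smul_self h3 (fun hc => hu2 (inv_eq_one.1 hc))
  have hbr₂ : ∀ x₁ x₂ : Place k K, (Vl x₂ (algebraMap F K τ) 0 ∨ Vl x₂ (algebraMap F K τ) 1 ∨
      x₂.ord (algebraMap F K τ) < 0) → Θ (x₁, x₂) = 0 := by
    intro x₁ x₂ hx
    obtain ⟨u, hu1, hu2⟩ := branch h hM x₂ hx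
    have h3 := e2 u (x₁, x₂)
    simp only at h3
    rw [hu1] at h3
    exact smul_self h3 hu2
  by_cases h₁ : Vl z₁ (algebraMap F K τ) 0 ∨ Vl z₁ (algebraMap F K τ) 1 ∨
      z₁.ord (algebraMap F K τ) < 0
  · exact hbr₁ _ _ h₁
  by_cases h₂ : Vl z₂ (algebraMap F K τ) 0 ∨ Vl z₂ (algebraMap F K τ) 1 ∨
      z₂.ord (algebraMap F K τ) < 0
  · exact hbr₂ _ _ h₂
  push Not at h₁ h₂
  obtain ⟨τ₁, hτ₁⟩ := exists_vl z₁ (f := algebraMap F K τ) (Or.inr h₁.2.2)
  obtain ⟨τ₂, hτ₂⟩ := exists_vl z₂ (f := algebraMap F K τ) (Or.inr h₂.2.2)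
  have h10 : τ₁ ≠ 0 := by rintro rfl; exact h₁.1 hτ₁
  have h11 : τ₁ ≠ 1 := by rintro rfl; exact h₁.2.1 hτ₁
  have h20 : τ₂ ≠ 0 := by rintro rfl; exact h₂.1 hτ₂
  have h21 : τ₂ ≠ 1 := by rintro rfl; exact h₂.2.1 hτ₂
  obtain ⟨v₁, hv₁0, hv₁⟩ := exists_value h hM hτ₁ h10 h11
  obtain ⟨v₂, hv₂0, hv₂⟩ := exists_value h hM hτ₂ h20 h21
  -- the coordinate `T`
  have hne : τ - algebraMap k F τ₂ ≠ 0 := sub_ne hM.trans τ₂
  let T : F := (τ - algebraMap k F τ₂)⁻¹
  have hT : Transcendental k T := by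
    intro hc
    apply hM.trans
    have h3 : IsAlgebraic k (τ - algebraMap k F τ₂) := by
      have := hc.inv
      rwa [inv_inv] at this
    have := h3.add (isAlgebraic_algebraMap (R := k) (A := F) τ₂)
    simpa using this
  have hT0 : T ≠ 0 := inv_ne_zero hne
  have hτT : τ = algebraMap k F τ₂ + T⁻¹ := by
    change τ = _ + (τ - algebraMap k F τ₂)⁻¹⁻¹
    rw [inv_inv]; ring
  -- the first extension
  obtain ⟨L', _, _, _, φ, V₂, e₂, hmor₂, hV₂, hinf₂, hval₂⟩ := exists_points hM (L := F) τ hτ₂ hv₂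
    ⟨below (IsScalarTower.toAlgHom k F K) z₂, vl_down hτ₂⟩
  have hφT : Transcendental k (φ T) := by
    intro hc
    exact hT ((isAlgebraic_algHom_iff φ φ.injective).1 hc)
  -- at the poles of `T`
  have hpole : ∀ Q : Place k F, Q.ord T < 0 → Vl Q τ τ₂ := by
    intro Q hQ
    right
    change Q.ord (τ - algebraMap k F τ₂)⁻¹ < 0 at hQ
    rw [Q.ord_inv] at hQ
    omega
  obtain ⟨S', hS1, hS2⟩ := poles hφT
  have hLfin := IsFF.finite hφT
  obtain ⟨Q₀, hQ₀⟩ : S'.Nonempty := by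
    rw [Finset.nonempty_iff_ne_empty]
    rintro rfl
    rw [Finset.sum_empty] at hS2
    have : 0 < finrank k⟮φ T⟯ L' := finrank_pos
    omega
  have hQ₀' := (hS1 Q₀).1 hQ₀
  let lam : k := τ₁ / τ₂
  have hlam : lam ≠ 0 := div_ne_zero h10 h20
  have hσ : ∀ Q : Place k L', Q.ord (φ T) < 0 → Vl Q (algebraMap k L' lam * φ τ) τ₁ := by
    intro Q hQ
    have h3 := (vl_below (φ := φ) (hpole _ (below_ord_neg hQ))).smul lam
    have h4 : lam * τ₂ = τ₁ := div_mul_cancel₀ _ h20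
    rwa [h4] at h3
  -- the second extension
  obtain ⟨L'', _, _, _, φ', V₁, e₁, hmor₁, hV₁, hinf₁, -⟩ := exists_points hM (L := L')
    (algebraMap k L' lam * φ τ) hτ₁ hv₁ ⟨Q₀, hσ Q₀ hQ₀'⟩
  have hφφT : Transcendental k (φ' (φ T)) := by
    intro hc
    exact hφT ((isAlgebraic_algHom_iff φ' φ'.injective).1 hc)
  let w₁ : k := -(τ₂ - 1)⁻¹
  let w₂ : k := -(lam * (τ₁ - 1)⁻¹)
  have hs1 : τ₁ - 1 ≠ 0 := sub_ne_zero.2 h11
  have hs2 : τ₂ - 1 ≠ 0 := sub_ne_zero.2 h21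
  have hd' : ∀ Q : Place k L'', Q.ord (φ' (φ T)) < 0 →
      (below φ (below φ' Q)).ord T < 0 := fun Q hQ => below_ord_neg (below_ord_neg hQ)
  refine final_step (Z := (curve (k := k) K).prod (curve (k := k) K)) hK (z₀ := (z₁, z₂))
    (T := φ' (φ T)) (Y := V₁ * (φ' V₂)⁻¹) (R := 1) (κ := v₁ * v₂⁻¹)
    (s := fun Q => (e₁ Q, e₂ (below φ' Q))) hφφT ?_ (mul_ne_zero hv₁0 (inv_ne_zero hv₂0)) ?_ hd
    (β := lam ^ a' * ((τ₁ - 1) * (τ₂ - 1)⁻¹) ^ b') ?_ one_ne_zero (one_mem _) (w₁ := w₁) (w₂ := w₂)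
    (c := b') ?_ ?_ ?_
  · exact ⟨hmor₁, curve_below φ' hmor₂⟩
  · intro Q hQ
    obtain ⟨u₁, hu1, hu1'⟩ := hinf₁ Q (hσ _ (below_ord_neg hQ))
    obtain ⟨u₂, hu2, hu2'⟩ := hinf₂ (below φ' Q) (hpole _ (hd' Q hQ))
    have hc1 : ((ψ u₁ : kˣ) : k) * v₁ ≠ 0 := mul_ne_zero (Units.ne_zero _) hv₁0
    have hc2 : ((ψ u₂ : kˣ) : k) * v₂ ≠ 0 := mul_ne_zero (Units.ne_zero _) hv₂0
    refine ⟨((ψ u₁ : kˣ) * v₁) * ((ψ u₂ : kˣ) * v₂)⁻¹, mul_ne_zero hc1 (inv_ne_zero hc2),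
      hu1'.mul ((vl_below hu2').inv hc2), ?_⟩
    change Θ (e₁ Q, e₂ (below φ' Q)) = _
    rw [hu1, hu2]
    have h3 := e1 u₁ (z₁, act a u₂ z₂)
    have h4 := e2 u₂ (z₁, z₂)
    simp only at h3 h4
    rw [h3, h4, smul_smul, Units.val_inv_eq_inv_val]
    congr 1
    have h5 : ((ψ u₁ : kˣ) : k) ≠ 0 := Units.ne_zero _
    have h6 : ((ψ u₂ : kˣ) : k) ≠ 0 := Units.ne_zero _
    field_simp
  · exact mul_ne_zero (pow_ne_zero _ hlam) (pow_ne_zero _ (mul_ne_zero hs1 (inv_ne_zero hs2)))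
  · intro hc
    have := Int.le_of_dvd (by exact_mod_cast hb) hc
    omega
  · -- the identity, computed in `F`
    have hT1 := sub_ne hT w₁
    have hτ1 : τ - 1 = T⁻¹ * algebraMap k F (τ₂ - 1) * (T - algebraMap k F w₁) := by
      have h3 : algebraMap k F w₁ = -(algebraMap k F (τ₂ - 1))⁻¹ := by
        change algebraMap k F (-(τ₂ - 1)⁻¹) = _
        rw [map_neg, map_inv₀]
      have h4 : algebraMap k F (τ₂ - 1) ≠ 0 := (_root_.map_ne_zero _).2 hs2
      have h5 : algebraMap k F (τ₂ - 1) = algebraMap k F τ₂ - 1 := by rw [map_sub, map_one]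
      rw [h3, hτT]
      field_simp
      rw [h5]; ring
    have hτ2 : algebraMap k F lam * τ - 1 =
        T⁻¹ * algebraMap k F (τ₁ - 1) * (T - algebraMap k F w₂) := by
      have h3 : algebraMap k F w₂ = -(algebraMap k F lam * (algebraMap k F (τ₁ - 1))⁻¹) := by
        change algebraMap k F (-(lam * (τ₁ - 1)⁻¹)) = _
        rw [map_neg, map_mul, map_inv₀]
      have h4 : algebraMap k F (τ₁ - 1) ≠ 0 := (_root_.map_ne_zero _).2 hs1
      have h5 : algebraMap k F (τ₁ - 1) = algebraMap k F lam * algebraMap k F τ₂ - 1 := by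
        rw [map_sub, map_one, ← map_mul, div_mul_cancel₀ _ h20]
      rw [h3, hτT]
      field_simp
      rw [h5]; ring
    have hid : aeval (algebraMap k F lam * τ) (bet k a' b') * (aeval τ (bet k a' b'))⁻¹ =
        algebraMap k F (lam ^ a' * ((τ₁ - 1) * (τ₂ - 1)⁻¹) ^ b') *
          ((T - algebraMap k F w₂) * (T - algebraMap k F w₁)⁻¹) ^ b' := by
      have hτ0 : τ ≠ 0 := by
        intro hc
        have h3 := hM.trans
        rw [hc] at h3
        exact h3 isAlgebraic_zero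
      have h4 : algebraMap k F (τ₂ - 1) ≠ 0 := (_root_.map_ne_zero _).2 hs2
      have hq : (algebraMap k F lam * τ - 1) * (τ - 1)⁻¹ = algebraMap k F ((τ₁ - 1) * (τ₂ - 1)⁻¹) *
          ((T - algebraMap k F w₂) * (T - algebraMap k F w₁)⁻¹) := by
        rw [hτ1, hτ2, map_mul (algebraMap k F) (τ₁ - 1), map_inv₀]
        generalize T - algebraMap k F w₂ = t₂
        generalize algebraMap k F (τ₁ - 1) = c₁
        generalize algebraMap k F (τ₂ - 1) = c₂ at h4 ⊢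
        field_simp
      rw [map_mul (algebraMap k F) (lam ^ a'), map_pow (algebraMap k F) _ b', mul_assoc, ← mul_pow,
        ← hq]
      unfold bet
      simp only [map_mul, map_pow, map_sub, aeval_X, aeval_C, map_one]
      rw [mul_pow, mul_pow, mul_inv, inv_pow]
      generalize (algebraMap k F lam * τ - 1) ^ b' = t₁
      generalize ((τ - 1) ^ b')⁻¹ = t₂
      field_simp
    have h3 : (V₁ * (φ' V₂)⁻¹) ^ d = φ' (φ (aeval (algebraMap k F lam * τ) (bet k a' b') *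
        (aeval τ (bet k a' b'))⁻¹)) := by
      rw [mul_pow, inv_pow, hV₁, ← map_pow, hV₂, map_mul φ, map_inv₀ φ, map_mul φ', map_inv₀ φ']
      congr 2
      have h4 : algebraMap k L' lam * φ τ = φ (algebraMap k F lam * τ) := by
        rw [map_mul, φ.commutes]
      rw [h4]
      exact aeval_algHom_apply φ _ _
    rw [h3, hid]
    simp only [map_mul, map_pow, map_sub, map_inv₀, AlgHom.commutes, one_pow, mul_one, zpow_natCast]
  · intro hw
    refine ⟨w₁, fun Q hQ => ?_⟩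
    have h3 : 0 < (below φ (below φ' Q)).ord (T - algebraMap k F w₁) := by
      apply below_ord_pos (φ := φ)
      rw [map_sub, φ.commutes]
      apply below_ord_pos (φ := φ')
      rwa [map_sub, φ'.commutes]
    have hw1 : w₁ ≠ 0 := neg_ne_zero.2 (inv_ne_zero hs2)
    have h4 : Vl (below φ (below φ' Q)) T w₁ := Or.inr (by omega)
    have h5 : Vl (below φ (below φ' Q)) τ 1 := by
      rw [hτT]
      have h6 := (Vl.const (below φ (below φ' Q)) τ₂).add (h4.inv hw1)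
      have h7 : τ₂ + w₁⁻¹ = 1 := by
        change τ₂ + (-(τ₂ - 1)⁻¹)⁻¹ = 1
        rw [inv_neg, inv_inv]; ring
      rwa [h7] at h6
    exact hbr₂ _ _ (Or.inr (Or.inl (hval₂ _ 1 hM.trans h5)))

end Pool.Agent.H12.VZ
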