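import Pool.Agent.H12.VZ.Fano2

/-!
# The vanishing theorem for symmetric functionals on `X ^ n × E`, continued
-/

set_option autoImplicit false
set_option linter.overlappingInstances false
set_option linter.unusedSectionVars false

namespace Pool.Agent.H12.VZ

open FF IntermediateField Module Polynomial Pool.Agent.W603.LV Pool.Agent.W619.PQ
  Pool.Agent.Q70.CH Pool.Agent.H25.VO

variable {k : Type} [Field k] [CharZero k] [IsAlgClosed k] {F₁ F₂ K₁ K₂ : Type} [Field F₁]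
  [Algebra k F₁] [IsFF k F₁] [Field F₂] [Algebra k F₂] [IsFF k F₂] [Field K₁] [Algebra k K₁]
  [IsFF k K₁] [Field K₂] [Algebra k K₂] [IsFF k K₂] [Algebra F₁ K₁] [IsScalarTower k F₁ K₁]
  [Algebra F₂ K₂] [IsScalarTower k F₂ K₂] {G : Type} [CommGroup G] [Fintype G]
  {a₁ : G →* (K₁ ≃ₐ[k] K₁)} {a₂ : G →* (K₂ ≃ₐ[k] K₂)} {ψ : G →* kˣ} {d : ℕ} {τ : F₂} {v : K₂}

/-- multiplication of the eigenfunction by a function on the quotient -/
lemma Data.mul {χ : G →* kˣ} {ε : ℤ} {g s : ℕ} {ρ : Type} [Fintype ρ] {y : K₁} {b : F₁}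
    {r : ρ → Place k F₁} {m : ρ → ℕ} (hd : 0 < d) (hD : Data a₁ F₁ χ d ε g s y b r m) {f : F₁}
    (hf : f ≠ 0) : Data a₁ F₁ χ d ε g s (y * algebraMap F₁ K₁ f) (b * f ^ d) r m := by
  have hb0 : b ≠ 0 := by
    rintro rfl
    have h1 := hD.root
    rw [map_zero] at h1
    exact hD.ne ((pow_eq_zero_iff hd.ne').1 h1)
  have hord : ∀ P : Place k F₁, P.ord (b * f ^ d) = P.ord b + d * P.ord f := by
    intro P
    rw [P.ord_mul hb0 (pow_ne_zero _ hf), P.ord_pow]
  exact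
    { quot := hD.quot
      genus := hD.genus
      ne := mul_ne_zero hD.ne (by simpa using hf)
      eig := by
        intro s
        rw [map_mul, hD.eig, hD.quot.1]; ring
      root := by rw [mul_pow, hD.root, map_mul, map_pow]
      inj := hD.inj
      pos := hD.pos
      unram := by
        intro P hP
        rw [hord]
        exact dvd_add (hD.unram P hP) (dvd_mul_right _ _)
      ram := by
        intro j
        rw [hord]
        have h1 : (r j).ord b + d * (r j).ord f + ε * (m j : ℤ) =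
            ((r j).ord b + ε * m j) + d * (r j).ord f := by ring
        rw [h1]
        exact dvd_add (hD.ram j) (dvd_mul_right _ _)
      sum := hD.sum }

theorem vanish_joint {p q a' b' : ℕ} (h : Tri d p q a' b') (hM : Model a₂ ψ d (bet k a' b') τ v)
    {χ : G →* kˣ} {ε : ℤ} (hε : (ε = 1 ∧ χ = ψ⁻¹) ∨ (ε = -1 ∧ χ = ψ)) {g s : ℕ} {ρ : Type} [Fintype ρ]
    [Nonempty ρ] {y : K₁} {b : F₁} {r : ρ → Place k F₁} {m : ρ → ℕ}
    (hD : Data a₁ F₁ χ d ε g s y b r m) {ι : Type} [Fintype ι] [DecidableEq ι]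
    (hι : g + s ≤ Fintype.card ι) {W : Type} [AddCommGroup W] [Module k W]
    {Θ : (ι → Place k K₁) × Place k K₂ → W}
    (P1 : ∀ (π : Equiv.Perm ι) z, Θ (fun i => z.1 (π i), z.2) = Θ z)
    (P2 : ∀ (u : ι → G) z, Θ (fun i => act a₁ (u i) (z.1 i), z.2) =
      (((χ (∏ i, u i))⁻¹ : kˣ) : k) • Θ z)
    (P2' : ∀ (u : G) z, Θ (z.1, act a₂ u z.2) = ((χ u : kˣ) : k) • Θ z)
    (P3 : KillsF (((curve (k := k) K₁).pow ι).prod (curve (k := k) K₂)) Θ)
    (z : (ι → Place k K₁) × Place k K₂) : Θ z = 0 := by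
  classical
  obtain ⟨hd, -⟩ := h.pos
  obtain ⟨x, e₀⟩ := z
  have hε' : ε = 1 ∨ ε = -1 := hε.imp (fun h => h.1) (fun h => h.1)
  -- the point of the elliptic curve
  by_cases hbr₂ : Vl e₀ (algebraMap F₂ K₂ τ) 0 ∨ Vl e₀ (algebraMap F₂ K₂ τ) 1 ∨
      e₀.ord (algebraMap F₂ K₂ τ) < 0
  · obtain ⟨u, hu1, hu2⟩ := branch h hM e₀ hbr₂
    have h3 := P2' u (x, e₀)
    simp only at h3
    rw [hu1] at h3
    have h4 : ((1 : k) - ((χ u : kˣ) : k)) • Θ (x, e₀) = 0 := by
      rw [sub_smul, one_smul, ← h3, sub_self]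
    rcases smul_eq_zero.1 h4 with h5 | h5
    · exfalso
      apply hu2
      rw [sub_eq_zero] at h5
      have h6 : χ u = 1 := Units.ext (by simpa using h5.symm)
      rcases hε with ⟨-, rfl⟩ | ⟨-, rfl⟩
      · rw [MonoidHom.inv_apply, inv_eq_one] at h6
        exact h6
      · exact h6
    · exact h5
  push Not at hbr₂
  obtain ⟨hb0, hb1, hbp⟩ := hbr₂
  obtain ⟨τ₀, hτ₀⟩ := exists_vl e₀ (f := algebraMap F₂ K₂ τ) (Or.inr hbp)
  have h0 : τ₀ ≠ 0 := by rintro rfl; exact hb0 hτ₀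
  have h1 : τ₀ ≠ 1 := by rintro rfl; exact hb1 hτ₀
  -- the points of the first curve
  have hz : ∀ i, ∃ z : Place k F₁, ∃ e, Over (x i) z e := by
    intro i
    obtain ⟨p, e, he, h⟩ := exists_below (IsScalarTower.toAlgHom k F₁ K₁) (x i)
    exact ⟨p, e, he, h⟩
  choose z hz using hz
  have hram : ∀ j, ¬ (d : ℤ) ∣ (r j).ord b := by
    intro j hc
    have h3 := (dvd_add_right hc).1 (hD.ram j)
    have h4 : (d : ℤ) ∣ m j := by
      rcases hε' with rfl | rfl
      · simpa using h3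
      · simpa using h3
    have h5 := Int.le_of_dvd (by exact_mod_cast (hD.pos j).1) h4
    have := (hD.pos j).2
    omega
  by_cases hbr : ∃ i j, z i = r j
  · obtain ⟨i, j, hij⟩ := hbr
    obtain ⟨e, he⟩ := hz i
    rw [hij] at he
    exact vanish_branch (Ψ := fun x' => Θ (x', e₀)) hD.quot hD.ne hD.eig hD.root
      (fun u' x' => P2 u' (x', e₀)) he (hram j)
  push Not at hbr
  obtain ⟨f, hf0, hf⟩ := exists_orders (Finset.univ.image z) (fun P => -(P.ord b / d))
  have hbne : b ≠ 0 := by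
    rintro rfl
    have h2 := hD.root
    rw [map_zero] at h2
    exact hD.ne ((pow_eq_zero_iff hd.ne').1 h2)
  refine vanish_joint_aux h hM hε (hD.mul hd hf0) hι P1 P2 P2' P3 hz ?_ hbr hτ₀ h0 h1
  intro i
  rw [Place.ord_mul _ hbne (pow_ne_zero _ hf0), Place.ord_pow,
    hf (z i) (Finset.mem_image_of_mem _ (Finset.mem_univ i))]
  have h4 : (d : ℤ) ∣ (z i).ord b := hD.unram _ (by
    rintro ⟨j, hj⟩
    exact hbr i j hj.symm)
  have := Int.mul_ediv_cancel' h4
  linarith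

end Pool.Agent.H12.VZ
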