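import Pool.Agent.H12.VZ.Defs

/-!
# Branching data
-/

set_option autoImplicit false
set_option linter.overlappingInstances false
set_option linter.unusedSectionVars false

namespace Pool.Agent.H12.VZ

open FF IntermediateField Module Polynomial Pool.Agent.W603.LV Pool.Agent.W619.PQ
  Pool.Agent.Q70.CH Pool.Agent.H25.VO

section

variable {k : Type} [Field k] [CharZero k] [IsAlgClosed k] {F₁ F₂ K₁ K₂ : Type} [Field F₁]
  [Algebra k F₁] [IsFF k F₁] [Field F₂] [Algebra k F₂] [IsFF k F₂] [Field K₁] [Algebra k K₁]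
  [IsFF k K₁] [Field K₂] [Algebra k K₂] [IsFF k K₂] [Algebra F₁ K₁] [IsScalarTower k F₁ K₁]
  [Algebra F₂ K₂] [IsScalarTower k F₂ K₂] {G : Type} [CommGroup G] [Fintype G]
  {a₁ : G →* (K₁ ≃ₐ[k] K₁)} {a₂ : G →* (K₂ ≃ₐ[k] K₂)} {ψ : G →* kˣ} {d : ℕ} {β : k[X]} {τ : F₂}
  {v : K₂}

/-- a character which is trivial on the kernel of the action has an eigenfunction -/
lemma exists_eigenfunction {χ : G →* kˣ} (h : ∀ u, a₁ u = 1 → χ u = 1) :
    ∃ y : K₁, y ≠ 0 ∧ ∀ s, a₁ s y = algebraMap k K₁ (χ s : k) * y := by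
  classical
  let T : K₁ → K₁ := fun z => ∑ s : G, algebraMap k K₁ ((χ s)⁻¹ : kˣ) * a₁ s z
  have hT1 : ∀ s z, a₁ s (T z) = algebraMap k K₁ (χ s : k) * T z := by
    intro u z
    change a₁ u (∑ s : G, _) = _ * ∑ s : G, _
    rw [map_sum, Finset.mul_sum]
    refine Fintype.sum_equiv (Equiv.mulLeft u) _ _ fun s => ?_
    rw [Equiv.coe_mulLeft, map_mul, (a₁ u).commutes, ← mul_assoc, ← map_mul, map_mul χ, mul_inv]
    have : ((χ u : kˣ) : k) * (((χ u)⁻¹ * (χ s)⁻¹ : kˣ) : k) = ((χ s)⁻¹ : kˣ) := by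
      rw [← Units.val_mul, mul_inv_cancel_left]
    rw [this, map_mul]; rfl
  by_contra hc
  push Not at hc
  have hT0 : ∀ z, T z = 0 := by
    intro z
    by_contra hz
    obtain ⟨s, hs⟩ := hc (T z) hz
    exact hs (hT1 s z)
  -- independence of the characters
  let Φ : G → (K₁ →* K₁) := fun s => ((a₁ s : K₁ ≃ₐ[k] K₁) : K₁ →* K₁)
  have hli := linearIndependent_monoidHom K₁ K₁
  let S : Finset (K₁ →* K₁) := Finset.univ.image Φ
  let c : (K₁ →* K₁) → K₁ := fun φ =>
    ∑ s ∈ Finset.univ.filter (fun s => Φ s = φ), algebraMap k K₁ ((χ s)⁻¹ : kˣ)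
  have h1 : ∑ φ ∈ S, c φ • (φ : K₁ → K₁) = 0 := by
    funext z
    have h2 := hT0 z
    change ∑ s : G, algebraMap k K₁ ((χ s)⁻¹ : kˣ) * a₁ s z = 0 at h2
    rw [← Finset.sum_fiberwise_of_maps_to (s := Finset.univ) (t := S) (g := Φ)
      (fun s _ => Finset.mem_image_of_mem _ (Finset.mem_univ s))] at h2
    rw [Finset.sum_apply, Pi.zero_apply, ← h2]
    apply Finset.sum_congr rfl
    intro φ _
    rw [Pi.smul_apply, smul_eq_mul, Finset.sum_mul]
    apply Finset.sum_congr rfl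
    intro s hs
    rw [← (Finset.mem_filter.1 hs).2]
    rfl
  have h3 := linearIndependent_iff'.1 hli S c h1 (Φ 1) (Finset.mem_image_of_mem _ (Finset.mem_univ 1))
  have h4 : c (Φ 1) = ((Finset.univ.filter (fun s => Φ s = Φ 1)).card : K₁) := by
    change ∑ s ∈ Finset.univ.filter (fun s => Φ s = Φ 1), algebraMap k K₁ ((χ s)⁻¹ : kˣ) = _
    rw [Finset.card_eq_sum_ones, Nat.cast_sum]
    apply Finset.sum_congr rfl
    intro s hs
    have h5 := (Finset.mem_filter.1 hs).2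
    have h6 : a₁ s = 1 := by
      apply AlgEquiv.ext
      intro z
      have := DFunLike.congr_fun h5 z
      change a₁ s z = a₁ 1 z at this
      rw [this, map_one]
    rw [h s h6]; simp
  have h7 : 0 < (Finset.univ.filter (fun s => Φ s = Φ 1)).card := by
    rw [Finset.card_pos]
    exact ⟨1, by simp⟩
  have hK : CharZero K₁ := charZero_of_injective_algebraMap (algebraMap k K₁).injective
  rw [h4] at h3
  exact h7.ne' (by exact_mod_cast h3)

theorem exists_data (hq : IsQuot a₁ F₁) {χ : G →* kˣ} {d : ℕ} (hd : 0 < d) (hχ : ∀ u, χ u ^ d = 1)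
    (hr : ∃ (P : Place k K₁) (u : G), act a₁ u P = P ∧ χ u ≠ 1) :
    (∃ u, χ u ≠ 1 ∧ a₁ u = 1) ∨
      ∃ (g s : ℕ) (ρ : Type) (_ : Fintype ρ) (y : K₁) (b : F₁) (r : ρ → Place k F₁) (m : ρ → ℕ),
        Nonempty ρ ∧ Data a₁ F₁ χ d 1 g s y b r m := by
  classical
  by_cases hc : ∃ u, χ u ≠ 1 ∧ a₁ u = 1
  · exact Or.inl hc
  right
  have hc' : ∀ u, a₁ u = 1 → χ u = 1 := by
    intro u hu
    by_contra h
    exact hc ⟨u, h, hu⟩
  obtain ⟨y, hy, hya⟩ := exists_eigenfunction hc'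
  obtain ⟨g, hg⟩ := exists_genus k F₁
  have hd' : (0 : ℤ) < d := by exact_mod_cast hd
  obtain ⟨b, hb⟩ := hq.2 (y ^ d) (by
    intro s
    rw [map_pow, hya, mul_pow, ← map_pow, ← Units.val_pow_eq_pow_val, hχ s]
    simp)
  -- the branch points
  have hfin : {P : Place k F₁ | ¬ (d : ℤ) ∣ P.ord b}.Finite :=
    (finite_support (k := k) b).subset fun P hP h0 => hP (by
      rw [h0]; exact dvd_zero _)
  let ρ : Type := {P : Place k F₁ // ¬ (d : ℤ) ∣ P.ord b}
  have : Finite ρ := hfin.to_subtype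
  have : Fintype ρ := Fintype.ofFinite ρ
  let m : ρ → ℕ := fun j => ((-(j.1).ord b) % (d : ℤ)).toNat
  have hm : ∀ j : ρ, (m j : ℤ) = (-(j.1).ord b) % (d : ℤ) := fun j =>
    Int.toNat_of_nonneg (Int.emod_nonneg _ hd'.ne')
  -- the sum
  let T : Finset (Place k F₁) := (finite_support (k := k) b).toFinset
  have hT : ∀ P : Place k F₁, P.ord b ≠ 0 → P ∈ T := by
    intro P hP
    rw [Set.Finite.mem_toFinset]; exact hP
  have h2 : (d : ℤ) * ∑ P ∈ T, (-P.ord b) / (d : ℤ) = - ∑ P ∈ T, (-P.ord b) % (d : ℤ) := by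
    have h3 : ∑ P ∈ T, P.ord b = 0 := sum_ord_finset b T hT
    have h4 : ∑ P ∈ T, ((d : ℤ) * ((-P.ord b) / (d : ℤ)) + (-P.ord b) % (d : ℤ)) =
        ∑ P ∈ T, -P.ord b := by
      apply Finset.sum_congr rfl
      intro P _
      exact Int.mul_ediv_add_emod _ _
    rw [Finset.sum_add_distrib, Finset.sum_neg_distrib, h3, ← Finset.mul_sum] at h4
    linarith
  have h3 : ∑ P ∈ T, (-P.ord b) % (d : ℤ) = ∑ j : ρ, (-(j.1).ord b) % (d : ℤ) := by
    rw [← Finset.sum_subtype (T.filter fun P => ¬ (d : ℤ) ∣ P.ord b)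
      (p := fun P => ¬ (d : ℤ) ∣ P.ord b) ?_ (fun P => (-P.ord b) % (d : ℤ))]
    · rw [Finset.sum_filter]
      apply Finset.sum_congr rfl
      intro P _
      split_ifs with hc
      · exact Int.emod_eq_zero_of_dvd ((Int.dvd_neg).2 hc)
      · rfl
    · intro P
      rw [Finset.mem_filter]
      constructor
      · exact fun h => h.2
      · intro h
        exact ⟨hT P (fun h0 => h (by rw [h0]; exact dvd_zero _)), h⟩
  have h4 : (∑ j : ρ, (m j : ℤ)) = (d : ℤ) * (- ∑ P ∈ T, (-P.ord b) / (d : ℤ)) := by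
    rw [mul_neg, h2, h3, neg_neg]
    exact Finset.sum_congr rfl fun j _ => hm j
  have h5 : 0 ≤ - ∑ P ∈ T, (-P.ord b) / (d : ℤ) := by
    have : (0 : ℤ) ≤ ∑ j : ρ, (m j : ℤ) := Finset.sum_nonneg fun j _ => by positivity
    rw [h4] at this
    exact nonneg_of_mul_nonneg_right this hd'
  obtain ⟨s, hs⟩ := Int.eq_ofNat_of_zero_le h5
  refine ⟨g, s, ρ, inferInstance, y, b, Subtype.val, m, ?_, ?_⟩
  · -- there is a branch point
    obtain ⟨P, u, hu, hχu⟩ := hr
    obtain ⟨p, e, he, hpe⟩ := exists_below (IsScalarTower.toAlgHom k F₁ K₁) P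
    have hO : Over P p e := ⟨he, hpe⟩
    refine ⟨⟨p, ?_⟩⟩
    rintro ⟨n, hn⟩
    obtain ⟨t, ht0, ht⟩ := p.surj
    have ht0' : algebraMap F₁ K₁ t ≠ 0 := by simpa using ht0
    have h6 : (d : ℤ) * P.ord y = e * p.ord b := by
      rw [← P.ord_pow, ← hb, hO.2]
    have h7 : P.ord y = e * n := by
      rw [hn] at h6
      apply mul_left_cancel₀ hd'.ne'
      rw [h6]; ring
    let f : K₁ := y * (algebraMap F₁ K₁ t) ^ (-n)
    have hf0 : f ≠ 0 := mul_ne_zero hy (zpow_ne_zero _ ht0')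
    have hford : P.ord f = 0 := by
      change P.ord (y * (algebraMap F₁ K₁ t) ^ (-n)) = 0
      rw [P.ord_mul hy (zpow_ne_zero _ ht0'), P.ord_zpow, hO.2, ht, h7]
      ring
    obtain ⟨c, hcf⟩ := exists_vl P (f := f) (Or.inr hford.ge)
    have hc0 : c ≠ 0 := hcf.ne_zero_of_ord hf0 hford
    have hfa : a₁ u f = algebraMap k K₁ (χ u : k) * f := by
      change a₁ u (y * (algebraMap F₁ K₁ t) ^ (-n)) = _
      rw [map_mul, map_zpow₀, hq.1, hya]
      change _ = _ * (y * (algebraMap F₁ K₁ t) ^ (-n))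
      ring
    have h8 : Vl P (a₁ u f) c := by
      rw [← vl_act, hu]; exact hcf
    have h9 : Vl P (a₁ u f) ((χ u : k) * c) := by
      rw [hfa]; exact hcf.smul _
    have h10 := h8.unique h9
    apply hχu
    apply Units.ext
    rw [Units.val_one]
    apply mul_right_cancel₀ hc0
    rw [one_mul]; exact h10.symm
  · refine ⟨hq, hg, hy, hya, hb.symm, Subtype.val_injective, ?_, ?_, ?_, ?_⟩
    · intro j
      have h6 := Int.emod_lt_of_pos (-(j.1).ord b) hd'
      have h7 := Int.emod_nonneg (-(j.1).ord b) hd'.ne'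
      have h8 := hm j
      have h9 : (-(j.1).ord b) % (d : ℤ) ≠ 0 := by
        intro h
        exact j.2 ((Int.dvd_neg).1 (Int.dvd_of_emod_eq_zero h))
      constructor <;> omega
    · intro P hP
      by_contra h
      exact hP ⟨⟨P, h⟩, rfl⟩
    · intro j
      rw [one_mul, hm j]
      have h6 := Int.mul_ediv_add_emod (-(j.1).ord b) (d : ℤ)
      exact ⟨-((-(j.1).ord b) / (d : ℤ)), by linarith⟩
    · have h6 : ((∑ j : ρ, m j : ℕ) : ℤ) = ((d * s : ℕ) : ℤ) := by
        push_cast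
        rw [h4, hs]
      exact_mod_cast h6

theorem rank_data {χ : G →* kˣ} {d : ℕ} {g s : ℕ} {ρ : Type} [Fintype ρ] [Nonempty ρ] {y : K₁}
    {b : F₁} {r : ρ → Place k F₁} {m : ρ → ℕ} (hD : Data a₁ F₁ χ d 1 g s y b r m) :
    0 < s ∧ ((g + s - 1 : ℕ) : Cardinal) ≤ Module.rank k (Eigenforms a₁ χ) := by
  classical
  obtain ⟨hq, hg, hy, hya, hb, hinj, hpos, hun, hram, hsum⟩ := hD
  obtain ⟨j₀⟩ := (inferInstance : Nonempty ρ)
  have hd : 0 < d := (hpos j₀).1.trans (hpos j₀).2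
  have hd' : (0 : ℤ) < d := by exact_mod_cast hd
  have hs : 0 < s := by
    rcases Nat.eq_zero_or_pos s with h | h
    · rw [h, mul_zero, Finset.sum_eq_zero_iff] at hsum
      have := hsum j₀ (Finset.mem_univ _)
      have := (hpos j₀).1
      omega
    · exact h
  refine ⟨hs, ?_⟩
  have hb0 : b ≠ 0 := by
    rintro rfl
    rw [map_zero] at hb
    exact hy ((pow_eq_zero_iff hd.ne').1 hb)
  have hmod : ∀ j, (-(r j).ord b) % (d : ℤ) = m j := by
    intro j
    obtain ⟨c, hc⟩ := hram j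
    rw [one_mul] at hc
    have h1 : -(r j).ord b = m j + d * (-c) := by linarith
    rw [h1, Int.add_mul_emod_self_left]
    exact Int.emod_eq_of_lt (by positivity) (by exact_mod_cast (hpos j).2)
  let E : Place k F₁ →₀ ℤ := Finsupp.onFinset (finite_support (k := k) b).toFinset
    (fun P => (-P.ord b) / d) (by
      intro P hP
      rw [Set.Finite.mem_toFinset]
      intro h0
      apply hP
      change (-P.ord b) / (d : ℤ) = 0
      rw [h0]; simp)
  have hEdeg : ddeg E = - (s : ℤ) := by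
    let T : Finset (Place k F₁) := (finite_support (k := k) b).toFinset
    have hT : ∀ P : Place k F₁, P.ord b ≠ 0 → P ∈ T := by
      intro P hP
      rw [Set.Finite.mem_toFinset]; exact hP
    have h1 : ddeg E = ∑ P ∈ T, (-P.ord b) / (d : ℤ) := by
      rw [ddeg_eq_sum]
      exact Finsupp.onFinset_sum _ (fun _ => rfl)
    have h2 : (d : ℤ) * ∑ P ∈ T, (-P.ord b) / (d : ℤ) = - ∑ P ∈ T, (-P.ord b) % (d : ℤ) := by
      have h3 : ∑ P ∈ T, P.ord b = 0 := sum_ord_finset b T hT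
      have h4 : ∑ P ∈ T, ((d : ℤ) * ((-P.ord b) / (d : ℤ)) + (-P.ord b) % (d : ℤ)) =
          ∑ P ∈ T, -P.ord b := by
        apply Finset.sum_congr rfl
        intro P _
        exact Int.mul_ediv_add_emod _ _
      rw [Finset.sum_add_distrib, Finset.sum_neg_distrib, h3, ← Finset.mul_sum] at h4
      linarith
    have h3 : ∑ P ∈ T, (-P.ord b) % (d : ℤ) = ∑ j : ρ, (-(r j).ord b) % (d : ℤ) := by
      have h4 : ∑ j : ρ, (-(r j).ord b) % (d : ℤ) =
          ∑ P ∈ Finset.univ.image r, (-P.ord b) % (d : ℤ) := by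
        rw [Finset.sum_image (fun _ _ _ _ h => hinj h)]
      rw [h4]
      symm
      apply Finset.sum_subset_zero_on_sdiff
      · intro P hP
        obtain ⟨j, -, rfl⟩ := Finset.mem_image.1 hP
        apply hT
        intro h0
        have h5 := hmod j
        rw [h0] at h5
        have := (hpos j).1
        simp at h5
        omega
      · intro P hP
        have hP' : P ∉ Set.range r := by
          rintro ⟨j, rfl⟩
          exact (Finset.mem_sdiff.1 hP).2 (Finset.mem_image_of_mem _ (Finset.mem_univ j))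
        exact Int.emod_eq_zero_of_dvd ((Int.dvd_neg).2 (hun P hP'))
      · exact fun _ _ => rfl
    have h4 : ∑ j : ρ, (-(r j).ord b) % (d : ℤ) = (d : ℤ) * s := by
      rw [Finset.sum_congr rfl fun j _ => hmod j]
      exact_mod_cast hsum
    rw [h3, h4, ← h1] at h2
    have h5 : (d : ℤ) * (ddeg E + s) = 0 := by rw [mul_add, h2]; ring
    have := (mul_eq_zero.1 h5).resolve_left hd'.ne'
    linarith
  have hyinv : ∀ s, a₁ s y⁻¹ = algebraMap k K₁ (χ⁻¹ s : k) * y⁻¹ := by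
    intro s
    rw [map_inv₀, hya, mul_inv, MonoidHom.inv_apply, Units.val_inv_eq_inv_val, map_inv₀]
  obtain ⟨n, hr1, hr2⟩ := rank_eigenforms hq hg (ψ := χ⁻¹) (inv_ne_zero hy) hyinv E (by
    intro P p e hPe f hf
    rcases eq_or_ne f 0 with rfl | hf0
    · left; rfl
    right
    have hfK : algebraMap F₁ K₁ f ≠ 0 := by simpa using hf0
    have h1 : 0 ≤ P.ord (algebraMap F₁ K₁ f * y⁻¹) := by
      rcases hf with h | h
      · exact absurd h (mul_ne_zero hfK (inv_ne_zero hy))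
      · exact h
    have h2 : (d : ℤ) * P.ord (algebraMap F₁ K₁ f * y⁻¹) = e * (d * p.ord f - p.ord b) := by
      rw [← P.ord_pow, mul_pow, inv_pow, hb, ← map_inv₀, ← map_pow, ← map_mul, hPe.2,
        p.ord_mul (pow_ne_zero _ hf0) (inv_ne_zero hb0), p.ord_pow, p.ord_inv]
      ring
    have h3 : 0 ≤ (e : ℤ) * (d * p.ord f - p.ord b) := by
      rw [← h2]; exact mul_nonneg hd'.le h1
    have h4 : 0 ≤ (d : ℤ) * p.ord f - p.ord b :=
      nonneg_of_mul_nonneg_right h3 (by exact_mod_cast hPe.1)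
    change -((-p.ord b) / (d : ℤ)) ≤ p.ord f
    have h5 : -p.ord f ≤ (-p.ord b) / (d : ℤ) := by
      rw [Int.le_ediv_iff_mul_le hd']
      linarith
    linarith)
  have h0 : χ⁻¹⁻¹ = χ := by
    ext s
    rw [MonoidHom.inv_apply, MonoidHom.inv_apply, _root_.inv_inv]
  rw [h0] at hr1
  refine le_trans ?_ hr1
  rw [hEdeg] at hr2
  have h1 := ell_nonneg E
  have : g + s - 1 ≤ n := by omega
  exact_mod_cast this

end

end Pool.Agent.H12.VZ
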