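import Pool.Agent.H12.VZ.Defs

/-!
# The field `k(τ)` has genus zero
-/

set_option autoImplicit false
set_option linter.overlappingInstances false
set_option linter.unusedSectionVars false

namespace Pool.Agent.H12.VZ

open FF IntermediateField Module Polynomial Pool.Agent.W603.LV Pool.Agent.W619.PQ
  Pool.Agent.Q70.CH Pool.Agent.H25.VO

variable {k : Type} [Field k] [CharZero k] [IsAlgClosed k] {F : Type} [Field F] [Algebra k F]
  [IsFF k F]

/-- a generator of the field `k(τ)` has exactly one pole, and it is simple -/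
lemma one_pole {τ : F} (hτ : Transcendental k τ) (h : k⟮τ⟯ = ⊤) :
    ∃ P : Place k F, P.ord τ = -1 ∧ ∀ Q, Q ≠ P → 0 ≤ Q.ord τ := by
  classical
  obtain ⟨S, hS, h3⟩ := poles hτ
  have h1 : finrank k⟮τ⟯ F = 1 := by rw [h]; exact IntermediateField.finrank_top
  rw [h1] at h3
  have h4 : ∀ w ∈ S, 1 ≤ (-w.ord τ).toNat * w.deg := by
    intro w hw
    rw [deg_one, mul_one]
    have := (hS w).1 hw
    omega
  have h5 : S.card ≤ 1 := by
    have := Finset.card_nsmul_le_sum S _ 1 h4
    rw [h3] at this
    simpa using this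
  have h6 : S.Nonempty := by
    rw [Finset.nonempty_iff_ne_empty]
    rintro rfl
    simp at h3
  obtain ⟨P, hP⟩ := h6
  have h7 : S = {P} := by
    apply (Finset.eq_of_subset_of_card_le (Finset.singleton_subset_iff.2 hP) _).symm
    simpa using h5
  refine ⟨P, ?_, ?_⟩
  · rw [h7, Finset.sum_singleton, deg_one, mul_one] at h3
    omega
  · intro Q hQ
    by_contra hc
    push Not at hc
    have := (hS Q).2 hc
    rw [h7, Finset.mem_singleton] at this
    exact hQ this

theorem genus_zero {τ : F} (hτ : Transcendental k τ) (h : k⟮τ⟯ = ⊤) : IsGenus k F 0 := by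
  classical
  obtain ⟨g, hg⟩ := exists_genus k F
  obtain ⟨P, hP, hP'⟩ := one_pole hτ h
  have hτ0 : τ ≠ 0 := by rintro rfl; exact hτ isAlgebraic_zero
  suffices hg0 : g = 0 by rw [← hg0]; exact hg
  obtain ⟨N, hN⟩ := hg
  let n : ℕ := N.toNat
  let D : Place k F →₀ ℤ := Finsupp.single P (n : ℤ)
  have hDs : (D.sum fun _ m => m) = n := Finsupp.sum_single_index rfl
  have h1 := hN D (by rw [hDs]; exact Int.self_le_toNat N)
  rw [hDs] at h1
  -- the powers of `τ`
  have hmem : ∀ i ∈ Finset.range (n + 1), τ ^ i ∈ LL D := by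
    intro i hi
    rw [mem_LL]
    right
    intro Q
    rw [Q.ord_pow]
    by_cases hQ : Q = P
    · subst hQ
      rw [hP]
      have h2 : D Q = n := Finsupp.single_eq_same
      rw [h2]
      have := Finset.mem_range.1 hi
      omega
    · have h2 : D Q = 0 := Finsupp.single_eq_of_ne (by simpa using hQ)
      rw [h2, neg_zero]
      exact mul_nonneg (by positivity) (hP' Q hQ)
  let θ : (Fin (n + 1) → k) →ₗ[k] LL D :=
    { toFun := fun c => ⟨∑ i : Fin (n + 1), c i • τ ^ (i : ℕ), Submodule.sum_mem _ fun i _ =>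
        Submodule.smul_mem _ _ (hmem i (Finset.mem_range.2 i.2))⟩
      map_add' := by
        intro c c'
        apply Subtype.ext
        simp only [Pi.add_apply, add_smul]
        rw [Finset.sum_add_distrib]; rfl
      map_smul' := by
        intro a c
        apply Subtype.ext
        simp only [Pi.smul_apply, smul_eq_mul, RingHom.id_apply, mul_smul]
        rw [← Finset.smul_sum]; rfl }
  have hinj : Function.Injective θ := by
    rw [← LinearMap.ker_eq_bot, LinearMap.ker_eq_bot']
    intro c hc
    have h2 : ∑ i : Fin (n + 1), c i • τ ^ (i : ℕ) = 0 := congrArg Subtype.val hc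
    let p : k[X] := ∑ i : Fin (n + 1), C (c i) * X ^ (i : ℕ)
    have h3 : aeval τ p = 0 := by
      change aeval τ (∑ i : Fin (n + 1), C (c i) * X ^ (i : ℕ)) = 0
      rw [map_sum, ← h2]
      apply Finset.sum_congr rfl
      intro i _
      rw [map_mul, aeval_C, map_pow, aeval_X, Algebra.smul_def]
    have h4 : p = 0 := by
      by_contra hne
      exact hτ ⟨p, hne, h3⟩
    ext i
    have h5 : p.coeff i = c i := by
      change (∑ j : Fin (n + 1), C (c j) * X ^ (j : ℕ)).coeff i = c i
      rw [finsetSum_coeff, Finset.sum_eq_single i]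
      · rw [coeff_C_mul_X_pow, if_pos rfl]
      · intro j _ hj
        rw [coeff_C_mul_X_pow, if_neg (fun hc => hj (Fin.ext hc.symm))]
      · intro h; exact absurd (Finset.mem_univ i) h
    rw [h4, coeff_zero] at h5
    exact h5.symm
  have h2 := LinearMap.finrank_le_finrank_of_injective hinj
  rw [Module.finrank_fintype_fun_eq_card, Fintype.card_fin] at h2
  have h3 : ((n + 1 : ℕ) : ℤ) ≤ n + 1 - g := by
    rw [← h1]; exact_mod_cast h2
  push_cast at h3
  omega

end Pool.Agent.H12.VZ
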