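import Pool.Agent.H12.VZ.Defs
import Pool.Agent.H12.VZ.Ell
import Pool.Agent.H12.VZ.Bran

/-!
# The case `d = 2`: all elliptic curves `v ^ 2 = τ (τ - 1) (τ - c)`
-/

set_option autoImplicit false
set_option linter.overlappingInstances false
set_option linter.unusedSectionVars false

namespace Pool.Agent.H12.VZ

open FF IntermediateField Module Polynomial Pool.Agent.W603.LV Pool.Agent.W619.PQ
  Pool.Agent.Q70.CH Pool.Agent.H25.VO

section places

variable {k : Type} [Field k] [CharZero k] [IsAlgClosed k] {F : Type} [Field F] [Algebra k F]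
  [IsFF k F]

/-- a generator of the field has exactly one zero, of order one -/
lemma two_zero {f : F} (hf : Transcendental k f) (h : k⟮f⟯ = ⊤) :
    ∃ P : Place k F, P.ord f = 1 ∧ ∀ Q : Place k F, 0 < Q.ord f → Q = P := by
  classical
  obtain ⟨S, hS, -, hS3⟩ := zeros (k := k) (K := F) hf
  have h1 : finrank k⟮f⟯ F = 1 := by rw [h]; exact IntermediateField.finrank_top
  rw [h1] at hS3
  have h2 : ∀ w ∈ S, (w.ord f).toNat * w.deg = (w.ord f).toNat := by
    intro w _
    rw [deg_one w, mul_one]
  rw [Finset.sum_congr rfl h2] at hS3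
  have h3 : ∀ w ∈ S, 1 ≤ (w.ord f).toNat := by
    intro w hw
    have := (hS w).1 hw
    omega
  have h4 : S.card ≤ 1 := by
    have := Finset.card_nsmul_le_sum S _ 1 h3
    rw [hS3] at this
    simpa using this
  have hne : S.Nonempty := by
    rw [Finset.nonempty_iff_ne_empty]
    rintro rfl
    simp at hS3
  obtain ⟨P, hP⟩ := hne
  have h5 : S = {P} := by
    rw [Finset.eq_singleton_iff_unique_mem]
    exact ⟨hP, fun Q hQ => Finset.card_le_one.1 h4 Q hQ P hP⟩
  rw [h5, Finset.sum_singleton] at hS3
  have h6 := (hS P).1 hP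
  refine ⟨P, by omega, fun Q hQ => ?_⟩
  have := (hS Q).2 hQ
  rw [h5, Finset.mem_singleton] at this
  exact this

lemma two_adjoin_sub {f : F} (h : k⟮f⟯ = ⊤) (t : k) : k⟮f - algebraMap k F t⟯ = ⊤ := by
  rw [eq_top_iff, ← h, adjoin_simple_le_iff]
  have h1 := mem_adjoin_simple_self k (f - algebraMap k F t)
  have h2 := add_mem h1 (k⟮f - algebraMap k F t⟯.algebraMap_mem t)
  rwa [sub_add_cancel] at h2

lemma two_trans_sub {f : F} (hf : Transcendental k f) (t : k) :
    Transcendental k (f - algebraMap k F t) := by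
  intro hc
  apply hf
  have := hc.add (isAlgebraic_algebraMap (R := k) (A := F) t)
  simpa using this

lemma two_ord_pole {f : F} (hf : Transcendental k f) {P : Place k F} (hP : P.ord f < 0) (t : k) :
    P.ord (f - algebraMap k F t) = P.ord f := by
  have hT0 : f ≠ 0 := by rintro rfl; exact hf isAlgebraic_zero
  by_cases ht : t = 0
  · rw [ht, map_zero, sub_zero]
  have h1 : algebraMap k F t ≠ 0 := by simpa using ht
  rw [sub_eq_add_neg]
  exact (P.ord_add_eq hT0 (neg_ne_zero.2 h1) (by rw [P.ord_neg, P.ord_const ht]; exact hP)).2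

lemma two_ord_other {f : F} {P : Place k F} {t t' : k} (hP : 0 < P.ord (f - algebraMap k F t))
    (ht : t' ≠ t) : P.ord (f - algebraMap k F t') = 0 := by
  have h1 : Vl P f t := Or.inr (by omega)
  have h2 : Vl P (f - algebraMap k F t') (t - t') := h1.sub (Vl.const P t')
  exact (h2.ne_zero (sub_ne_zero.2 ht.symm)).2

/-- the four branch points -/
lemma two_points {f : F} (hf : Transcendental k f) (h : k⟮f⟯ = ⊤) {c : k} (h0 : c ≠ 0)
    (h1 : c ≠ 1) :
    ∃ r : Fin 4 → Place k F, Function.Injective r ∧
      (∀ P, P ∉ Set.range r → (2 : ℤ) ∣ P.ord (f * (f - 1) * (f - algebraMap k F c))) ∧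
      ∀ j, (2 : ℤ) ∣ (r j).ord (f * (f - 1) * (f - algebraMap k F c)) + 1 := by
  classical
  have hfin : ∀ t : k, ∃ P : Place k F, P.ord (f - algebraMap k F t) = 1 ∧
      ∀ Q : Place k F, 0 < Q.ord (f - algebraMap k F t) → Q = P :=
    fun t => two_zero (two_trans_sub hf t) (two_adjoin_sub h t)
  choose R hR1 hR2 using hfin
  obtain ⟨P₁, hP1, hP2⟩ := two_zero (k := k) (F := F) (f := f⁻¹) (by
    intro h; apply hf; simpa using h.inv) (by rw [adjoin_inv]; exact h)
  rw [P₁.ord_inv] at hP1
  have hb : ∀ P : Place k F, P.ord (f * (f - 1) * (f - algebraMap k F c)) =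
      P.ord (f - algebraMap k F 0) + P.ord (f - algebraMap k F 1) +
        P.ord (f - algebraMap k F c) := by
    intro P
    have e0 : f = f - algebraMap k F 0 := by rw [map_zero, sub_zero]
    have e1 : (f - 1) = f - algebraMap k F 1 := by rw [map_one]
    rw [P.ord_mul, P.ord_mul]
    · rw [e1, ← e0]
    · rw [e0]; exact sub_ne hf 0
    · rw [e1]; exact sub_ne hf 1
    · apply mul_ne_zero
      · rw [e0]; exact sub_ne hf 0
      · rw [e1]; exact sub_ne hf 1
    · exact sub_ne hf c
  have hRt : ∀ t t' : k, t' ≠ t → (R t).ord (f - algebraMap k F t') = 0 := by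
    intro t t' ht
    exact two_ord_other (by rw [hR1]; norm_num) ht
  have hRinf : ∀ t, R t ≠ P₁ := by
    intro t ht
    have h3 := hR1 t
    rw [ht, two_ord_pole hf (by omega)] at h3
    omega
  have hRinj : ∀ t t', R t = R t' → t = t' := by
    intro t t' htt
    by_contra hne
    have h3 := hRt t t' (Ne.symm hne)
    rw [htt, hR1] at h3
    exact one_ne_zero h3
  have hord : ∀ t, (t = 0 ∨ t = 1 ∨ t = c) →
      (R t).ord (f * (f - 1) * (f - algebraMap k F c)) = 1 := by
    intro t ht
    rw [hb]
    rcases ht with rfl | rfl | rfl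
    · rw [hR1, hRt _ _ one_ne_zero, hRt _ _ h0]; norm_num
    · rw [hR1, hRt _ _ zero_ne_one, hRt _ _ h1]; norm_num
    · rw [hR1, hRt _ _ h0.symm, hRt _ _ h1.symm]; norm_num
  have hordinf : P₁.ord (f * (f - 1) * (f - algebraMap k F c)) = -3 := by
    rw [hb, two_ord_pole hf (by omega), two_ord_pole hf (by omega), two_ord_pole hf (by omega)]
    omega
  refine ⟨![R 0, R 1, R c, P₁], ?_, ?_, ?_⟩
  · intro i j hij
    fin_cases i <;> fin_cases j <;> first | rfl | (exfalso; simp at hij; first
      | exact hRinf _ hij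
      | exact hRinf _ hij.symm
      | exact zero_ne_one (hRinj _ _ hij)
      | exact one_ne_zero (hRinj _ _ hij)
      | exact h0 (hRinj _ _ hij)
      | exact h0 (hRinj _ _ hij).symm
      | exact h1 (hRinj _ _ hij)
      | exact h1 (hRinj _ _ hij).symm)
  · intro P hP
    have hP0 : P ≠ R 0 := fun hc => hP ⟨0, hc.symm⟩
    have hP1' : P ≠ R 1 := fun hc => hP ⟨1, hc.symm⟩
    have hPc : P ≠ R c := fun hc => hP ⟨2, hc.symm⟩
    have hPi : P ≠ P₁ := fun hc => hP ⟨3, hc.symm⟩
    have hge : Ge P 0 f := by
      right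
      by_contra hc
      exact hPi (hP2 P (by rw [P.ord_inv]; omega))
    obtain ⟨t, ht⟩ := exists_vl P hge
    have ht' := ord_pos_of_vl hf ht
    have hPt := hR2 t P ht'
    have e0 : t ≠ 0 := by rintro rfl; exact hP0 hPt
    have e1 : t ≠ 1 := by rintro rfl; exact hP1' hPt
    have ec : t ≠ c := by rintro rfl; exact hPc hPt
    rw [hb, two_ord_other ht' e0.symm, two_ord_other ht' e1.symm, two_ord_other ht' ec.symm]
    norm_num
  · intro j
    fin_cases j
    · change (2 : ℤ) ∣ (R 0).ord _ + 1
      rw [hord 0 (by simp)]; norm_num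
    · change (2 : ℤ) ∣ (R 1).ord _ + 1
      rw [hord 1 (by simp)]; norm_num
    · change (2 : ℤ) ∣ (R c).ord _ + 1
      rw [hord c (by simp)]; norm_num
    · change (2 : ℤ) ∣ P₁.ord _ + 1
      rw [hordinf]; norm_num

end places

section

variable {k : Type} [Field k] [CharZero k] [IsAlgClosed k] {F K : Type} [Field F] [Algebra k F]
  [IsFF k F] [Field K] [Algebra k K] [IsFF k K] [Algebra F K] [IsScalarTower k F K] {G : Type}
  [CommGroup G] [Fintype G] {a : G →* (K ≃ₐ[k] K)} {ψ : G →* kˣ} {τ : F} {v : K} {c : k}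

lemma two_aeval : aeval τ (X * (X - C 1) * (X - C c) : k[X]) =
    τ * (τ - 1) * (τ - algebraMap k F c) := by
  simp

lemma two_ne (hM : Model a ψ 2 (X * (X - C 1) * (X - C c)) τ v) : v ≠ 0 := by
  rintro rfl
  have h1 := hM.root
  rw [zero_pow two_ne_zero, two_aeval] at h1
  have h2 : τ * (τ - 1) * (τ - algebraMap k F c) = 0 := by
    apply (algebraMap F K).injective
    rw [← h1, map_zero]
  have e0 : τ ≠ 0 := by
    have := sub_ne hM.trans (0 : k)
    rwa [map_zero, sub_zero] at this
  have e1 : τ - 1 ≠ 0 := by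
    have := sub_ne hM.trans (1 : k)
    rwa [map_one] at this
  exact mul_ne_zero (mul_ne_zero e0 e1) (sub_ne hM.trans c) h2

/-- the branching data of `ψ` -/
lemma two_data (h0 : c ≠ 0) (h1 : c ≠ 1) (hM : Model a ψ 2 (X * (X - C 1) * (X - C c)) τ v) :
    ∃ r : Fin 4 → Place k F, Data a F ψ 2 1 0 2 v (aeval τ (X * (X - C 1) * (X - C c) : k[X])) r
      (fun _ => 1) := by
  obtain ⟨r, hr1, hr2, hr3⟩ := two_points hM.trans hM.gen h0 h1
  refine ⟨r, hM.quot, genus_zero hM.trans hM.gen, two_ne hM, hM.eig, hM.root, hr1, ?_, ?_, ?_,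
    ?_⟩
  · intro j; norm_num
  · intro P hP
    rw [two_aeval]
    exact_mod_cast hr2 P hP
  · intro j
    rw [two_aeval]
    simpa using hr3 j
  · simp

theorem van_two {χ : G →* kˣ} {g s : ℕ} {ρ : Type} [Fintype ρ] [Nonempty ρ] {y : K} {b : F}
    {r : ρ → Place k F} {m : ρ → ℕ} (hD : Data a F χ 2 1 g s y b r m) (o : Place k F) :
    Van a χ (g + s - 1) o := by
  classical
  have hm1 : ∀ j, m j = 1 := by
    intro j
    have := hD.pos j
    omega
  have hcard : Fintype.card ρ = Fintype.card (Fin s × Bool) := by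
    have h2 := hD.sum
    simp only [hm1, Finset.sum_const, Finset.card_univ, smul_eq_mul, mul_one] at h2
    rw [h2, Fintype.card_prod, Fintype.card_fin, Fintype.card_bool, mul_comm]
  let e : ρ ≃ Fin s × Bool := Fintype.equivOfCardEq hcard
  have hs : 0 < s := by
    obtain ⟨j⟩ := ‹Nonempty ρ›
    exact (e j).1.pos
  have hodd : ∀ j, (2 : ℤ) ∣ (r j).ord b + 1 := by
    intro j
    have := hD.ram j
    rw [hm1 j] at this
    simpa using this
  let q : ρ → ρ := fun j => e.symm ((e j).1, false)
  have hq : ∀ j, q j ≠ j ↔ (e j).2 = true := by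
    intro j
    constructor
    · intro h
      by_contra hc
      apply h
      have h2 : (e j).2 = false := by simpa using hc
      change e.symm ((e j).1, false) = j
      rw [← h2]
      exact e.symm_apply_apply j
    · intro h hc
      have h2 : e (q j) = ((e j).1, false) := e.apply_symm_apply _
      rw [hc] at h2
      rw [h2] at h
      exact absurd h (by simp)
  have hqcard : (Finset.univ.filter fun j => q j ≠ j).card = (s - 1) + 1 := by
    have h2 : (Finset.univ.filter fun j => q j ≠ j) =
        (Finset.univ : Finset (Fin s)).map ⟨fun i => e.symm (i, true), by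
          intro i i' hii
          have := e.symm.injective hii
          exact (Prod.mk.inj this).1⟩ := by
      ext j
      rw [Finset.mem_filter, hq, Finset.mem_map]
      constructor
      · rintro ⟨-, h3⟩
        refine ⟨(e j).1, Finset.mem_univ _, ?_⟩
        change e.symm ((e j).1, true) = j
        rw [← h3]
        exact e.symm_apply_apply j
      · rintro ⟨i, -, rfl⟩
        refine ⟨Finset.mem_univ _, ?_⟩
        change (e (e.symm (i, true))).2 = true
        rw [e.apply_symm_apply]
    rw [h2, Finset.card_map, Finset.card_univ, Fintype.card_fin]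
    omega
  intro ι _ _ W _ _ Ψ hι P1 P2 P3 _ x
  refine vanish_ramified (ρ := ρ) hD.quot hD.genus hD.ne hD.eig two_pos hD.root hD.inj (q := q)
    hD.unram ?_ ?_ hqcard (by omega) P1 P2 P3 x
  · intro j hj
    have := hodd j
    push_cast at hj
    omega
  · intro i
    have h3 : ∑ j ∈ Finset.univ.filter (fun j => q j = i), (r j).ord b =
        ∑ x : Fin s × Bool, if e.symm (x.1, false) = i then (r (e.symm x)).ord b else 0 := by
      rw [Finset.sum_filter]
      refine Fintype.sum_equiv e _ _ fun j => ?_
      rw [e.symm_apply_apply]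
    rw [h3, Fintype.sum_prod_type]
    apply Finset.dvd_sum
    intro l _
    rw [Fintype.sum_bool]
    dsimp only
    split_ifs
    · have h4 := hodd (e.symm (l, true))
      have h5 := hodd (e.symm (l, false))
      push_cast
      omega
    · simp

theorem van_ell_two (h0 : c ≠ 0) (h1 : c ≠ 1) (hM : Model a ψ 2 (X * (X - C 1) * (X - C c)) τ v)
    (o : Place k F) : Van a ψ 1 o := by
  obtain ⟨r, hr⟩ := two_data h0 h1 hM
  exact van_two hr o

theorem rank_ell_two (h0 : c ≠ 0) (h1 : c ≠ 1) (hM : Model a ψ 2 (X * (X - C 1) * (X - C c)) τ v) :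
    (1 : Cardinal) ≤ Module.rank k (Eigenforms a ψ) := by
  obtain ⟨r, hr⟩ := two_data h0 h1 hM
  have := (rank_data hr).2
  simpa using this

/-- an automorphism which fixes `v` is trivial -/
lemma two_trivial (hM : Model a ψ 2 (X * (X - C 1) * (X - C c)) τ v) {u : G} (hu : ψ u = 1) :
    a u = 1 := by
  ext z
  change a u z = z
  have hz : z ∈ IntermediateField.adjoin F {v} := by rw [hM.top]; exact mem_top
  induction hz using IntermediateField.adjoin_induction with
  | mem x hx =>
    rw [Set.mem_singleton_iff] at hx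
    rw [hx, hM.eig, hu, Units.val_one, map_one, one_mul]
  | algebraMap x => exact hM.quot.1 u x
  | add x y _ _ hx hy => rw [map_add, hx, hy]
  | inv x _ hx => rw [map_inv₀, hx]
  | mul x y _ _ hx hy => rw [map_mul, hx, hy]

theorem van_other_two (h0 : c ≠ 0) (h1 : c ≠ 1) (hM : Model a ψ 2 (X * (X - C 1) * (X - C c)) τ v)
    {χ : G →* kˣ} (hχ : χ ≠ ψ) (o : Place k F) : Van a χ 0 o := by
  classical
  by_cases hu : ∃ u, ψ u = 1 ∧ χ u ≠ 1
  · obtain ⟨u, hu1, hu2⟩ := hu
    intro ι _ _ W _ _ Ψ hι P1 P2 P3 _ x
    obtain ⟨i⟩ := Fintype.card_pos_iff.1 hι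
    refine vanish_fixed P2 (i := i) (s := u) ?_ hu2
    have h2 := two_trivial hM hu1
    apply Place.ext
    ext f
    rw [act_ord, h2]; rfl
  · push Not at hu
    have hsq : ∀ u, ψ u * ψ u = 1 := by
      intro u
      have h2 : a u (v ^ 2) = v ^ 2 := by rw [hM.root, hM.quot.1]
      rw [map_pow, hM.eig, mul_pow] at h2
      have h3 : (algebraMap k K (ψ u : k)) ^ 2 = 1 :=
        mul_right_cancel₀ (pow_ne_zero 2 (two_ne hM)) (by rw [h2, one_mul])
      rw [← map_pow] at h3
      have h4 : ((ψ u : kˣ) : k) ^ 2 = 1 := by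
        apply (algebraMap k K).injective
        rw [h3, map_one]
      apply Units.ext
      rw [Units.val_mul, Units.val_one, ← pow_two, h4]
    have hψ : ∀ u, ψ u = 1 ∨ ψ u = -1 := by
      intro u
      have h2 := hsq u
      have h3 : (((ψ u : kˣ) : k) - 1) * (((ψ u : kˣ) : k) + 1) = 0 := by
        have := congrArg Units.val h2
        rw [Units.val_mul, Units.val_one] at this
        linear_combination this
      rcases mul_eq_zero.1 h3 with h4 | h4
      · left
        apply Units.ext
        rw [Units.val_one]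
        linear_combination h4
      · right
        apply Units.ext
        rw [Units.val_neg, Units.val_one]
        linear_combination h4
    have hχ1 : χ = 1 := by
      by_contra hne
      obtain ⟨w, hw⟩ : ∃ w, χ w ≠ 1 := by
        by_contra hc
        push Not at hc
        exact hne (MonoidHom.ext hc)
      have hψw : ψ w ≠ 1 := fun hc => hw (hu w hc)
      have hψw' : ψ w = -1 := (hψ w).resolve_left hψw
      have hχw : χ w * χ w = 1 := by
        rw [← map_mul]
        apply hu
        rw [map_mul, hsq]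
      have hχw' : χ w = -1 := by
        have h3 : (((χ w : kˣ) : k) - 1) * (((χ w : kˣ) : k) + 1) = 0 := by
          have := congrArg Units.val hχw
          rw [Units.val_mul, Units.val_one] at this
          linear_combination this
        rcases mul_eq_zero.1 h3 with h4 | h4
        · exfalso
          apply hw
          apply Units.ext
          rw [Units.val_one]
          linear_combination h4
        · apply Units.ext
          rw [Units.val_neg, Units.val_one]
          linear_combination h4
      apply hχ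
      ext1 u
      rcases hψ u with h2 | h2
      · rw [h2, hu u h2]
      · have h3 : ψ (u * w) = 1 := by rw [map_mul, h2, hψw']; simp
        have h4 := hu _ h3
        rw [map_mul, hχw'] at h4
        rw [h2]
        have h5 : χ u = (χ u * -1) * -1 := by simp
        rw [h5, h4]; simp
    subst hχ1
    intro ι _ _ W _ _ Ψ hι P1 P2 P3 P4 x
    refine vanish_trivial hM.quot (genus_zero hM.trans hM.gen) hι P1 ?_ P3 (P4 rfl) x
    intro u x
    rw [P2]; simp

end

end Pool.Agent.H12.VZ
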