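import Pool.Agent.H12.VZ.Block
import Pool.Agent.H12.VZ.Core
import Pool.Agent.H12.VZ.Fano
import Pool.Agent.H12.VZ.Cross
import Pool.Agent.H12.VZ.Two

/-!
# Assembly
-/

set_option autoImplicit false
set_option linter.overlappingInstances false
set_option linter.unusedSectionVars false

namespace Pool.Agent.H12.VZ

open FF IntermediateField Module Polynomial Pool.Agent.W603.LV Pool.Agent.W619.PQ
  Pool.Agent.Q70.CH Pool.Agent.H25.VO

variable {k : Type} [Field k] [CharZero k] [IsAlgClosed k] {F₁ F₂ K₁ K₂ : Type} [Field F₁]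
  [Algebra k F₁] [IsFF k F₁] [Field F₂] [Algebra k F₂] [IsFF k F₂] [Field K₁] [Algebra k K₁]
  [IsFF k K₁] [Field K₂] [Algebra k K₂] [IsFF k K₂] [Algebra F₁ K₁] [IsScalarTower k F₁ K₁]
  [Algebra F₂ K₂] [IsScalarTower k F₂ K₂] {G : Type} [CommGroup G] [Fintype G]
  {a₁ : G →* (K₁ ≃ₐ[k] K₁)} {a₂ : G →* (K₂ ≃ₐ[k] K₂)} {ψ : G →* kˣ} {d : ℕ} {β : k[X]} {τ : F₂}
  {v : K₂}

omit [CharZero k] [IsAlgClosed k] [Fintype G] in
lemma hom_inv_inv (ψ : G →* kˣ) : ψ⁻¹⁻¹ = ψ := by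
  ext s
  rw [MonoidHom.inv_apply, MonoidHom.inv_apply, _root_.inv_inv]

omit [CharZero k] [IsAlgClosed k] [Fintype G] in
lemma hom_eq_one {ψ : G →* kˣ} (h : ψ⁻¹ = 1) : ψ = 1 := by
  ext1 g
  have h5 := DFunLike.congr_fun h g
  rw [MonoidHom.inv_apply, MonoidHom.one_apply, inv_eq_one] at h5
  rw [h5, MonoidHom.one_apply]

section zero

variable {n : ℕ} {W : Type} [AddCommGroup W] [Module k W] {o₁ : Place k F₁} {o₂ : Place k F₂}
  {κ : Fin n → (G →* kˣ)} {Θ : (Fin n → Place k K₁ × Place k K₂) → W}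

/-- an element which acts trivially on the first curve -/
lemma zero_of_trivial (hΘ : Eig a₁ a₂ o₁ o₂ κ Θ) {i : Fin n} {u : G} (hu : a₁ u = 1)
    (hκ : κ i u ≠ 1) (w : Fin n → Place k K₁ × Place k K₂) : Θ w = 0 := by
  have h1 := hΘ.eig₁ (Pi.mulSingle i u) w
  rw [prod_single] at h1
  have h2 : ∀ P : Place k K₁, act a₁ u P = P := by
    intro P
    apply Place.ext; ext f
    rw [act_ord, hu]; rfl
  have h3 : tw a₁ a₂ (Pi.mulSingle i u) 1 w = w := by
    ext1 j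
    simp only [tw]
    by_cases hj : j = i
    · subst hj
      rw [Pi.mulSingle_eq_same, Pi.one_apply, act_one, h2]
    · rw [Pi.mulSingle_eq_of_ne hj, Pi.one_apply, act_one, act_one]
  rw [h3] at h1
  have h4 : ((1 : k) - (((κ i u)⁻¹ : kˣ) : k)) • Θ w = 0 := by
    rw [sub_smul, one_smul, ← h1, sub_self]
  rcases smul_eq_zero.1 h4 with h5 | h5
  · exfalso
    apply hκ
    rw [sub_eq_zero] at h5
    have h6 : (1 : kˣ) = (κ i u)⁻¹ := Units.ext (by simpa using h5)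
    rw [← inv_inv (κ i u), ← h6, inv_one]
  · exact h5

/-- a character on the second curve without functionals on one point -/
lemma zero_of_van (hΘ : Eig a₁ a₂ o₁ o₂ κ Θ) {i : Fin n} (V : Van a₂ (κ i)⁻¹ 0 o₂)
    (w : Fin n → Place k K₁ × Place k K₂) : Θ w = 0 := by
  classical
  have key := V Unit W (fun x => Θ (Function.update w i ((w i).1, x ()))) (by simp)
    (fun π x => by
      have : π () = () := rfl
      rfl)
    (fun u x => by
      have h1 := eig_two hΘ i (u ()) (Function.update w i ((w i).1, x ()))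
      rw [Function.update_self, Function.update_idem] at h1
      rw [h1]
      congr 2
      simp)
    (hΘ.kills.comp (by
      intro B _ _ _ s hs j
      by_cases hj : j = i
      · subst hj
        simp only [Function.update_self]
        exact ⟨curve_const _ _ _, hs ()⟩
      · simp only [Function.update_of_ne hj]
        exact ⟨curve_const _ _ _, curve_const _ _ _⟩))
    (fun hχ x j e hx => by
      have hχ' : κ i = 1 := hom_eq_one hχ
      refine hΘ.triv₂ i hχ' _ e ?_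
      rw [Function.update_self]
      exact hx)
    (fun _ => (w i).2)
  simp only [Prod.mk.eta, Function.update_eq_self] at key
  exact key

/-- two opposite characters on the elliptic curve -/
lemma zero_of_cross {p q a' b' : ℕ} (h : Tri d p q a' b')
    (hM : Model a₂ ψ d (bet k a' b') τ v) (hΘ : Eig a₁ a₂ o₁ o₂ κ Θ) {i j : Fin n} (hij : i ≠ j)
    (hi : κ i = ψ) (hj : κ j = ψ⁻¹) (w : Fin n → Place k K₁ × Place k K₂) : Θ w = 0 := by
  classical
  have key := vanish_cross h hM (W := W) (Θ := fun z => Θ (Function.update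
    (Function.update w i ((w i).1, z.2)) j ((w j).1, z.1)))
    (hΘ.kills.comp (by
      intro B _ _ _ s hs l
      by_cases hl : l = j
      · subst hl
        simp only [Function.update_self]
        exact ⟨curve_const _ _ _, hs.1⟩
      · simp only [Function.update_of_ne hl]
        by_cases hl' : l = i
        · subst hl'
          simp only [Function.update_self]
          exact ⟨curve_const _ _ _, hs.2⟩
        · simp only [Function.update_of_ne hl']
          exact ⟨curve_const _ _ _, curve_const _ _ _⟩))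
    (fun u z => by
      have h1 := eig_two hΘ j u (Function.update (Function.update w i ((w i).1, z.2)) j
        ((w j).1, z.1))
      rw [Function.update_self, Function.update_idem] at h1
      simp only
      rw [h1, hj]; rfl)
    (fun u z => by
      have h1 := eig_two hΘ i u (Function.update (Function.update w i ((w i).1, z.2)) j
        ((w j).1, z.1))
      rw [Function.update_of_ne hij, Function.update_self, Function.update_comm hij.symm,
        Function.update_idem] at h1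
      refine h1.trans ?_
      rw [hi])
    ((w j).2, (w i).2)
  simp only [Prod.mk.eta, Function.update_eq_self] at key
  exact key

end zero

/-- data for the inverse character -/
lemma Data.inv {χ : G →* kˣ} {d : ℕ} {g s : ℕ} {ρ : Type} [Fintype ρ] {y : K₁} {b : F₁}
    {r : ρ → Place k F₁} {m : ρ → ℕ} (hD : Data a₁ F₁ χ d 1 g s y b r m) :
    Data a₁ F₁ χ⁻¹ d (-1) g s y⁻¹ b⁻¹ r m where
  quot := hD.quot
  genus := hD.genus
  ne := inv_ne_zero hD.ne
  eig := by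
    intro s
    rw [map_inv₀, hD.eig, mul_inv, MonoidHom.inv_apply, Units.val_inv_eq_inv_val, map_inv₀]
  root := by rw [inv_pow, hD.root, map_inv₀]
  inj := hD.inj
  pos := hD.pos
  unram := by
    intro P hP
    rw [P.ord_inv, dvd_neg]
    exact hD.unram P hP
  ram := by
    intro j
    rw [Place.ord_inv]
    have h1 : -(r j).ord b + -1 * (m j : ℤ) = -((r j).ord b + 1 * m j) := by ring
    rw [h1, dvd_neg]
    exact hD.ram j
  sum := hD.sum

section joint

variable (a₁ a₂)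

/-- the vanishing for the constant families of characters, with the number of forms -/
lemma joint {p q a' b' : ℕ} (h : Tri d p q a' b') (hM : Model a₂ ψ d (bet k a' b') τ v) {g s : ℕ}
    {ρ : Type} [Fintype ρ] [Nonempty ρ] {y : K₁} {b : F₁} {r : ρ → Place k F₁} {m : ρ → ℕ}
    (hD : Data a₁ F₁ ψ⁻¹ d 1 g s y b r m) :
    VanJ a₁ a₂ ψ⁻¹ (g + s - 1) ∧ VanJ a₁ a₂ ψ (g + s - 1) := by
  have hs := (rank_data hD).1
  refine ⟨?_, ?_⟩
  · intro ι _ _ W _ _ Θ hι P1 P2 P3 P4 z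
    exact vanish_joint h hM (ε := 1) (Or.inl ⟨rfl, rfl⟩) hD (by omega) P1 P2 P3 P4 z
  · intro ι _ _ W _ _ Θ hι P1 P2 P3 P4 z
    have hD' := hD.inv
    rw [hom_inv_inv] at hD'
    exact vanish_joint h hM (ε := -1) (Or.inr ⟨rfl, rfl⟩) hD' (by omega) P1 P2 P3 P4 z

end joint

/-- a functional on points of the first curve only -/
lemma vanJ_of_van {χ : G →* kˣ} {c : ℕ} (hχ : χ ≠ 1) (o : Place k F₁) (V : Van a₁ χ c o) :
    VanJ a₁ a₂ χ c := by
  intro ι _ _ W _ _ Θ hι P1 P2 P3 P4 z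
  exact V ι W (fun x => Θ (x, z.2)) hι (fun π x => P1 π (x, z.2)) (fun u x => P2 u (x, z.2))
    (P4.comp (by
      intro B _ _ _ s hs
      exact ⟨hs, curve_const _ _ _⟩)) (fun h => absurd h hχ) z.1

/-- The curve with the function field `K₂` and the action of `G` through the character `ψ` is an
elliptic curve `v ^ 2 = τ (τ - 1) (τ - c)`, `v ^ 3 = τ (τ - 1)`, `v ^ 4 = τ ^ 2 (τ - 1)` or
`v ^ 6 = τ ^ 3 (τ - 1) ^ 2` with the action `v ↦ ψ(s) v`. -/
def IsEll (a₂ : G →* (K₂ ≃ₐ[k] K₂)) (F₂ : Type) [Field F₂] [Algebra k F₂] [Algebra F₂ K₂]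
    (ψ : G →* kˣ) : Prop :=
  ∃ (τ : F₂) (v : K₂),
    (∃ c : k, c ≠ 0 ∧ c ≠ 1 ∧ Model a₂ ψ 2 (X * (X - C 1) * (X - C c)) τ v) ∨
    Model a₂ ψ 3 (bet k 1 1) τ v ∨ Model a₂ ψ 4 (bet k 2 1) τ v ∨ Model a₂ ψ 6 (bet k 3 2) τ v

lemma cm_case {p q a' b' : ℕ} (h : Tri d p q a' b') (hM : Model a₂ ψ d (bet k a' b') τ v)
    (hq₁ : IsQuot a₁ F₁) (hr : ∃ (P : Place k K₁) (u : G), act a₁ u P = P ∧ ψ u ≠ 1) {n : ℕ}
    (hn : Module.rank k (Eigenforms a₁ ψ⁻¹) * Module.rank k (Eigenforms a₂ ψ) < n)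
    (κ : Fin n → (G →* kˣ)) (o₁ : Place k F₁) (o₂ : Place k F₂) (W : Type) [AddCommGroup W]
    [Module k W] [Module ℚ W] (Θ : (Fin n → Place k K₁ × Place k K₂) → W)
    (hΘ : Eig a₁ a₂ o₁ o₂ κ Θ) (w : Fin n → Place k K₁ × Place k K₂) :
    ∑ σ : Equiv.Perm (Fin n), ((Equiv.Perm.sign σ : ℤ) : ℚ) • Θ (fun i => w (σ i)) = 0 := by
  classical
  have hd : 0 < d := by
    rcases h with ⟨rfl, -⟩ | ⟨rfl, -⟩ | ⟨rfl, -⟩ <;> norm_num
  have hn0 : 0 < n := by
    have h1 : (0 : Cardinal) < n := lt_of_le_of_lt zero_le hn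
    exact_mod_cast h1
  suffices hz : (∀ w, Θ w = 0) ∨ ∑ σ : Equiv.Perm (Fin n), ((Equiv.Perm.sign σ : ℤ) : ℚ) •
      Θ (fun i => w (σ i)) = 0 by
    rcases hz with hz | hz
    · simp [hz]
    · exact hz
  by_cases hA : ∃ i, κ i ≠ ψ ∧ κ i ≠ ψ⁻¹
  · obtain ⟨i, hi1, hi2⟩ := hA
    left
    refine zero_of_van hΘ (i := i) (van_other h hM ?_ ?_ o₂)
    · intro hc; apply hi2; rw [← hc, hom_inv_inv]
    · intro hc; apply hi1; rw [← hom_inv_inv (κ i), hc, hom_inv_inv]
  push Not at hA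
  by_cases hB : ∃ i j, κ i = ψ ∧ κ j = ψ⁻¹ ∧ i ≠ j
  · obtain ⟨i, j, hi, hj, hij⟩ := hB
    left
    exact zero_of_cross h hM hΘ hij hi hj
  push Not at hB
  -- constant family
  obtain ⟨P, u, hu, hψu⟩ := hr
  have hψ1 : ψ ≠ 1 := by
    rintro rfl
    exact hψu rfl
  have hψ1' : ψ⁻¹ ≠ 1 := fun hc => hψ1 (hom_eq_one hc)
  let i₀ : Fin n := ⟨0, hn0⟩
  obtain ⟨χ, hχ, hχκ⟩ : ∃ χ : G →* kˣ, (χ = ψ ∨ χ = ψ⁻¹) ∧ ∀ i, κ i = χ := by
    by_cases h0 : κ i₀ = ψ
    · refine ⟨ψ, Or.inl rfl, fun i => ?_⟩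
      by_cases hi : κ i = ψ
      · exact hi
      · have h1 := hA i hi
        have h2 := hB i₀ i h0 h1
        rw [← h2]; exact h0
    · have h1 := hA i₀ h0
      refine ⟨ψ⁻¹, Or.inr rfl, fun i => ?_⟩
      by_cases hi : κ i = ψ
      · have h2 := hB i i₀ hi h1
        rw [h2]; exact h1
      · exact hA i hi
  rcases exists_data hq₁ (χ := ψ⁻¹) hd (by
      intro u
      have h1 := hM.eig u
      have hv : v ≠ 0 := by
        rintro rfl
        have h2 := hM.root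
        rw [zero_pow hd.ne'] at h2
        have h3 := (map_eq_zero (algebraMap F₂ K₂)).1 h2.symm
        apply hM.trans
        refine ⟨bet k a' b', ?_, h3⟩
        unfold bet
        exact mul_ne_zero (pow_ne_zero _ X_ne_zero) (pow_ne_zero _ (X_sub_C_ne_zero 1))
      have h2 : a₂ u (v ^ d) = v ^ d := by rw [hM.root, hM.quot.1]
      rw [map_pow, h1, mul_pow] at h2
      have h3 : algebraMap k K₂ (ψ u : k) ^ d = 1 := by
        apply mul_right_cancel₀ (pow_ne_zero d hv)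
        rw [h2, one_mul]
      rw [← map_pow, ← map_one (algebraMap k K₂)] at h3
      have h4 := (algebraMap k K₂).injective h3
      have h5 : ψ u ^ d = 1 := Units.ext (by simpa using h4)
      rw [MonoidHom.inv_apply, inv_pow, h5, inv_one])
    ⟨P, u, hu, by
      intro hc
      apply hψu
      rw [MonoidHom.inv_apply, inv_eq_one] at hc
      exact hc⟩ with ⟨u', hu1, hu2⟩ | ⟨g, s, ρ, _, y, b, r, m, _, hD⟩
  · left
    refine zero_of_trivial hΘ (i := i₀) hu2 ?_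
    rw [MonoidHom.inv_apply, ne_eq, inv_eq_one] at hu1
    rcases hχ with rfl | rfl
    · rw [hχκ]; exact hu1
    · rw [hχκ, MonoidHom.inv_apply, ne_eq, inv_eq_one]; exact hu1
  · right
    have hJ := joint a₁ a₂ h hM hD
    have hR := rank_data hD
    have hE := rank_ell h hM
    have hc : g + s - 1 < n := by
      have h1 : ((g + s - 1 : ℕ) : Cardinal) * 1 ≤ _ := mul_le_mul' hR.2 hE
      have h2 := h1.trans_lt hn
      rw [mul_one] at h2
      exact_mod_cast h2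
    have hV := van_ell h hM o₂
    rcases hχ with rfl | rfl
    · exact block_joint hΘ hψ1 hχκ hJ.2 hV.2 hc w
    · exact block_joint hΘ hψ1' hχκ hJ.1 (by rw [hom_inv_inv]; exact hV.1) hc w

lemma two_case {c : k} (h0 : c ≠ 0) (h1 : c ≠ 1)
    (hM : Model a₂ ψ 2 (X * (X - C 1) * (X - C c)) τ v)
    (hq₁ : IsQuot a₁ F₁) (hr : ∃ (P : Place k K₁) (u : G), act a₁ u P = P ∧ ψ u ≠ 1) {n : ℕ}
    (hn : Module.rank k (Eigenforms a₁ ψ⁻¹) * Module.rank k (Eigenforms a₂ ψ) < n)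
    (κ : Fin n → (G →* kˣ)) (o₁ : Place k F₁) (o₂ : Place k F₂) (W : Type) [AddCommGroup W]
    [Module k W] [Module ℚ W] (Θ : (Fin n → Place k K₁ × Place k K₂) → W)
    (hΘ : Eig a₁ a₂ o₁ o₂ κ Θ) (w : Fin n → Place k K₁ × Place k K₂) :
    ∑ σ : Equiv.Perm (Fin n), ((Equiv.Perm.sign σ : ℤ) : ℚ) • Θ (fun i => w (σ i)) = 0 := by
  classical
  have hn0 : 0 < n := by
    have h1 : (0 : Cardinal) < n := lt_of_le_of_lt zero_le hn
    exact_mod_cast h1
  suffices hz : (∀ w, Θ w = 0) ∨ ∑ σ : Equiv.Perm (Fin n), ((Equiv.Perm.sign σ : ℤ) : ℚ) •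
      Θ (fun i => w (σ i)) = 0 by
    rcases hz with hz | hz
    · simp [hz]
    · exact hz
  -- `ψ ^ 2 = 1`
  have hψ2 : ∀ u, ψ u ^ 2 = 1 := by
    intro u
    have h1 := hM.eig u
    have hv : v ≠ 0 := by
      rintro rfl
      have h2 := hM.root
      rw [zero_pow (by norm_num)] at h2
      have h3 := (map_eq_zero (algebraMap F₂ K₂)).1 h2.symm
      apply hM.trans
      refine ⟨_, ?_, h3⟩
      exact mul_ne_zero (mul_ne_zero X_ne_zero (X_sub_C_ne_zero 1)) (X_sub_C_ne_zero c)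
    have h2 : a₂ u (v ^ 2) = v ^ 2 := by rw [hM.root, hM.quot.1]
    rw [map_pow, h1, mul_pow] at h2
    have h3 : algebraMap k K₂ (ψ u : k) ^ 2 = 1 := by
      apply mul_right_cancel₀ (pow_ne_zero 2 hv)
      rw [h2, one_mul]
    rw [← map_pow, ← map_one (algebraMap k K₂)] at h3
    have h4 := (algebraMap k K₂).injective h3
    exact Units.ext (by simpa using h4)
  have hψi : ψ⁻¹ = ψ := by
    ext1 u
    rw [MonoidHom.inv_apply, inv_eq_iff_mul_eq_one, ← sq]; exact hψ2 u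
  by_cases hA : ∃ i, κ i ≠ ψ
  · obtain ⟨i, hi1⟩ := hA
    left
    refine zero_of_van hΘ (i := i) (van_other_two h0 h1 hM ?_ o₂)
    intro hc; apply hi1; rw [← hom_inv_inv (κ i), hc, hψi]
  push Not at hA
  obtain ⟨P, u, hu, hψu⟩ := hr
  have hψ1 : ψ ≠ 1 := by
    rintro rfl
    exact hψu rfl
  let i₀ : Fin n := ⟨0, hn0⟩
  rcases exists_data hq₁ (χ := ψ) (d := 2) (by norm_num) hψ2 ⟨P, u, hu, hψu⟩ with
    ⟨u', hu1, hu2⟩ | ⟨g, s, ρ, _, y, b, r, m, _, hD⟩
  · left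
    refine zero_of_trivial hΘ (i := i₀) hu2 ?_
    rw [hA]; exact hu1
  · right
    have hR := rank_data hD
    have hE := rank_ell_two h0 h1 hM
    rw [hψi] at hn
    have hc : g + s - 1 < n := by
      have h1 : ((g + s - 1 : ℕ) : Cardinal) * 1 ≤ _ := mul_le_mul' hR.2 hE
      have h2 := h1.trans_lt hn
      rw [mul_one] at h2
      exact_mod_cast h2
    have hV := van_ell_two h0 h1 hM o₂
    exact block_joint hΘ hψ1 hA (vanJ_of_van hψ1 o₁ (van_two hD o₁)) (by rw [hψi]; exact hV) hc w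

/-- **Vanishing of the alternating sums.** -/
theorem all_cases (hE : IsEll a₂ F₂ ψ) (hq₁ : IsQuot a₁ F₁)
    (hr : ∃ (P : Place k K₁) (u : G), act a₁ u P = P ∧ ψ u ≠ 1) {n : ℕ}
    (hn : Module.rank k (Eigenforms a₁ ψ⁻¹) * Module.rank k (Eigenforms a₂ ψ) < n)
    (κ : Fin n → (G →* kˣ)) (o₁ : Place k F₁) (o₂ : Place k F₂) (W : Type) [AddCommGroup W]
    [Module k W] [Module ℚ W] (Θ : (Fin n → Place k K₁ × Place k K₂) → W)
    (hΘ : Eig a₁ a₂ o₁ o₂ κ Θ) (w : Fin n → Place k K₁ × Place k K₂) :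
    ∑ σ : Equiv.Perm (Fin n), ((Equiv.Perm.sign σ : ℤ) : ℚ) • Θ (fun i => w (σ i)) = 0 := by
  obtain ⟨τ, v, ⟨c, h0, h1, hM⟩ | hM | hM | hM⟩ := hE
  · exact two_case h0 h1 hM hq₁ hr hn κ o₁ o₂ W Θ hΘ w
  · exact cm_case (d := 3) (p := 3) (q := 3) (Or.inl ⟨rfl, rfl, rfl, rfl, rfl⟩) hM hq₁ hr hn κ o₁ o₂ W
      Θ hΘ w
  · exact cm_case (d := 4) (p := 2) (q := 4) (Or.inr (Or.inl ⟨rfl, rfl, rfl, rfl, rfl⟩)) hM hq₁ hr hn
      κ o₁ o₂ W Θ hΘ w
  · exact cm_case (d := 6) (p := 2) (q := 3) (Or.inr (Or.inr ⟨rfl, rfl, rfl, rfl, rfl⟩)) hM hq₁ hr hn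
      κ o₁ o₂ W Θ hΘ w

end Pool.Agent.H12.VZ
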