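import Pool.Agent.H12.VZ.Defs

/-!
# One character: the antisymmetrization
-/

set_option autoImplicit false
set_option linter.overlappingInstances false
set_option linter.unusedSectionVars false

namespace Pool.Agent.H12.VZ

open FF IntermediateField Module Pool.Agent.W603.LV Pool.Agent.W619.PQ
  Pool.Agent.Q70.CH Pool.Agent.H25.VO Equiv

variable {k : Type} [Field k] [CharZero k] [IsAlgClosed k] {F₁ F₂ K₁ K₂ : Type} [Field F₁]
  [Algebra k F₁] [IsFF k F₁] [Field F₂] [Algebra k F₂] [IsFF k F₂] [Field K₁] [Algebra k K₁]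
  [IsFF k K₁] [Field K₂] [Algebra k K₂] [IsFF k K₂] [Algebra F₁ K₁] [IsScalarTower k F₁ K₁]
  [Algebra F₂ K₂] [IsScalarTower k F₂ K₂] {G : Type} [CommGroup G] [Fintype G]
  {a₁ : G →* (K₁ ≃ₐ[k] K₁)} {a₂ : G →* (K₂ ≃ₐ[k] K₂)}

lemma prod_single {n : ℕ} (κ : Fin n → (G →* kˣ)) (i : Fin n) (u : G) :
    ∏ j, κ j ((Pi.mulSingle i u : Fin n → G) j) = κ i u := by
  rw [Finset.prod_eq_single i]
  · rw [Pi.mulSingle_eq_same]
  · intro j _ hj; rw [Pi.mulSingle_eq_of_ne hj, map_one]
  · intro h; exact absurd (Finset.mem_univ i) h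

/-- action on the second component of one coordinate -/
lemma eig_two {n : ℕ} {W : Type} [AddCommGroup W] [Module k W] {o₁ : Place k F₁}
    {o₂ : Place k F₂} {κ : Fin n → (G →* kˣ)} {Θ : (Fin n → Place k K₁ × Place k K₂) → W}
    (hΘ : Eig a₁ a₂ o₁ o₂ κ Θ) (i : Fin n) (u : G) (w : Fin n → Place k K₁ × Place k K₂) :
    Θ (Function.update w i ((w i).1, act a₂ u (w i).2)) = ((κ i u : kˣ) : k) • Θ w := by
  have h1 := hΘ.eig₂ (Pi.mulSingle i u) w
  rw [prod_single] at h1
  rw [← h1]
  congr 1
  ext1 j
  simp only [tw]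
  by_cases hj : j = i
  · subst hj
    rw [Function.update_self, Pi.mulSingle_eq_same, Pi.one_apply, act_one]
  · rw [Function.update_of_ne hj, Pi.mulSingle_eq_of_ne hj, Pi.one_apply, act_one, act_one]

open Classical in
/-- insertion of the points of the first curve in the coordinates of `P₀`, and of one point of the
second curve in the coordinate `p₀` -/
noncomputable def insJ {n : ℕ} (P₀ : Finset (Fin n)) (p₀ : Fin n)
    (w : Fin n → Place k K₁ × Place k K₂) (x : P₀ → Place k K₁) (e : Place k K₂) :
    Fin n → Place k K₁ × Place k K₂ :=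
  fun i => (if h : i ∈ P₀ then x ⟨i, h⟩ else (w i).1, if i = p₀ then e else (w i).2)

theorem block_joint {n : ℕ} {W : Type} [AddCommGroup W] [Module k W] [Module ℚ W]
    {o₁ : Place k F₁} {o₂ : Place k F₂} {κ : Fin n → (G →* kˣ)}
    {Θ : (Fin n → Place k K₁ × Place k K₂) → W} (hΘ : Eig a₁ a₂ o₁ o₂ κ Θ) {χ : G →* kˣ} (hχ : χ ≠ 1)
    (hκ : ∀ i, κ i = χ) {c : ℕ} (V1 : VanJ a₁ a₂ χ c) (V2 : Van a₂ χ⁻¹ 1 o₂) (hn : c < n)
    (w : Fin n → Place k K₁ × Place k K₂) :
    ∑ σ : Equiv.Perm (Fin n), ((Equiv.Perm.sign σ : ℤ) : ℚ) • Θ (fun i => w (σ i)) = 0 := by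
  classical
  have key := two_var_fin (ι := Fin n) c 1 (by rw [Fintype.card_fin]; omega)
    (fun σ τ => Θ (fun i => ((w (σ i)).1, (w (τ i)).2)))
    (by
      intro σ τ P₀ hP₀
      obtain ⟨p₀, hp₀⟩ : P₀.Nonempty := by
        rw [← Finset.card_pos, hP₀]; omega
      let w' : Fin n → Place k K₁ × Place k K₂ := fun i => ((w (σ i)).1, (w (τ i)).2)
      let Ψ : (P₀ → Place k K₁) × Place k K₂ → W := fun z =>
        ∑ ρ : Perm P₀, Θ (insJ P₀ p₀ w' (fun i => z.1 (ρ i)) z.2)
      have h1 := V1 P₀ W Ψ (by rw [Fintype.card_coe, hP₀]; omega) ?_ ?_ ?_ ?_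
        (fun p => (w (σ p)).1, (w (τ p₀)).2)
      · rw [← h1]
        apply Finset.sum_congr rfl
        intro ρ _
        congr 1
        ext1 i
        simp only [insJ, w']
        congr 1
        · by_cases hi : i ∈ P₀
          · rw [dif_pos hi, Perm.mul_apply, Perm.ofSubtype_apply_of_mem _ hi]
          · rw [dif_neg hi, Perm.mul_apply, Perm.ofSubtype_apply_of_not_mem _ hi]
        · by_cases hi : i = p₀
          · rw [if_pos hi, hi]
          · rw [if_neg hi]
      · intro π z
        exact Fintype.sum_equiv (Equiv.mulLeft π) _ _ fun ρ => rfl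
      · intro u z
        simp only [Ψ]
        rw [Finset.smul_sum]
        apply Finset.sum_congr rfl
        intro ρ _
        let u' : Fin n → G := fun i => if h : i ∈ P₀ then u (ρ ⟨i, h⟩) else 1
        have h3 : insJ P₀ p₀ w' (fun i => act a₁ (u (ρ i)) (z.1 (ρ i))) z.2 =
            tw a₁ a₂ u' 1 (insJ P₀ p₀ w' (fun i => z.1 (ρ i)) z.2) := by
          ext1 i
          simp only [insJ, tw]
          congr 1
          · by_cases hi : i ∈ P₀
            · simp only [u', dif_pos hi]
            · simp only [u', dif_neg hi, act_one]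
          · rw [Pi.one_apply, act_one]
        rw [h3, hΘ.eig₁]
        congr 3
        rw [← Equiv.prod_comp ρ u, map_prod]
        symm
        apply Fintype.prod_of_injective (fun p : P₀ => p.1) Subtype.val_injective
        · intro i hi
          have : ¬ i ∈ P₀ := fun h => hi ⟨⟨i, h⟩, rfl⟩
          simp only [u', dif_neg this, map_one]
        · intro p
          simp only [u', dif_pos p.2, hκ]
      · intro u z
        simp only [Ψ]
        rw [Finset.smul_sum]
        apply Finset.sum_congr rfl
        intro ρ _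
        have h3 := eig_two hΘ p₀ u (insJ P₀ p₀ w' (fun i => z.1 (ρ i)) z.2)
        rw [hκ] at h3
        rw [← h3]
        congr 1
        ext1 i
        by_cases hi : i = p₀
        · subst hi
          rw [Function.update_self]
          simp [insJ]
        · rw [Function.update_of_ne hi]
          simp [insJ, hi]
      · apply KillsF.sum
        intro ρ _
        refine hΘ.kills.comp ?_
        intro B _ _ _ s hs i
        simp only [insJ]
        refine ⟨?_, ?_⟩
        · by_cases hi : i ∈ P₀
          · simp only [dif_pos hi]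
            exact hs.1 (ρ ⟨i, hi⟩)
          · simp only [dif_neg hi]
            exact curve_const _ _ _
        · by_cases hi : i = p₀
          · simp only [if_pos hi]
            exact hs.2
          · simp only [if_neg hi]
            exact curve_const _ _ _)
    (by
      intro σ τ P₀ hP₀
      let ins : (P₀ → Place k K₂) → (Fin n → Place k K₁ × Place k K₂) := fun ζ i =>
        ((w (σ i)).1, if h : i ∈ P₀ then ζ ⟨i, h⟩ else (w (τ i)).2)
      have h1 := one_var V2 hΘ.kills (ι := P₀) (by rw [Fintype.card_coe, hP₀]; omega) ins ?_ ?_ ?_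
        (fun p => (w (τ p)).2)
      · rw [← h1]
        apply Finset.sum_congr rfl
        intro ρ _
        congr 1
        ext1 i
        simp only [ins]
        congr 1
        by_cases hi : i ∈ P₀
        · rw [dif_pos hi, Perm.mul_apply, Perm.ofSubtype_apply_of_mem _ hi]
        · rw [dif_neg hi, Perm.mul_apply, Perm.ofSubtype_apply_of_not_mem _ hi]
      · intro B _ _ _ s hs i
        simp only [ins]
        refine ⟨curve_const _ _ _, ?_⟩
        by_cases hi : i ∈ P₀
        · simp only [dif_pos hi]
          exact hs ⟨i, hi⟩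
        · simp only [dif_neg hi]
          exact curve_const _ _ _
      · intro u x
        let u' : Fin n → G := fun i => if h : i ∈ P₀ then u ⟨i, h⟩ else 1
        have h3 : ins (fun i => act a₂ (u i) (x i)) = tw a₁ a₂ 1 u' (ins x) := by
          ext1 i
          simp only [ins, tw, Pi.one_apply, act_one]
          congr 1
          by_cases hi : i ∈ P₀
          · simp only [u', dif_pos hi]
          · simp only [u', dif_neg hi, act_one]
        rw [h3, hΘ.eig₂]
        congr 2
        rw [MonoidHom.inv_apply, inv_inv, map_prod]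
        symm
        apply Fintype.prod_of_injective (fun p : P₀ => p.1) Subtype.val_injective
        · intro i hi
          have : ¬ i ∈ P₀ := fun h => hi ⟨⟨i, h⟩, rfl⟩
          simp only [u', dif_neg this, map_one]
        · intro p
          simp only [u', dif_pos p.2, hκ]
      · intro hc
        exfalso
        apply hχ
        ext1 g
        have h5 := DFunLike.congr_fun hc g
        rw [MonoidHom.inv_apply, MonoidHom.one_apply, inv_eq_one] at h5
        rw [h5, MonoidHom.one_apply])
  rw [← key]

end Pool.Agent.H12.VZ
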