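import Pool.Agent.H12.VZ.Ell2

/-!
# Points of the curve `v ^ d = β(τ)` over an extension of a given field
-/

set_option autoImplicit false
set_option linter.overlappingInstances false
set_option linter.unusedSectionVars false

namespace Pool.Agent.H12.VZ

open FF IntermediateField Module Polynomial Pool.Agent.W603.LV Pool.Agent.W619.PQ
  Pool.Agent.Q70.CH Pool.Agent.H25.VO

section

variable {k : Type} [Field k]

/-- the homomorphisms of a rational function field -/
lemma exists_hom {F L : Type} [Field F] [Algebra k F] [Field L] [Algebra k L] {τ : F}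
    (hτ : Transcendental k τ) (h : k⟮τ⟯ = ⊤) {σ : L} (hσ : Transcendental k σ) :
    ∃ j : F →ₐ[k] L, j τ = σ := by
  let e1 := RatFunc.algEquivOfTranscendental τ hτ
  let e2 := RatFunc.algEquivOfTranscendental σ hσ
  let e0 : F ≃ₐ[k] k⟮τ⟯ :=
    (IntermediateField.topEquiv.symm).trans (IntermediateField.equivOfEq h.symm)
  refine ⟨(k⟮σ⟯.val).comp ((e0.trans (e1.symm.trans e2)).toAlgHom), ?_⟩
  have h1 : e0 τ = AdjoinSimple.gen k τ := Subtype.ext rfl
  change ((e2 (e1.symm (e0 τ)) : k⟮σ⟯) : L) = σ
  rw [h1, RatFunc.algEquivOfTranscendental_symm_gen, RatFunc.algEquivOfTranscendental_X]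

lemma vl_aeval_c {K : Type} [Field K] [Algebra k K] {P : Place k K} {f : K} {c : k} (h : Vl P f c)
    (p : k[X]) : Vl P (aeval f p) (p.eval c) := by
  induction p using Polynomial.induction_on' with
  | add p q hp hq => rw [map_add, eval_add]; exact hp.add hq
  | monomial n b => rw [aeval_monomial, eval_monomial]; exact (h.pow n).smul b

lemma vl_of_below {K L : Type} [Field K] [Algebra k K] [IsFF k K] [Field L] [Algebra k L]
    [IsFF k L] {φ : K →ₐ[k] L} {Q : Place k L} {f : K} {c : k} (h : Vl Q (φ f) c) :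
    Vl (below φ Q) f c := by
  obtain ⟨e, he, hs⟩ := below_spec φ Q
  have h1 : φ f - algebraMap k L c = φ (f - algebraMap k K c) := by rw [map_sub, φ.commutes]
  unfold Vl at h
  rw [h1] at h
  rcases h with h | h
  · left; exact φ.injective (h.trans (map_zero φ).symm)
  · right
    rw [hs] at h
    by_contra hc
    push Not at hc
    have h2 : (e : ℤ) * (below φ Q).ord (f - algebraMap k K c) ≤ 0 :=
      mul_nonpos_of_nonneg_of_nonpos (by positivity) (by omega)
    omega

variable [CharZero k] [IsAlgClosed k]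

/-- a place of `k(τ)` is determined by the value of `τ` -/
lemma same_place {F : Type} [Field F] [Algebra k F] [IsFF k F] {τ : F}
    (hτ : Transcendental k τ) (h : k⟮τ⟯ = ⊤) {c : k} {p p' : Place k F} (hp : Vl p τ c)
    (hp' : Vl p' τ c) : p = p' := by
  obtain ⟨P, -, hP⟩ := one_zero (trans_sub hτ c) (adjoin_sub τ c h)
  have key : ∀ q : Place k F, Vl q τ c → q = P := by
    intro q hq
    by_contra hne
    have h1 := hP q hne
    have h2 := hq.resolve_left (sub_ne hτ c)
    omega
  rw [key p hp, key p' hp']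

end

section

variable {k : Type} [Field k] [CharZero k] [IsAlgClosed k] {F K : Type} [Field F] [Algebra k F]
  [IsFF k F] [Field K] [Algebra k K] [IsFF k K] [Algebra F K] [IsScalarTower k F K] {G : Type}
  [CommGroup G] [Fintype G] {a : G →* (K ≃ₐ[k] K)} {ψ : G →* kˣ} {d : ℕ} {β : k[X]} {τ : F} {v : K}

/-- the extension of the function field -/
lemma exists_cover (hM : Model a ψ d β τ v) {L : Type} [Field L] [Algebra k L]
    [IsFF k L] (j : F →ₐ[k] L) :
    ∃ (L' : Type) (_ : Field L') (_ : Algebra k L') (_ : IsFF k L') (φ : L →ₐ[k] L')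
      (θ : K →ₐ[k] L'), ∀ f : F, θ (algebraMap F K f) = φ (j f) := by
  have hFK : FiniteDimensional F K := finite_ext (k := k) F K
  let Ω := AlgebraicClosure L
  let _ : Algebra F L := j.toRingHom.toAlgebra
  have hF : ∀ f : F, algebraMap F Ω f = algebraMap L Ω (j f) := fun f =>
    IsScalarTower.algebraMap_apply F L Ω f
  let ι₀ : K →ₐ[F] Ω := IsAlgClosed.lift
  have hι : ∀ f : F, ι₀ (algebraMap F K f) = algebraMap L Ω (j f) := fun f =>
    (ι₀.commutes f).trans (hF f)
  have hV₀ : IsIntegral L (ι₀ v) := by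
    have h1 : IsIntegral F v := Algebra.IsIntegral.isIntegral v
    exact (h1.map ι₀).tower_top
  have hfin : FiniteDimensional L L⟮ι₀ v⟯ := IntermediateField.adjoin.finiteDimensional hV₀
  have hff : IsFF k L⟮ι₀ v⟯ := isFF_ext (k := k) L L⟮ι₀ v⟯
  have hmem : ∀ x : K, ι₀ x ∈ L⟮ι₀ v⟯ := by
    intro x
    have hx : x ∈ IntermediateField.adjoin F {v} := by rw [hM.top]; trivial
    induction hx using IntermediateField.adjoin_induction with
    | mem x hx =>
      rw [Set.mem_singleton_iff] at hx
      rw [hx]; exact IntermediateField.mem_adjoin_simple_self L _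
    | algebraMap x => rw [hι]; exact IntermediateField.algebraMap_mem _ _
    | add x y _ _ hx hy => rw [map_add]; exact add_mem hx hy
    | inv x _ hx => rw [map_inv₀]; exact inv_mem hx
    | mul x y _ _ hx hy => rw [map_mul]; exact mul_mem hx hy
  let θ : K →ₐ[k] L⟮ι₀ v⟯ :=
    { toFun := fun x => ⟨ι₀ x, hmem x⟩
      map_one' := Subtype.ext (map_one ι₀)
      map_mul' := fun x y => Subtype.ext (map_mul ι₀ x y)
      map_zero' := Subtype.ext (map_zero ι₀)
      map_add' := fun x y => Subtype.ext (map_add ι₀ x y)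
      commutes' := fun c => Subtype.ext (by
        change ι₀ (algebraMap k K c) = algebraMap k Ω c
        rw [IsScalarTower.algebraMap_apply k F K, hι, j.commutes,
          ← IsScalarTower.algebraMap_apply k L Ω]) }
  refine ⟨L⟮ι₀ v⟯, inferInstance, inferInstance, hff, IsScalarTower.toAlgHom k L L⟮ι₀ v⟯, θ, ?_⟩
  intro f
  exact Subtype.ext (hι f)

theorem exists_points (hM : Model a ψ d β τ v) {L : Type} [Field L] [Algebra k L] [IsFF k L] (σ : L)
    {τ₀ : k} {e₀ : Place k K} (he₀ : Vl e₀ (algebraMap F K τ) τ₀) {v₀ : k} (hv₀ : Vl e₀ v v₀)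
    (hσ : ∃ Q : Place k L, Vl Q σ τ₀) :
    ∃ (L' : Type) (_ : Field L') (_ : Algebra k L') (_ : IsFF k L') (φ : L →ₐ[k] L') (V : L')
      (e : Place k L' → Place k K), e ∈ (curve (k := k) K).mor L' ∧ V ^ d = φ (aeval σ β) ∧
      (∀ Q, Vl (below φ Q) σ τ₀ → ∃ u : G, e Q = act a u e₀ ∧ Vl Q V ((ψ u : kˣ) * v₀)) ∧
      (∀ Q t, Transcendental k σ → Vl (below φ Q) σ t → Vl (e Q) (algebraMap F K τ) t) := by
  classical
  obtain ⟨Q₀, hQ₀⟩ := hσ
  by_cases hσt : Transcendental k σ
  · obtain ⟨j, hj⟩ := exists_hom hM.trans hM.gen hσt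
    obtain ⟨L', _, _, hff, φ, θ, hθ⟩ := exists_cover hM j
    have h4 : ∀ Q t, Vl (below φ Q) σ t → Vl (below θ Q) (algebraMap F K τ) t := by
      intro Q t hQ
      apply vl_of_below
      rw [hθ, hj]
      exact vl_below hQ
    refine ⟨L', _, _, hff, φ, θ v, fun Q => below θ Q, Or.inr ⟨θ, fun Q => below_spec θ Q⟩, ?_, ?_,
      fun Q t _ hQ => h4 Q t hQ⟩
    · rw [← map_pow, hM.root, hθ, ← hj, Polynomial.aeval_algHom_apply]
    · intro Q hQ
      obtain ⟨p, e, he, hp⟩ := exists_below (IsScalarTower.toAlgHom k F K) (below θ Q)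
      obtain ⟨p', e', he', hp'⟩ := exists_below (IsScalarTower.toAlgHom k F K) e₀
      have hpv : ∀ {P : Place k K} {q : Place k F} {r : ℕ}, 0 < r →
          (∀ f, P.ord (IsScalarTower.toAlgHom k F K f) = r * q.ord f) →
          Vl P (algebraMap F K τ) τ₀ → Vl q τ τ₀ := by
        intro P q r hr hq hP
        unfold Vl at hP
        right
        have h5 : algebraMap F K τ - algebraMap k K τ₀ =
            IsScalarTower.toAlgHom k F K (τ - algebraMap k F τ₀) := by
          rw [map_sub, AlgHom.commutes]; rfl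
        rw [h5] at hP
        have h6 := hP.resolve_left (by
          rw [map_eq_zero]
          exact sub_ne hM.trans τ₀)
        rw [hq] at h6
        by_contra hc
        push Not at hc
        have h2 : (r : ℤ) * q.ord (τ - algebraMap k F τ₀) ≤ 0 :=
          mul_nonpos_of_nonneg_of_nonpos (by positivity) (by omega)
        omega
      have hpp : p = p' := same_place hM.trans hM.gen (hpv he hp (h4 Q τ₀ hQ)) (hpv he' hp' he₀)
      obtain ⟨u, hu⟩ := exists_act hM.quot (P := e₀) (P' := below θ Q) (p := p)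
        ⟨he', fun f => by rw [hpp]; exact hp' f⟩ ⟨he, fun f => hp f⟩
      refine ⟨u, hu, ?_⟩
      apply vl_below
      rw [hu, vl_act, hM.eig]
      exact hv₀.smul _
  · obtain ⟨c, hc⟩ := alg_const (not_not.1 hσt)
    have hc' : c = τ₀ := (by rw [← hc] at hQ₀; exact (Vl.const Q₀ c).unique hQ₀)
    subst hc'
    refine ⟨L, _, _, inferInstance, AlgHom.id k L, algebraMap k L v₀, fun _ => e₀,
      Or.inl ⟨e₀, fun _ => rfl⟩, ?_, ?_, ?_⟩
    · have h1 : Vl e₀ (v ^ d) (v₀ ^ d) := hv₀.pow d
      have h2 : Vl e₀ (v ^ d) (β.eval c) := by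
        rw [hM.root]
        have h3 : algebraMap F K (aeval τ β) = aeval (algebraMap F K τ) β := by
          rw [Polynomial.aeval_algebraMap_apply]
        rw [h3]
        exact vl_aeval_c he₀ β
      have h3 := h1.unique h2
      rw [← map_pow, h3, ← hc, AlgHom.id_apply, Polynomial.aeval_algebraMap_apply_eq_algebraMap_eval]
    · intro Q _
      refine ⟨1, (act_one a e₀).symm, ?_⟩
      have := Vl.const Q v₀
      simpa using this
    · intro Q t ht
      exact absurd ht hσt

end

end Pool.Agent.H12.VZ
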