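import Pool.Agent.H25.VO.V12
import Pool.Agent.H25.VO.V16

/-!
# Elliptic curves with an automorphism of order `d = 3, 4, 6`: data
-/

set_option autoImplicit false
set_option linter.overlappingInstances false
set_option linter.unusedSectionVars false

namespace Pool.Agent.H12.VZ

open FF IntermediateField Module Polynomial Pool.Agent.W603.LV Pool.Agent.W619.PQ
  Pool.Agent.Q70.CH Pool.Agent.H25.VO

/-- The curve with the function field `K` is `v ^ d = β(τ)`, the group `G` acts on it by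
`v ↦ ψ(s) v`, and the field `F` of invariants is `k(τ)`. -/
structure Model {k K F G : Type} [Field k] [Field K] [Algebra k K] [Field F] [Algebra k F]
    [Algebra F K] [CommGroup G] (a : G →* (K ≃ₐ[k] K)) (ψ : G →* kˣ) (d : ℕ) (β : k[X]) (τ : F)
    (v : K) : Prop where
  quot : IsQuot a F
  trans : Transcendental k τ
  gen : k⟮τ⟯ = ⊤
  root : v ^ d = algebraMap F K (aeval τ β)
  eig : ∀ s, a s v = algebraMap k K (ψ s : k) * v
  top : IntermediateField.adjoin F {v} = ⊤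

/-- the exponents: `1 / p + 1 / q + 1 / d = 1`, `a = d / p`, `b = d / q` -/
def Tri (d p q a b : ℕ) : Prop :=
  (d = 3 ∧ p = 3 ∧ q = 3 ∧ a = 1 ∧ b = 1) ∨ (d = 4 ∧ p = 2 ∧ q = 4 ∧ a = 2 ∧ b = 1) ∨
    (d = 6 ∧ p = 2 ∧ q = 3 ∧ a = 3 ∧ b = 2)

/-- the polynomial `τ ^ a (τ - 1) ^ b` -/
noncomputable def bet (k : Type) [Field k] (a b : ℕ) : k[X] := X ^ a * (X - C 1) ^ b

/-- `(T - w) (T - l j₀) ^ (m j₀ - 1) ∏_{j ≠ j₀} (T - l j) ^ (m j)` -/
noncomputable def Fp {k ρ : Type} [Field k] [Fintype ρ] [DecidableEq ρ] (w : k) (l : ρ → k)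
    (m : ρ → ℕ) (j₀ : ρ) : k[X] :=
  (X - C w) * (X - C (l j₀)) ^ (m j₀ - 1) * ∏ j ∈ Finset.univ.erase j₀, (X - C (l j)) ^ m j

section

variable {k : Type} [Field k] [CharZero k] {K₁ K₂ : Type} [Field K₁] [Algebra k K₁] [Field K₂] [Algebra k K₂]
  {G : Type} [CommGroup G]

/-- branching data of a character `χ` on the curve `X`: `y ^ d = b`, `ε m j = - ord b mod d`; the
genus of `X / G` is `g` and `∑ m j = d s` -/
structure Data (a₁ : G →* (K₁ ≃ₐ[k] K₁)) (F₁ : Type) [Field F₁] [Algebra k F₁] [Algebra F₁ K₁]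
    (χ : G →* kˣ) (d : ℕ) (ε : ℤ) (g s : ℕ) {ρ : Type} [Fintype ρ] (y : K₁) (b : F₁)
    (r : ρ → Place k F₁) (m : ρ → ℕ) : Prop where
  quot : IsQuot a₁ F₁
  genus : IsGenus k F₁ g
  ne : y ≠ 0
  eig : ∀ s, a₁ s y = algebraMap k K₁ (χ s : k) * y
  root : y ^ d = algebraMap F₁ K₁ b
  inj : Function.Injective r
  pos : ∀ j, 0 < m j ∧ m j < d
  unram : ∀ P, P ∉ Set.range r → (d : ℤ) ∣ P.ord b
  ram : ∀ j, (d : ℤ) ∣ (r j).ord b + ε * m j
  sum : ∑ j, m j = d * s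

/-- every functional on `c + 1` points of `X` (symmetric) and one point of `Y` with the character
`χ` vanishes -/
def VanJ (a₁ : G →* (K₁ ≃ₐ[k] K₁)) (a₂ : G →* (K₂ ≃ₐ[k] K₂)) (χ : G →* kˣ) (c : ℕ) : Prop :=
  ∀ (ι : Type) [Fintype ι] [DecidableEq ι] (W : Type) [AddCommGroup W] [Module k W]
    (Θ : (ι → Place k K₁) × Place k K₂ → W), c < Fintype.card ι →
    (∀ (π : Equiv.Perm ι) z, Θ (fun i => z.1 (π i), z.2) = Θ z) →
    (∀ (u : ι → G) z, Θ (fun i => act a₁ (u i) (z.1 i), z.2) =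
      (((χ (∏ i, u i))⁻¹ : kˣ) : k) • Θ z) →
    (∀ (u : G) z, Θ (z.1, act a₂ u z.2) = ((χ u : kˣ) : k) • Θ z) →
    KillsF (((curve (k := k) K₁).pow ι).prod (curve (k := k) K₂)) Θ → ∀ z, Θ z = 0

end

end Pool.Agent.H12.VZ
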