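import Pool.Agent.H12.VZ.Defs
import Pool.Agent.H12.VZ.Ell

/-!
# The curve `v ^ d = τ ^ a (τ - 1) ^ b`: the vanishing theorem for one character
-/

set_option autoImplicit false
set_option linter.overlappingInstances false
set_option linter.unusedSectionVars false

namespace Pool.Agent.H12.VZ

open FF IntermediateField Module Polynomial Pool.Agent.W603.LV Pool.Agent.W619.PQ
  Pool.Agent.Q70.CH Pool.Agent.H25.VO

section places

variable {k : Type} [Field k] [CharZero k] [IsAlgClosed k] {F : Type} [Field F] [Algebra k F]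
  [IsFF k F]

/-- a generator of the field `k(τ)` has exactly one zero, and it is simple -/
lemma one_zero {f : F} (hf : Transcendental k f) (h : k⟮f⟯ = ⊤) :
    ∃ P : Place k F, P.ord f = 1 ∧ ∀ Q, Q ≠ P → Q.ord f ≤ 0 := by
  classical
  obtain ⟨S, hS, -, h3⟩ := zeros hf
  have h1 : finrank k⟮f⟯ F = 1 := by rw [h]; exact IntermediateField.finrank_top
  rw [h1] at h3
  have h4 : ∀ w ∈ S, 1 ≤ (w.ord f).toNat * w.deg := by
    intro w hw
    rw [deg_one, mul_one]
    have := (hS w).1 hw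
    omega
  have h5 : S.card ≤ 1 := by
    have := Finset.card_nsmul_le_sum S _ 1 h4
    rw [h3] at this
    simpa using this
  have h6 : S.Nonempty := by
    rw [Finset.nonempty_iff_ne_empty]
    rintro rfl
    simp at h3
  obtain ⟨P, hP⟩ := h6
  have h7 : S = {P} := by
    apply (Finset.eq_of_subset_of_card_le (Finset.singleton_subset_iff.2 hP) _).symm
    simpa using h5
  refine ⟨P, ?_, ?_⟩
  · rw [h7, Finset.sum_singleton, deg_one, mul_one] at h3
    omega
  · intro Q hQ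
    by_contra hc
    push Not at hc
    have := (hS Q).2 hc
    rw [h7, Finset.mem_singleton] at this
    exact hQ this

lemma trans_sub {τ : F} (hτ : Transcendental k τ) (c : k) :
    Transcendental k (τ - algebraMap k F c) := by
  intro hc
  apply hτ
  have := hc.add (isAlgebraic_algebraMap (R := k) (A := F) c)
  simpa using this

lemma adjoin_sub (τ : F) (c : k) (h : k⟮τ⟯ = ⊤) : k⟮τ - algebraMap k F c⟯ = ⊤ := by
  rw [eq_top_iff, ← h, IntermediateField.adjoin_simple_le_iff]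
  have h1 := add_mem (IntermediateField.mem_adjoin_simple_self k (τ - algebraMap k F c))
    (IntermediateField.algebraMap_mem k⟮τ - algebraMap k F c⟯ c)
  rwa [sub_add_cancel] at h1

/-- the three places `τ = 0`, `τ = 1`, `τ = ∞` -/
lemma three_places {τ : F} (hτ : Transcendental k τ) (h : k⟮τ⟯ = ⊤) :
    ∃ P₀ P₁ P₂ : Place k F, P₀ ≠ P₁ ∧ P₀ ≠ P₂ ∧ P₁ ≠ P₂ ∧
      (P₀.ord τ = 1 ∧ P₀.ord (τ - 1) = 0) ∧ (P₁.ord τ = 0 ∧ P₁.ord (τ - 1) = 1) ∧
      (P₂.ord τ = -1 ∧ P₂.ord (τ - 1) = -1) ∧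
      ∀ Q, Q ≠ P₀ → Q ≠ P₁ → Q ≠ P₂ → Q.ord τ = 0 ∧ Q.ord (τ - 1) = 0 := by
  have hτ0 : τ ≠ 0 := by
    rintro rfl; exact hτ isAlgebraic_zero
  have e1 : τ - 1 = τ - algebraMap k F 1 := by rw [map_one]
  have hs : Transcendental k (τ - 1) := by rw [e1]; exact trans_sub hτ 1
  have hs0 : τ - 1 ≠ 0 := by
    intro hc; rw [hc] at hs; exact hs isAlgebraic_zero
  have hi : Transcendental k τ⁻¹ := by
    intro hc; apply hτ; simpa using hc.inv
  obtain ⟨P₀, h01, h02⟩ := one_zero hτ h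
  obtain ⟨P₁, h11, h12⟩ := one_zero hs (by rw [e1]; exact adjoin_sub τ 1 h)
  obtain ⟨P₂, h21, h22⟩ := one_zero hi (by rw [adjoin_inv]; exact h)
  have h21' : P₂.ord τ = -1 := by rw [P₂.ord_inv] at h21; omega
  have h22' : ∀ Q, Q ≠ P₂ → 0 ≤ Q.ord τ := by
    intro Q hQ
    have := h22 Q hQ
    rw [Q.ord_inv] at this; omega
  have hn1 : (-1 : F) ≠ 0 := neg_ne_zero.2 one_ne_zero
  -- a place where `τ` has a positive order
  have k0 : P₀.ord (τ - 1) = 0 := by
    have h5 := P₀.ord_add_eq hn1 hτ0 (by rw [P₀.ord_neg_one, h01]; norm_num)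
    have h6 : (-1 : F) + τ = τ - 1 := by ring
    rw [h6] at h5
    rw [h5.2, P₀.ord_neg_one]
  have k2 : P₂.ord (τ - 1) = -1 := by
    have h5 := P₂.ord_add_eq hτ0 hn1 (by rw [P₂.ord_neg_one, h21']; norm_num)
    have h6 : τ + (-1 : F) = τ - 1 := by ring
    rw [h6] at h5
    rw [h5.2, h21']
  have k1 : P₁.ord τ = 0 := by
    have h5 := P₁.ord_add_eq (f := (1 : F)) one_ne_zero hs0 (by rw [P₁.ord_one, h11]; norm_num)
    have h6 : (1 : F) + (τ - 1) = τ := by ring
    rw [h6] at h5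
    rw [h5.2, P₁.ord_one]
  refine ⟨P₀, P₁, P₂, ?_, ?_, ?_, ⟨h01, k0⟩, ⟨k1, h11⟩, ⟨h21', k2⟩, ?_⟩
  · rintro rfl; omega
  · rintro rfl; omega
  · rintro rfl; omega
  · intro Q q0 q1 q2
    have h5 : Q.ord τ = 0 := le_antisymm (h02 Q q0) (h22' Q q2)
    refine ⟨h5, le_antisymm (h12 Q q1) ?_⟩
    have h6 := Q.ord_sub hτ0 one_ne_zero hs0
    rw [h5, Q.ord_one] at h6
    simpa using h6

end places

section

variable {k : Type} [Field k] [CharZero k] [IsAlgClosed k] {F K : Type} [Field F] [Algebra k F]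
  [IsFF k F] [Field K] [Algebra k K] [IsFF k K] [Algebra F K] [IsScalarTower k F K] {G : Type}
  [CommGroup G] [Fintype G] {a : G →* (K ≃ₐ[k] K)} {ψ : G →* kˣ} {d : ℕ} {β : k[X]} {τ : F} {v : K}

lemma aeval_bet (a' b' : ℕ) : aeval τ (bet k a' b') = τ ^ a' * (τ - 1) ^ b' := by
  unfold bet
  simp

lemma tri_pos {p q a' b' : ℕ} (h : Tri d p q a' b') : 0 < d := by
  rcases h with h | h | h <;> omega

lemma root_ne (a' b' : ℕ) (hd : 0 < d) (hM : Model a ψ d (bet k a' b') τ v) : v ≠ 0 := by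
  rintro rfl
  have h1 := hM.root
  rw [zero_pow hd.ne', eq_comm, map_eq_zero, aeval_bet, mul_eq_zero] at h1
  rcases h1 with h1 | h1
  · have h2 : τ = 0 := by
      by_contra hc; exact pow_ne_zero _ hc h1
    exact hM.trans (by rw [h2]; exact isAlgebraic_zero)
  · have h2 : τ - 1 = 0 := by
      by_contra hc; exact pow_ne_zero _ hc h1
    have h3 : τ = algebraMap k F 1 := by rw [map_one]; exact sub_eq_zero.1 h2
    exact hM.trans (by rw [h3]; exact isAlgebraic_algebraMap _)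

/-- the orders of `β(τ)` -/
lemma bet_orders (a' b' : ℕ) (hM : Model a ψ d (bet k a' b') τ v) :
    ∃ P₀ P₁ P₂ : Place k F, P₀ ≠ P₁ ∧ P₀ ≠ P₂ ∧ P₁ ≠ P₂ ∧
      P₀.ord (aeval τ (bet k a' b')) = a' ∧ P₁.ord (aeval τ (bet k a' b')) = b' ∧
      P₂.ord (aeval τ (bet k a' b')) = -(a' + b' : ℤ) ∧
      ∀ Q, Q ≠ P₀ → Q ≠ P₁ → Q ≠ P₂ → Q.ord (aeval τ (bet k a' b')) = 0 := by
  obtain ⟨P₀, P₁, P₂, n01, n02, n12, h0, h1, h2, h3⟩ := three_places hM.trans hM.gen
  have hτ0 : τ ≠ 0 := by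
    rintro rfl
    have := h0.1
    rw [P₀.ord_zero] at this
    omega
  have hs0 : τ - 1 ≠ 0 := by
    intro hc
    have := h1.2
    rw [hc, P₁.ord_zero] at this
    omega
  have key : ∀ Q : Place k F, Q.ord (aeval τ (bet k a' b')) = a' * Q.ord τ + b' * Q.ord (τ - 1) := by
    intro Q
    rw [aeval_bet, Q.ord_mul (pow_ne_zero _ hτ0) (pow_ne_zero _ hs0), Q.ord_pow, Q.ord_pow]
  refine ⟨P₀, P₁, P₂, n01, n02, n12, ?_, ?_, ?_, ?_⟩
  · rw [key, h0.1, h0.2]; ring
  · rw [key, h1.1, h1.2]; ring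
  · rw [key, h2.1, h2.2]; ring
  · intro Q q0 q1 q2
    obtain ⟨h4, h5⟩ := h3 Q q0 q1 q2
    rw [key, h4, h5]; ring

/-- the powers of `v` -/
lemma eig_zpow {χ : G →* kˣ} (hM : Model a ψ d β τ v) (n : ℤ) (hχ : ∀ s, χ s = ψ s ^ n) (s : G) :
    a s (v ^ n) = algebraMap k K (χ s : k) * v ^ n := by
  rw [map_zpow₀, hM.eig, mul_zpow, hχ, Units.val_zpow_eq_zpow_val, map_zpow₀]

lemma root_zpow (hM : Model a ψ d β τ v) (n : ℤ) :
    (v ^ n) ^ d = algebraMap F K ((aeval τ β) ^ n) := by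
  rw [map_zpow₀, ← hM.root, ← zpow_natCast, ← zpow_natCast, ← zpow_mul, ← zpow_mul, mul_comm]

theorem van_ell {p q a' b' : ℕ} (h : Tri d p q a' b') (hM : Model a ψ d (bet k a' b') τ v)
    (o : Place k F) : Van a ψ 1 o ∧ Van a ψ⁻¹ 1 o := by
  obtain ⟨P₀, P₁, P₂, n01, n02, n12, h0, h1, h2, h3⟩ := bet_orders a' b' hM
  have hd := tri_pos h
  have hv := root_ne a' b' hd hM
  have hg := genus_zero hM.trans hM.gen
  have main : ∀ (χ : G →* kˣ) (n : ℤ), (n = 1 ∨ n = -1) → (∀ s, χ s = ψ s ^ n) → Van a χ 1 o := by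
    intro χ n hn hχ ι _ _ W _ _ Ψ hι P1 P2 P3 _ x
    have ho : ∀ P : Place k F, P.ord (aeval τ (bet k a' b') ^ n) =
        n * P.ord (aeval τ (bet k a' b')) := fun P => P.ord_zpow _ _
    let r : Fin 3 → Place k F := ![P₀, P₁, P₂]
    have hr : Function.Injective r := by
      intro i j hij
      fin_cases i <;> fin_cases j <;> simp_all [r, n01.symm, n02.symm, n12.symm]
    refine vanish_ramified (q := fun _ => (0 : Fin 3)) (m := 1) (r := r) (g := 0)
      (b := aeval τ (bet k a' b') ^ n) hM.quot hg (y := v ^ n) (zpow_ne_zero _ hv)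
      (eig_zpow hM n hχ) hd (root_zpow hM n) hr ?_ ?_ ?_ (by decide) (by simpa using hι) P1 P2 P3 x
    · intro P hP
      have q0 : P ≠ P₀ := fun e => hP ⟨0, by simp [r, e]⟩
      have q1 : P ≠ P₁ := fun e => hP ⟨1, by simp [r, e]⟩
      have q2 : P ≠ P₂ := fun e => hP ⟨2, by simp [r, e]⟩
      rw [ho, h3 P q0 q1 q2]; simp
    · intro j
      rw [ho]
      have hj : (r j).ord (aeval τ (bet k a' b')) = a' ∨ (r j).ord (aeval τ (bet k a' b')) = b' ∨
          (r j).ord (aeval τ (bet k a' b')) = -(a' + b' : ℤ) := by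
        fin_cases j
        · left; exact h0
        · right; left; exact h1
        · right; right; exact h2
      rcases h with h | h | h <;> obtain ⟨rfl, rfl, rfl, rfl, rfl⟩ := h <;>
        rcases hn with rfl | rfl <;> rcases hj with hj | hj | hj <;> rw [hj] <;> norm_num
    · intro i
      simp only [ho]
      by_cases hi : (0 : Fin 3) = i
      · subst hi
        have hf : (Finset.univ.filter fun _ : Fin 3 => (0 : Fin 3) = 0) = Finset.univ := by simp
        rw [hf, Fin.sum_univ_three]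
        have e0 : r 0 = P₀ := rfl
        have e1 : r 1 = P₁ := rfl
        have e2 : r 2 = P₂ := rfl
        rw [e0, e1, e2, h0, h1, h2]
        have : n * (a' : ℤ) + n * (b' : ℤ) + n * -(a' + b' : ℤ) = 0 := by ring
        rw [this]; simp
      · have hf : (Finset.univ.filter fun _ : Fin 3 => (0 : Fin 3) = i) = ∅ := by
          simp [hi]
        rw [hf]; simp
  exact ⟨main ψ 1 (Or.inl rfl) fun s => by simp, main ψ⁻¹ (-1) (Or.inr rfl) fun s => by simp⟩

/-- two branch points -/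
lemma van_pair {a' b' : ℕ} (hd : 0 < d) (hM : Model a ψ d (bet k a' b') τ v)
    {χ : G →* kˣ} {n : ℕ} (hχ : ∀ s, χ s = ψ s ^ n)
    (hn : ((d : ℤ) ∣ n * a' ∧ ¬ (d : ℤ) ∣ n * b') ∨ ((d : ℤ) ∣ n * b' ∧ ¬ (d : ℤ) ∣ n * a'))
    (o : Place k F) : Van a χ 0 o := by
  obtain ⟨P₀, P₁, P₂, n01, n02, n12, h0, h1, h2, h3⟩ := bet_orders a' b' hM
  have hv := root_ne a' b' hd hM
  have hg := genus_zero hM.trans hM.gen
  -- the branch point different from infinity, the other one, and the orders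
  have main : ∀ (A B : Place k F) (α γ : ℕ), A ≠ P₂ → (d : ℤ) ∣ n * γ → ¬ (d : ℤ) ∣ n * α →
      A.ord (aeval τ (bet k a' b')) = α → B.ord (aeval τ (bet k a' b')) = γ →
      P₂.ord (aeval τ (bet k a' b')) = -(α + γ : ℤ) →
      (∀ Q, Q ≠ A → Q ≠ B → Q ≠ P₂ → Q.ord (aeval τ (bet k a' b')) = 0) → Van a χ 0 o := by
    intro A B α γ hA2 hγ hα oA oB o2 o3 ι _ _ W _ _ Ψ hι P1 P2 P3 _ x
    have ho : ∀ P : Place k F, P.ord (aeval τ (bet k a' b') ^ (n : ℤ)) =
        n * P.ord (aeval τ (bet k a' b')) := fun P => P.ord_zpow _ _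
    let r : Fin 2 → Place k F := ![A, P₂]
    have hr : Function.Injective r := by
      intro i j hij
      fin_cases i <;> fin_cases j <;> simp_all [r, hA2.symm]
    refine vanish_ramified (q := fun _ => (0 : Fin 2)) (m := 0) (r := r) (g := 0)
      (b := aeval τ (bet k a' b') ^ (n : ℤ)) hM.quot hg (y := v ^ (n : ℤ)) (zpow_ne_zero _ hv)
      (eig_zpow hM n (fun s => by rw [hχ, zpow_natCast])) hd (root_zpow hM n) hr ?_ ?_ ?_
      (by decide) (by simpa using hι) P1 P2 P3 x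
    · intro P hP
      have q0 : P ≠ A := fun e => hP ⟨0, by simp [r, e]⟩
      have q2 : P ≠ P₂ := fun e => hP ⟨1, by simp [r, e]⟩
      rw [ho]
      by_cases q1 : P = B
      · rw [q1, oB]; exact hγ
      · rw [o3 P q0 q1 q2]; simp
    · intro j
      rw [ho]
      fin_cases j
      · change ¬ (d : ℤ) ∣ n * A.ord _
        rw [oA]; exact hα
      · change ¬ (d : ℤ) ∣ n * P₂.ord _
        rw [o2]
        intro hc
        apply hα
        have h5 : (n : ℤ) * α = -(n * -(α + γ : ℤ) + n * γ) := by ring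
        rw [h5]
        exact (dvd_add hc hγ).neg_right
    · intro i
      simp only [ho]
      by_cases hi : (0 : Fin 2) = i
      · subst hi
        have hf : (Finset.univ.filter fun _ : Fin 2 => (0 : Fin 2) = 0) = Finset.univ := by simp
        rw [hf, Fin.sum_univ_two]
        have e0 : r 0 = A := rfl
        have e1 : r 1 = P₂ := rfl
        rw [e0, e1, oA, o2]
        have : (n : ℤ) * α + n * -(α + γ : ℤ) = -(n * γ) := by ring
        rw [this]; exact hγ.neg_right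
      · have hf : (Finset.univ.filter fun _ : Fin 2 => (0 : Fin 2) = i) = ∅ := by
          simp [hi]
        rw [hf]; simp
  rcases hn with ⟨hn1, hn2⟩ | ⟨hn1, hn2⟩
  · refine main P₁ P₀ b' a' n12 hn1 hn2 h1 h0 (by rw [h2]; ring) fun Q q1 q0 q2 => h3 Q q0 q1 q2
  · exact main P₀ P₁ a' b' n02 hn1 hn2 h0 h1 h2 h3

/-- a character which is trivial on the kernel of `ψ` is a power of `ψ` -/
lemma eq_pow {χ : G →* kˣ} (hd : 0 < d) (hψ : ∀ s, ψ s ^ d = 1) (hker : ∀ s, ψ s = 1 → χ s = 1) :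
    ∃ j < d, ∀ s, χ s = ψ s ^ j := by
  classical
  obtain ⟨⟨g, hg⟩, hgen⟩ := IsCyclic.exists_generator (α := ψ.range)
  obtain ⟨s₀, rfl⟩ := hg
  have hprim : IsPrimitiveRoot (ψ s₀) (orderOf (ψ s₀)) := IsPrimitiveRoot.orderOf _
  have hle : orderOf (ψ s₀) ≤ d := Nat.le_of_dvd hd (orderOf_dvd_of_pow_eq_one (hψ s₀))
  have hpos : 0 < orderOf (ψ s₀) := orderOf_pos_iff.2 (isOfFinOrder_iff_pow_eq_one.2 ⟨d, hd, hψ s₀⟩)
  have h1 : χ s₀ ^ orderOf (ψ s₀) = 1 := by
    rw [← map_pow]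
    apply hker
    rw [map_pow, pow_orderOf_eq_one]
  have hprim' : IsPrimitiveRoot ((ψ s₀ : kˣ) : k) (orderOf (ψ s₀)) :=
    IsPrimitiveRoot.coe_units_iff.2 hprim
  have : NeZero (orderOf (ψ s₀)) := ⟨hpos.ne'⟩
  obtain ⟨j, hj, hj'⟩ := hprim'.eq_pow_of_pow_eq_one (ξ := ((χ s₀ : kˣ) : k)) (by
    rw [← Units.val_pow_eq_pow_val, h1, Units.val_one])
  have hj2 : χ s₀ = ψ s₀ ^ j := Units.ext (by rw [← hj', Units.val_pow_eq_pow_val])
  refine ⟨j, lt_of_lt_of_le hj hle, fun s => ?_⟩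
  obtain ⟨i, hi⟩ := Subgroup.mem_zpowers_iff.1 (hgen ⟨ψ s, ⟨s, rfl⟩⟩)
  have hi' : ψ s₀ ^ i = ψ s := congrArg Subtype.val hi
  have h2 : χ (s * (s₀ ^ i)⁻¹) = 1 := by
    apply hker
    rw [map_mul, map_inv, map_zpow, hi', mul_inv_cancel]
  rw [map_mul, map_inv, mul_inv_eq_one, map_zpow, hj2] at h2
  rw [h2, ← hi', ← zpow_natCast, ← zpow_natCast, ← zpow_mul, ← zpow_mul, mul_comm]

lemma psi_pow {a' b' : ℕ} (hd : 0 < d) (hM : Model a ψ d (bet k a' b') τ v) (s : G) :
    ψ s ^ d = 1 := by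
  have hv := root_ne a' b' hd hM
  have h1 : a s (v ^ d) = v ^ d := by rw [hM.root, hM.quot.1]
  rw [map_pow, hM.eig, mul_pow] at h1
  have h2 : algebraMap k K (ψ s : k) ^ d = 1 := by
    have h3 : v ^ d ≠ 0 := pow_ne_zero _ hv
    exact mul_right_cancel₀ h3 (by rw [h1, one_mul])
  rw [← map_pow, ← map_one (algebraMap k K)] at h2
  apply Units.ext
  rw [Units.val_pow_eq_pow_val, Units.val_one]
  exact (algebraMap k K).injective h2

lemma trivial_act (hM : Model a ψ d β τ v) {s : G} (hs : ψ s = 1) (P : Place k K) :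
    act a s P = P := by
  have h1 : ∀ f : K, a s f = f := by
    intro f
    have hf : f ∈ IntermediateField.adjoin F {v} := by rw [hM.top]; trivial
    induction hf using IntermediateField.adjoin_induction with
    | mem x hx =>
      rw [Set.mem_singleton_iff] at hx
      rw [hx, hM.eig, hs]; simp
    | algebraMap x => exact hM.quot.1 s x
    | add x y _ _ hx hy => rw [map_add, hx, hy]
    | inv x _ hx => rw [map_inv₀, hx]
    | mul x y _ _ hx hy => rw [map_mul, hx, hy]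
  apply Place.ext
  ext f
  rw [act_ord, h1]

theorem van_other {p q a' b' : ℕ} (h : Tri d p q a' b') (hM : Model a ψ d (bet k a' b') τ v)
    {χ : G →* kˣ} (h1 : χ ≠ ψ) (h2 : χ ≠ ψ⁻¹) (o : Place k F) : Van a χ 0 o := by
  have hd := tri_pos h
  have hψ := psi_pow hd hM
  by_cases hker : ∀ s, ψ s = 1 → χ s = 1
  · obtain ⟨j, hj, hj'⟩ := eq_pow hd hψ hker
    have hj1 : j ≠ 1 := by
      rintro rfl
      exact h1 (MonoidHom.ext fun s => by rw [hj', pow_one])
    have hj2 : j + 1 ≠ d := by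
      intro hc
      apply h2
      apply MonoidHom.ext
      intro s
      rw [hj', MonoidHom.inv_apply, eq_inv_iff_mul_eq_one, ← pow_succ, hc, hψ]
    rcases Nat.eq_zero_or_pos j with rfl | hpos
    · have hχ : χ = 1 := MonoidHom.ext fun s => by rw [hj', pow_zero]; rfl
      intro ι _ _ W _ _ Ψ hι P1 P2 P3 P4 x
      exact vanish_trivial hM.quot (genus_zero hM.trans hM.gen) hι P1
        (fun u x => by rw [P2, hχ]; simp) P3 (P4 hχ) x
    · refine van_pair hd hM hj' ?_ o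
      rcases h with h | h | h <;> obtain ⟨rfl, rfl, rfl, rfl, rfl⟩ := h
      · omega
      · have : j = 2 := by omega
        subst this; norm_num
      · have : j = 2 ∨ j = 3 ∨ j = 4 := by omega
        rcases this with rfl | rfl | rfl <;> norm_num
  · push Not at hker
    obtain ⟨s, hs1, hs2⟩ := hker
    intro ι _ _ W _ _ Ψ hι P1 P2 P3 _ x
    obtain ⟨i⟩ : Nonempty ι := Fintype.card_pos_iff.1 (by omega)
    exact vanish_fixed P2 (trivial_act hM hs1 (x i)) hs2

end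

end Pool.Agent.H12.VZ
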