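import Pool.Agent.H12.VZ.Ell2
import Pool.Agent.H12.VZ.Bran

/-!
# The curve `v ^ d = τ ^ a (τ - 1) ^ b`: branch points and the regular differential
-/

set_option autoImplicit false
set_option linter.overlappingInstances false
set_option linter.unusedSectionVars false

namespace Pool.Agent.H12.VZ

open FF IntermediateField Module Polynomial Pool.Agent.W603.LV Pool.Agent.W619.PQ
  Pool.Agent.Q70.CH Pool.Agent.H25.VO

variable {k : Type} [Field k] [CharZero k] [IsAlgClosed k] {F K : Type} [Field F] [Algebra k F]
  [IsFF k F] [Field K] [Algebra k K] [IsFF k K] [Algebra F K] [IsScalarTower k F K] {G : Type}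
  [CommGroup G] [Fintype G] {a : G →* (K ≃ₐ[k] K)} {ψ : G →* kˣ} {d : ℕ} {τ : F} {v : K}

lemma tri_bounds {p q a' b' : ℕ} (h : Tri d p q a' b') : 0 < a' ∧ a' < d ∧ 0 < b' ∧ b' < d ∧
    a' + b' + 1 = d := by
  rcases h with h | h | h <;> omega

theorem branch {p q a' b' : ℕ} (h : Tri d p q a' b') (hM : Model a ψ d (bet k a' b') τ v)
    (e : Place k K) (he : Vl e (algebraMap F K τ) 0 ∨ Vl e (algebraMap F K τ) 1 ∨
      e.ord (algebraMap F K τ) < 0) : ∃ s, act a s e = e ∧ ψ s ≠ 1 := by
  obtain ⟨ha, had, hb, hbd, hab⟩ := tri_bounds h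
  have hd := tri_pos h
  obtain ⟨P, E, hP⟩ : ∃ (P : Place k F) (E : ℕ), Over e P E := by
    obtain ⟨p, e', he', h⟩ := exists_below (IsScalarTower.toAlgHom k F K) e
    exact ⟨p, e', he', h⟩
  have hτt : Transcendental k (algebraMap F K τ) := by
    intro hc
    exact hM.trans ((isAlgebraic_algebraMap_iff (algebraMap F K).injective).1 hc)
  have hτ0 : τ ≠ 0 := by rintro rfl; exact hM.trans isAlgebraic_zero
  have hs0 : τ - 1 ≠ 0 := by
    intro hc
    have h3 : τ = algebraMap k F 1 := by rw [map_one]; exact sub_eq_zero.1 hc
    exact hM.trans (by rw [h3]; exact isAlgebraic_algebraMap _)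
  have hE : (0 : ℤ) < E := by exact_mod_cast hP.1
  have key : P.ord (aeval τ (bet k a' b')) = a' * P.ord τ + b' * P.ord (τ - 1) := by
    rw [aeval_bet, P.ord_mul (pow_ne_zero _ hτ0) (pow_ne_zero _ hs0), P.ord_pow, P.ord_pow]
  obtain ⟨P₀, P₁, P₂, n01, n02, n12, h0, h1, h2, h3⟩ := three_places hM.trans hM.gen
  have hnd : ¬ (d : ℤ) ∣ P.ord (aeval τ (bet k a' b')) := by
    rcases he with he | he | he
    · -- over `τ = 0`
      have h4 : 0 < P.ord τ := by
        have h5 := he.resolve_left (by
          rw [map_zero, sub_zero]
          intro hc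
          rw [hc] at hτt
          exact hτt isAlgebraic_zero)
        rw [map_zero, sub_zero, hP.2] at h5
        by_contra hc
        push Not at hc
        have := mul_nonpos_of_nonneg_of_nonpos hE.le hc
        omega
      have h5 : P = P₀ := by
        by_contra hne
        by_cases hc1 : P = P₁
        · rw [hc1, h1.1] at h4; omega
        by_cases hc2 : P = P₂
        · rw [hc2, h2.1] at h4; omega
        rw [(h3 P hne hc1 hc2).1] at h4; omega
      rw [key, h5, h0.1, h0.2, mul_one, mul_zero, add_zero]
      intro hc
      have := Int.le_of_dvd (by exact_mod_cast ha) hc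
      omega
    · have h4 : 0 < P.ord (τ - 1) := by
        have h5 := he.resolve_left (sub_ne hτt 1)
        have h6 : algebraMap F K τ - algebraMap k K 1 = algebraMap F K (τ - 1) := by
          rw [map_sub, map_one, map_one]
        rw [h6, hP.2] at h5
        by_contra hc
        push Not at hc
        have := mul_nonpos_of_nonneg_of_nonpos hE.le hc
        omega
      have h5 : P = P₁ := by
        by_contra hne
        by_cases hc1 : P = P₀
        · rw [hc1, h0.2] at h4; omega
        by_cases hc2 : P = P₂
        · rw [hc2, h2.2] at h4; omega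
        rw [(h3 P hc1 hne hc2).2] at h4; omega
      rw [key, h5, h1.1, h1.2, mul_one, mul_zero, zero_add]
      intro hc
      have := Int.le_of_dvd (by exact_mod_cast hb) hc
      omega
    · have h4 : P.ord τ < 0 := by
        rw [hP.2] at he
        by_contra hc
        push Not at hc
        have := mul_nonneg hE.le hc
        omega
      have h5 : P = P₂ := by
        by_contra hne
        by_cases hc1 : P = P₀
        · rw [hc1, h0.1] at h4; omega
        by_cases hc2 : P = P₁
        · rw [hc2, h1.1] at h4; omega
        rw [(h3 P hc1 hc2 hne).1] at h4; omega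
      rw [key, h5, h2.1, h2.2]
      intro hc
      have h6 : (d : ℤ) ∣ a' + b' := by
        have h7 : (a' : ℤ) * -1 + b' * -1 = -(a' + b') := by ring
        rw [h7] at hc
        exact (Int.dvd_neg).1 hc
      have := Int.le_of_dvd (by omega) h6
      omega
  by_contra hc
  push Not at hc
  exact hnd (dvd_of_trivial hM.quot (root_ne a' b' hd hM) hM.eig hM.root hP hc)

theorem rank_ell {p q a' b' : ℕ} (h : Tri d p q a' b') (hM : Model a ψ d (bet k a' b') τ v) :
    (1 : Cardinal) ≤ Module.rank k (Eigenforms a ψ) := by
  obtain ⟨ha, had, hb, hbd, hab⟩ := tri_bounds h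
  have hd := tri_pos h
  obtain ⟨P₀, P₁, P₂, n01, n02, n12, h0, h1, h2, h3⟩ := bet_orders a' b' hM
  have hD : Data a F ψ d 1 0 2 v (aeval τ (bet k a' b')) ![P₀, P₁, P₂] ![d - a', d - b', d - 1] :=
    { quot := hM.quot
      genus := genus_zero hM.trans hM.gen
      ne := root_ne a' b' hd hM
      eig := hM.eig
      root := hM.root
      inj := by
        intro i j hij
        fin_cases i <;> fin_cases j <;> simp_all [n01.symm, n02.symm, n12.symm]
      pos := by
        intro j
        fin_cases j <;> simp <;> omega
      unram := by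
        intro P hP
        rw [h3 P (fun hc => hP ⟨0, by simp [hc]⟩) (fun hc => hP ⟨1, by simp [hc]⟩)
          (fun hc => hP ⟨2, by simp [hc]⟩)]
        exact dvd_zero _
      ram := by
        intro j
        fin_cases j
        · simp only [Fin.zero_eta, Matrix.cons_val_zero, h0]
          exact ⟨1, by omega⟩
        · simp only [Fin.mk_one, Matrix.cons_val_one, Matrix.cons_val_zero, h1]
          exact ⟨1, by omega⟩
        · simp only [Fin.reduceFinMk, Matrix.cons_val, h2]
          exact ⟨0, by omega⟩
      sum := by
        rw [Fin.sum_univ_three]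
        simp
        omega }
  have := (rank_data hD).2
  simpa using this

end Pool.Agent.H12.VZ
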