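import Pool.Agent.H12.VZ.Defs

/-!
# The final step
-/

set_option autoImplicit false
set_option linter.overlappingInstances false
set_option linter.unusedSectionVars false

namespace Pool.Agent.H12.VZ

open FF IntermediateField Module Polynomial Pool.Agent.W603.LV Pool.Agent.W619.PQ
  Pool.Agent.Q70.CH Pool.Agent.H25.VO

variable {k : Type} [Field k] [CharZero k] [IsAlgClosed k]

/-- the constant case: `Y` is, up to a constant, a product of linear factors of total degree zero -/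
lemma fin_const {L : Type} [Field L] [Algebra k L] [IsFF k L] {Z : Sp k} {W : Type}
    [AddCommGroup W] [Module k W] {Ψ : Z.pts → W} (P3 : KillsF Z Ψ) {x : Z.pts} {T Y : L} {κ : k}
    {s : Place k L → Z.pts} (hT : Transcendental k T) (hs : s ∈ Z.mor L) (hκ : κ ≠ 0)
    (hinf : ∀ Q : Place k L, Q.ord T < 0 → ∃ c, c ≠ 0 ∧ Vl Q Y c ∧ Ψ (s Q) = (κ * c⁻¹) • Ψ x)
    {γ : k} (hγ : γ ≠ 0) {m : k →₀ ℤ} (hm : (m.sum fun _ j => j) = 0)
    (hY : Y = algebraMap k L γ * rat T m) (v : k)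
    (hv : ∀ Q : Place k L, 0 < Q.ord (T - algebraMap k L v) → Ψ (s Q) = 0) : Ψ x = 0 := by
  have hTv : Transcendental k (T - algebraMap k L v) := by
    intro hc
    apply hT
    have := hc.add (isAlgebraic_algebraMap (R := k) (A := L) v)
    simpa using this
  have h1 := kill_two P3 hs hTv (A := 0) (B := (κ * γ⁻¹) • Ψ x) hv (by
    intro Q hQ
    have hQT : Q.ord T < 0 := by
      by_contra hc
      push Not at hc
      have h2 : Ge Q 0 T := Or.inr hc
      have h3 : Ge Q 0 (T - algebraMap k L v) := h2.sub (Ge.const v)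
      rcases h3 with h3 | h3
      · rw [h3, Q.ord_zero] at hQ; omega
      · omega
    obtain ⟨c, hc0, hc, h⟩ := hinf Q hQT
    have h2 : Vl Q Y (γ * 1) := by
      rw [hY]
      exact (vl_rat_pole hT m Q hQT hm).smul γ
    rw [mul_one] at h2
    rw [h, hc.unique h2])
  rcases smul_eq_zero.1 h1.symm with h2 | h2
  · exact absurd h2 (mul_ne_zero hκ (inv_ne_zero hγ))
  · exact h2

/-- the other case: `Y` is, up to a constant, a product of linear factors of total degree zero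
times a power, prime to `e`, of an `e`-th root of `(T - v₂) / (T - v₁)` -/
lemma fin_root {L : Type} [Field L] [Algebra k L] [IsFF k L] {Z : Sp k} {W : Type}
    [AddCommGroup W] [Module k W] {Ψ : Z.pts → W} (P3 : KillsF Z Ψ) {x : Z.pts} {T Y : L} {κ : k}
    {s : Place k L → Z.pts} (hT : Transcendental k T) (hs : s ∈ Z.mor L) (hκ : κ ≠ 0)
    (hinf : ∀ Q : Place k L, Q.ord T < 0 → ∃ c, c ≠ 0 ∧ Vl Q Y c ∧ Ψ (s Q) = (κ * c⁻¹) • Ψ x)
    {γ : k} (hγ : γ ≠ 0) {m : k →₀ ℤ} (hm : (m.sum fun _ j => j) = 0)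
    {v₁ v₂ : k} (hv : v₁ ≠ v₂) {e : ℕ} (he : 0 < e) {ν : ℤ} (hν : ¬ (e : ℤ) ∣ ν) {τ : L}
    (hτ : τ ^ e = (T - algebraMap k L v₂) * (T - algebraMap k L v₁)⁻¹)
    (hY : Y = algebraMap k L γ * rat T m * τ ^ ν) : Ψ x = 0 := by
  have hT1 := sub_ne hT v₁
  have hT2 := sub_ne hT v₂
  set w := (T - algebraMap k L v₂) * (T - algebraMap k L v₁)⁻¹ with hw
  have hw0 : w ≠ 0 := mul_ne_zero hT2 (inv_ne_zero hT1)
  have hw1 : w - 1 = algebraMap k L (v₁ - v₂) * (T - algebraMap k L v₁)⁻¹ := by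
    rw [hw, map_sub]; field_simp; ring
  have hv' : v₁ - v₂ ≠ 0 := sub_ne_zero.2 hv
  have hv'' : algebraMap k L (v₁ - v₂) ≠ 0 := (map_ne_zero (algebraMap k L)).2 hv'
  -- where `w` has the value one, `T` has a pole
  have hpole : ∀ Q : Place k L, Vl Q w 1 → Q.ord T < 0 := by
    intro Q hQ
    have h1 : Ge Q 1 (w - 1) := by
      have := hQ; unfold Vl at this; rwa [map_one] at this
    rw [hw1] at h1
    have h2 := h1.resolve_left (mul_ne_zero hv'' (inv_ne_zero hT1))
    rw [Q.ord_mul hv'' (inv_ne_zero hT1), Q.ord_const hv', Q.ord_inv] at h2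
    by_contra hc
    push Not at hc
    have h3 : Ge Q 0 T := Or.inr hc
    have h4 : Ge Q 0 (T - algebraMap k L v₁) := h3.sub (Ge.const v₁)
    have h5 := h4.resolve_left hT1
    omega
  have hτ0 : τ ≠ 0 := by
    rintro rfl
    rw [zero_pow he.ne'] at hτ
    exact hw0 hτ.symm
  obtain ⟨ζ, hζ⟩ : ∃ ζ : k, IsPrimitiveRoot ζ e :=
    have : NeZero (e : k) := ⟨by exact_mod_cast he.ne'⟩
    HasEnoughRootsOfUnity.exists_primitiveRoot k e
  have hζe : ζ ^ e = 1 := hζ.pow_eq_one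
  have hζ0 : ζ ≠ 0 := hζ.ne_zero he.ne'
  have hζν : ζ ^ ν ≠ 1 := by
    rw [Ne, hζ.zpow_eq_one_iff_dvd]; exact hν
  have hζ1 : ζ ≠ 1 := by
    rintro rfl
    rw [one_zpow] at hζν
    exact hζν rfl
  -- values of `Y`
  have hYv : ∀ (Q : Place k L) (c : k), c ^ e = 1 → Vl Q τ c →
      Q.ord T < 0 ∧ Ψ (s Q) = (κ * (γ * c ^ ν)⁻¹) • Ψ x := by
    intro Q c hc hQ
    have hc0 : c ≠ 0 := by
      rintro rfl
      rw [zero_pow he.ne'] at hc
      exact zero_ne_one hc
    have h1 : Vl Q w 1 := by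
      have := hQ.pow e
      rwa [hτ, hc] at this
    have h2 := hpole Q h1
    refine ⟨h2, ?_⟩
    obtain ⟨c', hc'0, hc', h⟩ := hinf Q h2
    have h3 : Vl Q Y (γ * 1 * c ^ ν) := by
      rw [hY]
      exact ((vl_rat_pole hT m Q h2 hm).smul γ).mul (hQ.zpow hc0 ν)
    rw [mul_one] at h3
    rw [h, hc'.unique h3]
  have hτt : Transcendental k τ := by
    intro hc
    obtain ⟨c, hc'⟩ := alg_const hc
    have h1 : w = algebraMap k L (c ^ e) := by rw [← hτ, ← hc', map_pow]
    have h2 : (T - algebraMap k L v₁)⁻¹ = algebraMap k L ((c ^ e - 1) / (v₁ - v₂)) := by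
      rw [map_div₀, map_sub, ← h1, map_one, hw1]; field_simp
    apply hT
    have h3 : T = (algebraMap k L ((c ^ e - 1) / (v₁ - v₂)))⁻¹ + algebraMap k L v₁ := by
      rw [← h2, inv_inv]; ring
    rw [h3]
    exact ((isAlgebraic_algebraMap _).inv).add (isAlgebraic_algebraMap _)
  have hsub : ∀ c : k, τ - algebraMap k L c ≠ 0 := fun c => sub_ne hτt c
  have hone : τ - 1 ≠ 0 := by have := hsub 1; rwa [map_one] at this
  let f : L := (τ - 1) / (τ - algebraMap k L ζ)
  have hf0 : f ≠ 0 := div_ne_zero hone (hsub ζ)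
  have hford : ∀ Q : Place k L, Q.ord f = Q.ord (τ - 1) - Q.ord (τ - algebraMap k L ζ) :=
    fun Q => Q.ord_div hone (hsub ζ)
  -- poles of `τ`
  have hpτ : ∀ Q : Place k L, Q.ord τ < 0 → Q.ord f = 0 := by
    intro Q hQ
    have h1 : ∀ c : k, Q.ord (τ - algebraMap k L c) = Q.ord τ := by
      intro c
      by_cases hc : c = 0
      · rw [hc, map_zero, sub_zero]
      have hc' : algebraMap k L c ≠ 0 := by simpa using hc
      rw [sub_eq_add_neg]
      exact (Q.ord_add_eq hτ0 (neg_ne_zero.2 hc') (by rw [Q.ord_neg, Q.ord_const hc]; exact hQ)).2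
    have h2 := h1 1
    rw [map_one] at h2
    rw [hford, h2, h1]; omega
  have hreg : ∀ Q : Place k L, Q.ord f ≠ 0 → ∃ c, Vl Q τ c := by
    intro Q hQ
    apply exists_vl
    right
    by_contra hc
    push Not at hc
    exact hQ (hpτ Q hc)
  have hval : ∀ (Q : Place k L) (c : k), Vl Q τ c → ∀ c' : k, c ≠ c' →
      Q.ord (τ - algebraMap k L c') = 0 := by
    intro Q c hQ c' hne
    exact ((hQ.sub (Vl.const Q c')).ne_zero (sub_ne_zero.2 hne)).2
  have hval' : ∀ (Q : Place k L) (c : k), Vl Q τ c → 0 < Q.ord (τ - algebraMap k L c) := by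
    intro Q c hQ
    have := hQ.resolve_left (hsub c)
    omega
  have hz1 : ∀ Q : Place k L, 0 < Q.ord f → Vl Q τ 1 := by
    intro Q hQ
    obtain ⟨c, hc⟩ := hreg Q (by omega)
    by_cases h1 : c = 1
    · rwa [h1] at hc
    exfalso
    have h2 := hval Q c hc 1 h1
    rw [map_one] at h2
    rw [hford, h2] at hQ
    by_cases h3 : c = ζ
    · rw [h3] at hc
      have := hval' Q ζ hc
      omega
    · rw [hval Q c hc ζ h3] at hQ
      omega
  have hz2 : ∀ Q : Place k L, Q.ord f < 0 → Vl Q τ ζ := by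
    intro Q hQ
    obtain ⟨c, hc⟩ := hreg Q (by omega)
    by_cases h1 : c = ζ
    · rwa [h1] at hc
    exfalso
    rw [hford, hval Q c hc ζ h1] at hQ
    by_cases h3 : c = 1
    · rw [h3] at hc
      have := hval' Q 1 hc
      rw [map_one] at this
      omega
    · have h2 := hval Q c hc 1 h3
      rw [map_one] at h2
      rw [h2] at hQ
      omega
  have hft : Transcendental k f := by
    intro hc
    obtain ⟨c, hc'⟩ := alg_const hc
    -- then `τ - 1 = c (τ - ζ)`
    have h1 : τ - 1 = algebraMap k L c * (τ - algebraMap k L ζ) := by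
      rw [hc']
      change τ - 1 = (τ - 1) / (τ - algebraMap k L ζ) * (τ - algebraMap k L ζ)
      rw [div_mul_cancel₀ _ (hsub ζ)]
    have h2 : τ * (1 - algebraMap k L c) = 1 - algebraMap k L (c * ζ) := by
      rw [map_mul]; linear_combination h1
    by_cases h3 : c = 1
    · rw [h3] at h2
      simp only [map_one, sub_self, mul_zero, one_mul] at h2
      apply hζ1
      have h4 : algebraMap k L ζ = algebraMap k L 1 := by
        rw [map_one]; linear_combination h2
      exact (algebraMap k L).injective h4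
    · apply hτt
      have h4 : (1 : L) - algebraMap k L c ≠ 0 := by
        intro h5
        apply h3
        apply (algebraMap k L).injective
        rw [map_one]; linear_combination -h5
      have h5 : τ = algebraMap k L ((1 - c * ζ) / (1 - c)) := by
        rw [map_div₀, map_sub, map_sub, map_one, ← h2]
        field_simp
      rw [h5]
      exact isAlgebraic_algebraMap _
  have h1 := kill_two P3 hs hft (A := (κ * (γ * 1 ^ ν)⁻¹) • Ψ x) (B := (κ * (γ * ζ ^ ν)⁻¹) • Ψ x)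
    (fun Q hQ => (hYv Q 1 (one_pow _) (hz1 Q hQ)).2)
    (fun Q hQ => (hYv Q ζ hζe (hz2 Q hQ)).2)
  rw [← sub_eq_zero, ← sub_smul] at h1
  rcases smul_eq_zero.1 h1 with h2 | h2
  · exfalso
    rw [one_zpow, mul_one, ← mul_sub, mul_eq_zero] at h2
    rcases h2 with h2 | h2
    · exact hκ h2
    · rw [sub_eq_zero, inv_inj] at h2
      apply hζν
      apply mul_left_cancel₀ hγ
      rw [mul_one, ← h2]
  · exact h2

/-- a transcendental function has a pole -/
lemma exists_pole {L : Type} [Field L] [Algebra k L] [IsFF k L] {T : L}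
    (hT : Transcendental k T) : ∃ Q : Place k L, Q.ord T < 0 := by
  have hTi : Transcendental k T⁻¹ := by
    intro hc
    apply hT
    have := hc.inv
    rwa [inv_inv] at this
  obtain ⟨S, hS, -, hS2⟩ := zeros hTi
  have hfin := IsFF.finite hTi
  obtain ⟨Q₀, hQ₀⟩ : S.Nonempty := by
    rw [Finset.nonempty_iff_ne_empty]
    rintro rfl
    rw [Finset.sum_empty] at hS2
    have : 0 < finrank k⟮T⁻¹⟯ L := finrank_pos
    omega
  have h1 := (hS Q₀).1 hQ₀
  rw [Q₀.ord_inv] at h1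
  exact ⟨Q₀, by omega⟩

/-- The final step. `Y ^ d = β R ^ d ((T - w₂) / (T - w₁)) ^ c` with `R ∈ k(T)`. -/
theorem final_step {Z : Sp k} {W : Type} [AddCommGroup W] [Module k W] {Θ : Z.pts → W}
    (hK : KillsF Z Θ) {L : Type} [Field L] [Algebra k L] [IsFF k L] {z₀ : Z.pts} {T Y R : L} {κ : k}
    {s : Place k L → Z.pts} (hT : Transcendental k T) (hs : s ∈ Z.mor L) (hκ : κ ≠ 0)
    (hinf : ∀ Q : Place k L, Q.ord T < 0 → ∃ c, c ≠ 0 ∧ Vl Q Y c ∧ Θ (s Q) = (κ * c⁻¹) • Θ z₀)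
    {d : ℕ} (hd : 0 < d) {β : k} (hβ : β ≠ 0) (hR : R ≠ 0) (hRT : R ∈ k⟮T⟯) {w₁ w₂ : k} {c : ℤ}
    (hc : ¬ (d : ℤ) ∣ c)
    (hY : Y ^ d = algebraMap k L β * R ^ d *
      ((T - algebraMap k L w₂) * (T - algebraMap k L w₁)⁻¹) ^ c)
    (hv : w₁ = w₂ → ∃ t : k, ∀ Q : Place k L, 0 < Q.ord (T - algebraMap k L t) → Θ (s Q) = 0) :
    Θ z₀ = 0 := by
  obtain ⟨δ, μ, hδ, hμ⟩ := rat_rep hT R hR hRT
  have hδ' : algebraMap k L δ ≠ 0 := (map_ne_zero (algebraMap k L)).2 hδ
  have hβ' : algebraMap k L β ≠ 0 := (map_ne_zero (algebraMap k L)).2 hβ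
  have hT1 := sub_ne hT w₁
  have hT2 := sub_ne hT w₂
  obtain ⟨Q₀, hQ₀⟩ := exists_pole hT
  obtain ⟨c₀, hc₀, hc₀', -⟩ := hinf Q₀ hQ₀
  obtain ⟨hY0, hYo⟩ := hc₀'.ne_zero hc₀
  have hlin : ∀ t : k, Q₀.ord (T - algebraMap k L t) = Q₀.ord T := by
    intro t
    have h1 := ord_rat_pole hT (Finsupp.single t 1) Q₀ hQ₀
    rwa [rat_single, zpow_one, Finsupp.sum_single_index rfl, one_mul] at h1
  set w := (T - algebraMap k L w₂) * (T - algebraMap k L w₁)⁻¹ with hwdef
  have hw0 : w ≠ 0 := mul_ne_zero hT2 (inv_ne_zero hT1)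
  have hwo : Q₀.ord w = 0 := by
    rw [hwdef, Q₀.ord_mul hT2 (inv_ne_zero hT1), Q₀.ord_inv, hlin, hlin]; omega
  have h1 : (Y * R⁻¹) ^ d = algebraMap k L β * w ^ c := by
    rw [mul_pow, hY, inv_pow]
    have := pow_ne_zero d hR
    field_simp
  by_cases hw : w₁ = w₂
  · have hw1 : w = 1 := by
      rw [hwdef, hw, mul_inv_cancel₀ hT2]
    rw [hw1, one_zpow, mul_one] at h1
    obtain ⟨γ, hγ⟩ := const_of_pow hd h1
    have hγ0 : γ ≠ 0 := by
      rintro rfl
      rw [map_zero] at hγ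
      exact mul_ne_zero hY0 (inv_ne_zero hR) hγ.symm
    have hY' : Y = algebraMap k L (γ * δ) * rat T μ := by
      rw [map_mul, hγ, mul_assoc, ← hμ, inv_mul_cancel_right₀ hR]
    have hsum : (μ.sum fun _ j => j) = 0 := by
      have h2 := hYo
      rw [hY', Q₀.ord_mul ((map_ne_zero (algebraMap k L)).2 (mul_ne_zero hγ0 hδ)) (rat_ne hT μ),
        Q₀.ord_const (mul_ne_zero hγ0 hδ), ord_rat_pole hT μ Q₀ hQ₀, zero_add] at h2
      rcases mul_eq_zero.1 h2 with h3 | h3
      · exact h3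
      · omega
    obtain ⟨t, ht⟩ := hv hw
    exact fin_const hK hT hs hκ hinf (mul_ne_zero hγ0 hδ) hsum hY' t ht
  · obtain ⟨e, τ, γ, ν, he, hν, hγ, hτ, hVτ⟩ := exists_root hw0 hβ hd hc h1
    have hτ0 : τ ≠ 0 := by
      rintro rfl
      rw [zero_pow he.ne'] at hτ
      exact hw0 hτ.symm
    have hτo : Q₀.ord τ = 0 := by
      have h2 := hwo
      rw [← hτ, Q₀.ord_pow] at h2
      rcases mul_eq_zero.1 h2 with h3 | h3
      · omega
      · exact h3
    have hY' : Y = algebraMap k L (γ * δ) * rat T μ * τ ^ ν := by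
      have h2 : Y = Y * R⁻¹ * R := by rw [inv_mul_cancel_right₀ hR]
      rw [h2, hVτ, hμ, map_mul]; ring
    have hsum : (μ.sum fun _ j => j) = 0 := by
      have h2 := hYo
      have hγδ := (map_ne_zero (algebraMap k L)).2 (mul_ne_zero hγ hδ)
      rw [hY', Q₀.ord_mul (mul_ne_zero hγδ (rat_ne hT μ)) (zpow_ne_zero _ hτ0),
        Q₀.ord_mul hγδ (rat_ne hT μ), Q₀.ord_zpow, hτo,
        Q₀.ord_const (mul_ne_zero hγ hδ), ord_rat_pole hT μ Q₀ hQ₀] at h2
      have h3 : (μ.sum fun _ j => j) * Q₀.ord T = 0 := by linarith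
      rcases mul_eq_zero.1 h3 with h4 | h4
      · exact h4
      · omega
    exact fin_root hK hT hs hκ hinf (mul_ne_zero hγ hδ) hsum hw he hν hτ hY'

end Pool.Agent.H12.VZ
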