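import Pool.Agent.H12.VZ.Val
import Pool.Agent.H12.VZ.Comp
import Pool.Agent.H12.VZ.Final
import Pool.Agent.H12.VZ.Ell3

/-!
# The vanishing theorem: the final step for a given polynomial identity
-/

set_option autoImplicit false
set_option linter.overlappingInstances false
set_option linter.unusedSectionVars false

namespace Pool.Agent.H12.VZ

open FF IntermediateField Module Polynomial Pool.Agent.W603.LV Pool.Agent.W619.PQ
  Pool.Agent.Q70.CH Pool.Agent.H25.VO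

lemma Tri.pos {d p q a b : ℕ} (h : Tri d p q a b) : 0 < d ∧ a * p = d ∧ b * q = d ∧ a + b + 1 = d ∧
    0 < p ∧ 0 < q ∧ 0 < a ∧ 0 < b ∧ 2 ≤ d := by
  rcases h with ⟨rfl, rfl, rfl, rfl, rfl⟩ | ⟨rfl, rfl, rfl, rfl, rfl⟩ | ⟨rfl, rfl, rfl, rfl, rfl⟩ <;>
    norm_num

/-- `β(A ^ p / F) = (A B / F) ^ d F` if `A ^ p - B ^ q = F` -/
lemma beta_identity {k L : Type} [Field k] [Field L] [Algebra k L] {d p q a b : ℕ}
    (h : Tri d p q a b) {x y f : L} (hf : f ≠ 0) (hxy : x ^ p - y ^ q = f) :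
    aeval (x ^ p * f⁻¹) (bet k a b) = (x * y * f⁻¹) ^ d * f := by
  have h1 : x ^ p * f⁻¹ - 1 = y ^ q * f⁻¹ := by
    field_simp
    linear_combination hxy
  unfold bet
  rw [map_mul, map_pow, map_pow, map_sub, aeval_X, aeval_C, map_one, h1]
  rcases h with ⟨rfl, rfl, rfl, rfl, rfl⟩ | ⟨rfl, rfl, rfl, rfl, rfl⟩ | ⟨rfl, rfl, rfl, rfl, rfl⟩ <;>
    field_simp

variable {k : Type} [Field k] [CharZero k] [IsAlgClosed k] {F₁ F₂ K₁ K₂ : Type} [Field F₁]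
  [Algebra k F₁] [IsFF k F₁] [Field F₂] [Algebra k F₂] [IsFF k F₂] [Field K₁] [Algebra k K₁]
  [IsFF k K₁] [Field K₂] [Algebra k K₂] [IsFF k K₂] [Algebra F₁ K₁] [IsScalarTower k F₁ K₁]
  [Algebra F₂ K₂] [IsScalarTower k F₂ K₂] {G : Type} [CommGroup G] [Fintype G]
  {a₁ : G →* (K₁ ≃ₐ[k] K₁)} {a₂ : G →* (K₂ ≃ₐ[k] K₂)} {ψ : G →* kˣ} {d : ℕ} {τ : F₂} {v : K₂}

lemma mem_adjoin_map {L L' : Type} [Field L] [Algebra k L] [Field L'] [Algebra k L'] (φ : L →ₐ[k] L')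
    {T R : L} (h : R ∈ k⟮T⟯) : φ R ∈ k⟮φ T⟯ := by
  have h1 : (k⟮T⟯).map φ = k⟮φ T⟯ := by
    rw [IntermediateField.adjoin_map, Set.image_singleton]
  rw [← h1]
  exact (IntermediateField.mem_map _).2 ⟨R, h, rfl⟩

lemma aeval_mem_adjoin {L : Type} [Field L] [Algebra k L] (T : L) (P : k[X]) :
    aeval T P ∈ k⟮T⟯ := by
  have h1 : aeval T P = ((aeval (AdjoinSimple.gen k T) P : k⟮T⟯) : L) := by
    rw [← IntermediateField.AdjoinSimple.algebraMap_gen k T]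
    exact (aeval_algebraMap_apply L (AdjoinSimple.gen k T) P)
  rw [h1]
  exact Subtype.mem _

lemma zpow_unit {u : kˣ} {ε : ℤ} : (((u ^ ε : kˣ)) : k) = (u : k) ^ ε := by
  simp

/-- the final step -/
theorem fano_core {p q a' b' : ℕ} (h : Tri d p q a' b') (hM : Model a₂ ψ d (bet k a' b') τ v)
    {χ : G →* kˣ} {ε : ℤ} (hε : (ε = 1 ∧ χ = ψ⁻¹) ∨ (ε = -1 ∧ χ = ψ)) {ι : Type} [Fintype ι]
    {W : Type} [AddCommGroup W] [Module k W] {Θ : (ι → Place k K₁) × Place k K₂ → W}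
    (P2' : ∀ (u : G) z, Θ (z.1, act a₂ u z.2) = ((χ u : kˣ) : k) • Θ z)
    (P3 : KillsF (((curve (k := k) K₁).pow ι).prod (curve (k := k) K₂)) Θ)
    {x : ι → Place k K₁} {e₀ : Place k K₂} {τ₀ v₀ A₀ : k}
    (he₀ : Vl e₀ (algebraMap F₂ K₂ τ) τ₀) (hv₀ : Vl e₀ v v₀) (hv₀0 : v₀ ≠ 0)
    (hA₀ : A₀ ≠ 0) (hA₀τ : A₀ ^ p = τ₀)
    {s : ℕ} {A B Fq : k[X]} (hAB : A ^ p - B ^ q = Fq) (hAd : A.natDegree = a' * s)
    (hAl : A.leadingCoeff = A₀) (hB : B ≠ 0) (hFm : Fq.Monic) (hFd : Fq.natDegree = d * s)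
    {L : Type} [Field L] [Algebra k L] [IsFF k L] {T Y R₀ : L} {κ : k}
    {s' : Place k L → (ι → Place k K₁)} (hT : Transcendental k T)
    (hs : s' ∈ ((curve (k := k) K₁).pow ι).mor L) (hκ : κ ≠ 0)
    (hinf : ∀ Q : Place k L, Q.ord T < 0 → ∃ c, c ≠ 0 ∧ Vl Q Y c ∧
      ∀ e, Θ (s' Q, e) = (κ * c⁻¹) • Θ (x, e))
    {w₁ w₂ β₀ : k} (hβ₀ : β₀ ≠ 0) (hR₀ : R₀ ≠ 0) (hR₀T : R₀ ∈ k⟮T⟯)
    (hY : Y ^ d * (aeval T Fq) ^ ε = algebraMap k L β₀ * R₀ ^ d *
      ((T - algebraMap k L w₂) * (T - algebraMap k L w₁)⁻¹) ^ ε)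
    (hv : w₁ = w₂ → (∃ t : k, ∀ Q : Place k L, 0 < Q.ord (T - algebraMap k L t) →
      ∀ e, Θ (s' Q, e) = 0) ∨ ∃ t : k, A.eval t = 0 ∧ Fq.eval t ≠ 0 ∧ ∀ c : k, A ^ p ≠ C c * Fq) :
    Θ (x, e₀) = 0 := by
  obtain ⟨hd, hap, hbq, hab, hp, hq, ha, hb, hd2⟩ := h.pos
  have hε' : ε = 1 ∨ ε = -1 := hε.imp (fun h => h.1) (fun h => h.1)
  have hχ : ∀ u, ((χ u : kˣ) : k) = (((ψ u : kˣ) : k) ^ ε)⁻¹ := by
    intro u
    rcases hε with ⟨rfl, rfl⟩ | ⟨rfl, rfl⟩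
    · rw [MonoidHom.inv_apply, zpow_one, Units.val_inv_eq_inv_val]
    · rw [zpow_neg_one, inv_inv]
  have hA : A ≠ 0 := by
    rintro rfl
    rw [leadingCoeff_zero] at hAl
    exact hA₀ hAl.symm
  have hFne : Fq ≠ 0 := hFm.ne_zero
  have hA1 := aeval_ne hT hA
  have hB1 := aeval_ne hT hB
  have hF1 := aeval_ne hT hFne
  have hABL : aeval T A ^ p - aeval T B ^ q = aeval T Fq := by
    rw [← hAB, map_sub, map_pow, map_pow]
  let σ : L := aeval T A ^ p * (aeval T Fq)⁻¹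
  have hσT : ∀ Q : Place k L, Q.ord T < 0 → Vl Q σ τ₀ := by
    intro Q hQ
    have h1 := vl_sigma (p := p) hQ (A := A) (F := Fq) (N := a' * s) (M := d * s) hAd.le hFd.le
      (by rw [← hap]; ring) (by rw [← hFd]; exact hFm.leadingCoeff)
    have h2 : A.coeff (a' * s) = A₀ := by rw [← hAd]; exact hAl
    rwa [h2, hA₀τ] at h1
  obtain ⟨Sinf, hS1, hS2⟩ := poles hT
  have hLfin := IsFF.finite hT
  obtain ⟨Q₀, hQ₀⟩ : Sinf.Nonempty := by
    rw [Finset.nonempty_iff_ne_empty]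
    rintro rfl
    rw [Finset.sum_empty] at hS2
    have : 0 < finrank k⟮T⟯ L := finrank_pos
    omega
  have hQ₀' := (hS1 Q₀).1 hQ₀
  obtain ⟨L', _, _, _, φ, V, e, hemor, hVd, heinf, heval⟩ :=
    exists_points hM σ he₀ hv₀ ⟨Q₀, hσT Q₀ hQ₀'⟩
  have hφT : Transcendental k (φ T) := by
    intro hc
    exact hT ((isAlgebraic_algHom_iff φ φ.injective).1 hc)
  -- the element `V` is not zero
  have hVF : V ^ d = φ ((aeval T A * aeval T B * (aeval T Fq)⁻¹) ^ d * aeval T Fq) := by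
    rw [hVd, beta_identity h hF1 hABL]
  refine final_step (Z := ((curve (k := k) K₁).pow ι).prod (curve (k := k) K₂)) P3 (z₀ := (x, e₀))
    (T := φ T) (Y := φ Y * V ^ ε)
    (R := φ (R₀ * (aeval T A * aeval T B * (aeval T Fq)⁻¹) ^ ε)) (κ := κ * v₀ ^ ε)
    (s := fun Q => (s' (below φ Q), e Q)) hφT ?_ (mul_ne_zero hκ (zpow_ne_zero _ hv₀0)) ?_ hd
    (β := β₀) hβ₀ ?_ ?_ (w₁ := w₁) (w₂ := w₂) (c := ε) ?_ ?_ ?_
  · exact ⟨fun i => curve_below φ (hs i), hemor⟩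
  · intro Q hQ
    have hQ' := below_ord_neg hQ
    obtain ⟨c, hc0, hc, hΘ⟩ := hinf _ hQ'
    obtain ⟨u, hu1, hu2⟩ := heinf Q (hσT _ hQ')
    have hψ0 : ((ψ u : kˣ) : k) * v₀ ≠ 0 := mul_ne_zero (Units.ne_zero _) hv₀0
    refine ⟨c * (((ψ u : kˣ) : k) * v₀) ^ ε, mul_ne_zero hc0 (zpow_ne_zero _ hψ0),
      (vl_below hc).mul (hu2.zpow hψ0 ε), ?_⟩
    change Θ (s' (below φ Q), e Q) = _
    rw [hΘ, hu1]
    have h1 := P2' u (x, e₀)
    simp only at h1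
    rw [h1, smul_smul, hχ, mul_zpow]
    congr 1
    have h2 : ((ψ u : kˣ) : k) ^ ε ≠ 0 := zpow_ne_zero _ (Units.ne_zero _)
    have h3 : v₀ ^ ε ≠ 0 := zpow_ne_zero _ hv₀0
    field_simp
  · rw [map_mul, map_zpow₀]
    refine mul_ne_zero ((_root_.map_ne_zero φ).2 hR₀) (zpow_ne_zero _ ?_)
    rw [_root_.map_ne_zero]
    exact mul_ne_zero (mul_ne_zero hA1 hB1) (inv_ne_zero hF1)
  · apply mem_adjoin_map
    refine mul_mem hR₀T (zpow_mem ?_ _)
    exact mul_mem (mul_mem (aeval_mem_adjoin _ _) (aeval_mem_adjoin _ _))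
      (inv_mem (aeval_mem_adjoin _ _))
  · rcases hε' with rfl | rfl
    · intro hc
      have := Int.le_of_dvd (by norm_num) hc
      omega
    · intro hc
      have := Int.le_of_dvd (by norm_num) ((Int.dvd_neg).2 hc)
      omega
  · have h1 : (φ Y * V ^ ε) ^ d = φ (Y ^ d * (aeval T Fq) ^ ε *
        ((aeval T A * aeval T B * (aeval T Fq)⁻¹) ^ ε) ^ d) := by
      rw [mul_pow, ← zpow_natCast (V ^ ε), ← zpow_mul, mul_comm ε, zpow_mul, zpow_natCast, hVF,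
        ← map_pow, ← map_zpow₀, ← map_mul]
      congr 1
      rw [mul_zpow, ← zpow_natCast ((aeval T A * aeval T B * (aeval T Fq)⁻¹)) d, ← zpow_mul,
        ← zpow_natCast ((aeval T A * aeval T B * (aeval T Fq)⁻¹) ^ ε) d, ← zpow_mul,
        mul_comm (d : ℤ) ε]
      ring
    rw [h1, hY]
    simp only [map_mul, map_pow, map_zpow₀, map_sub, map_inv₀, AlgHom.commutes]
    ring
  · intro hw
    rcases hv hw with ⟨t, ht⟩ | ⟨t, ht1, ht2, ht3⟩
    · refine ⟨t, fun Q hQ => ?_⟩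
      refine ht _ ?_ _
      apply below_ord_pos (φ := φ)
      rwa [map_sub, φ.commutes]
    · refine ⟨t, fun Q hQ => ?_⟩
      have hQT : Vl (below φ Q) T t := by
        right
        have : 0 < (below φ Q).ord (T - algebraMap k L t) := by
          apply below_ord_pos (φ := φ)
          rwa [map_sub, φ.commutes]
        omega
      have hσ : Transcendental k σ := by
        intro hc
        obtain ⟨c, hc⟩ := alg_const hc
        apply ht3 c
        have h1 : aeval T (A ^ p - C c * Fq) = 0 := by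
          rw [map_sub, map_mul, map_pow, aeval_C, hc]
          change aeval T A ^ p - aeval T A ^ p * (aeval T Fq)⁻¹ * aeval T Fq = 0
          field_simp
          ring
        by_contra hne
        exact aeval_ne hT (sub_ne_zero.2 hne) h1
      have h1 : Vl (below φ Q) σ 0 := by
        have h2 := ((vl_aeval hQT A).pow p).mul ((vl_aeval hQT Fq).inv ht2)
        rwa [ht1, zero_pow hp.ne', zero_mul] at h2
      have h2 := heval Q 0 hσ h1
      obtain ⟨u, hu1, hu2⟩ := branch h hM (e Q) (Or.inl h2)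
      have h3 := P2' u (s' (below φ Q), e Q)
      simp only at h3
      rw [hu1] at h3
      have h4 : ((1 : k) - ((χ u : kˣ) : k)) • Θ (s' (below φ Q), e Q) = 0 := by
        rw [sub_smul, one_smul, ← h3, sub_self]
      rcases smul_eq_zero.1 h4 with h5 | h5
      · exfalso
        apply hu2
        rw [sub_eq_zero] at h5
        have h6 : χ u = 1 := Units.ext (by simpa using h5.symm)
        rcases hε with ⟨-, rfl⟩ | ⟨-, rfl⟩
        · rw [MonoidHom.inv_apply, inv_eq_one] at h6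
          exact h6
        · exact h6
      · exact h5

end Pool.Agent.H12.VZ
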