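import Mathlib

/-!
# Common zeros (M1)
-/

set_option autoImplicit false
set_option linter.overlappingInstances false
set_option linter.unusedSectionVars false

namespace Pool.Agent.H12.VZ

namespace ZeroAux

open MvPolynomial

variable {k : Type} [Field k] {ι : Type} [Fintype ι] [DecidableEq ι]

/-- set the variables of `S` to zero -/
noncomputable def kill (S : Finset ι) : MvPolynomial ι k →ₐ[k] MvPolynomial ι k :=
  aeval fun i => if i ∈ S then 0 else X i

/-- the ideal of the variables of `S` -/
noncomputable def PS (k : Type) [Field k] (S : Finset ι) : Ideal (MvPolynomial ι k) :=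
  RingHom.ker (kill (k := k) S)

instance (S : Finset ι) : (PS k S).IsPrime := RingHom.ker_isPrime _

theorem kill_insert (S : Finset ι) (i : ι) (p : MvPolynomial ι k) :
    kill (insert i S) p = kill {i} (kill S p) := by
  have h : (kill (k := k) (insert i S)) = (kill {i}).comp (kill S) := by
    apply MvPolynomial.algHom_ext
    intro j
    simp only [kill, AlgHom.comp_apply, aeval_X, Finset.mem_insert]
    by_cases h1 : j ∈ S
    · simp [h1]
    · by_cases h2 : j = i
      · subst h2
        simp [h1]
      · simp [h1, h2]
  rw [h, AlgHom.comp_apply]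

theorem PS_lt (S : Finset ι) {i : ι} (hi : i ∉ S) : PS k S < PS k (insert i S) := by
  refine lt_of_le_of_ne ?_ ?_
  · intro p hp
    unfold PS at hp ⊢
    rw [RingHom.mem_ker] at hp ⊢
    rw [kill_insert, hp, map_zero]
  · intro h
    have h1 : (X i : MvPolynomial ι k) ∈ PS k (insert i S) := by
      unfold PS
      rw [RingHom.mem_ker]
      simp [kill]
    rw [← h] at h1
    unfold PS at h1
    rw [RingHom.mem_ker] at h1
    simp only [kill, aeval_X, hi, if_false] at h1
    exact MvPolynomial.X_ne_zero i h1

theorem le_height (S : Finset ι) : (S.card : ℕ∞) ≤ (PS k S).height := by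
  induction S using Finset.induction_on with
  | empty => simp
  | insert i S hi ih =>
    rw [Finset.card_insert_of_notMem hi]
    push_cast
    exact (add_le_add_left ih 1).trans (Ideal.height_add_one_le_of_lt_of_isPrime (PS_lt S hi))

theorem PS_univ : PS k (Finset.univ : Finset ι) = vanishingIdeal k {(0 : ι → k)} := by
  ext p
  rw [mem_vanishingIdeal_singleton_iff]
  unfold PS
  rw [RingHom.mem_ker]
  have h : (kill (k := k) (Finset.univ : Finset ι)) =
      (Algebra.ofId k (MvPolynomial ι k)).comp (aeval (0 : ι → k)) := by
    apply MvPolynomial.algHom_ext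
    intro j
    simp [kill]
  rw [h, AlgHom.comp_apply]
  constructor
  · intro h1
    have h2 : Function.Injective (algebraMap k (MvPolynomial ι k)) :=
      (algebraMap k (MvPolynomial ι k)).injective
    exact h2 (by simpa [Algebra.ofId_apply] using h1)
  · intro h1
    rw [h1, map_zero]

end ZeroAux

open ZeroAux in
theorem exists_zero {k : Type} [Field k] [IsAlgClosed k] {ι κ : Type} [Fintype ι] [Fintype κ]
    (f : κ → MvPolynomial ι k) (h0 : ∀ i, MvPolynomial.eval 0 (f i) = 0)
    (hc : Fintype.card κ < Fintype.card ι) :
    ∃ z : ι → k, z ≠ 0 ∧ ∀ i, MvPolynomial.eval z (f i) = 0 := by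
  classical
  by_contra hcon
  push Not at hcon
  have hz : MvPolynomial.zeroLocus k (Ideal.span (Set.range f)) = {(0 : ι → k)} := by
    rw [MvPolynomial.zeroLocus_span]
    ext z
    simp only [Set.mem_range, forall_exists_index, forall_apply_eq_imp_iff, Set.mem_ofPred_eq,
      Set.mem_singleton_iff]
    constructor
    · intro h
      by_contra hne
      obtain ⟨i, hi⟩ := hcon z hne
      exact hi (by simpa [MvPolynomial.aeval_eq_eval] using h i)
    · rintro rfl i
      simpa [MvPolynomial.aeval_eq_eval] using h0 i
  have hr := MvPolynomial.vanishingIdeal_zeroLocus_eq_radical (K := k) (Ideal.span (Set.range f))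
  rw [hz] at hr
  have hmem : (MvPolynomial.vanishingIdeal k {(0 : ι → k)} : Ideal (MvPolynomial ι k)) ∈
      (Ideal.span (Set.range f)).minimalPrimes := by
    rw [← Ideal.radical_minimalPrimes, ← hr, Ideal.minimalPrimes_eq_subsingleton_self]
    exact Set.mem_singleton _
  have h1 := Ideal.height_le_card_of_mem_minimalPrimes_span (Set.finite_range f) hmem
  have h2 := le_height (k := k) (Finset.univ : Finset ι)
  rw [PS_univ] at h2
  have h3 : ((Set.range f).ncard : ℕ∞) ≤ (Fintype.card κ : ℕ∞) := by
    have : (Set.range f).ncard ≤ Fintype.card κ := by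
      rw [← Set.image_univ]
      refine (Set.ncard_image_le Set.finite_univ).trans ?_
      rw [Set.ncard_univ, Nat.card_eq_fintype_card]
    exact_mod_cast this
  have h4 := (h2.trans h1).trans h3
  rw [Finset.card_univ] at h4
  have h5 : Fintype.card ι ≤ Fintype.card κ := by exact_mod_cast h4
  omega

end Pool.Agent.H12.VZ
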