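import Pool.Agent.H12.VZ.Defs
import Pool.Agent.H12.VZ.Zero

/-!
# The polynomial identity (M2)
-/

set_option autoImplicit false
set_option linter.overlappingInstances false
set_option linter.unusedSectionVars false

namespace Pool.Agent.H12.VZ

open FF IntermediateField Module Polynomial Pool.Agent.W603.LV Pool.Agent.W619.PQ
  Pool.Agent.Q70.CH Pool.Agent.H25.VO

namespace SolveAux

/-- the polynomial with the leading term `A₀ X ^ n` and the other coefficients `z` -/
noncomputable def mono {S : Type} [CommRing S] (n : ℕ) (A₀ : S) (z : Fin n → S) : S[X] :=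
  C A₀ * X ^ n + ∑ i : Fin n, C (z i) * X ^ (i : ℕ)

theorem mono_map {S S' : Type} [CommRing S] [CommRing S'] (φ : S →+* S') (n : ℕ) (A₀ : S)
    (z : Fin n → S) : (mono n A₀ z).map φ = mono n (φ A₀) (fun i => φ (z i)) := by
  simp only [mono, Polynomial.map_add, Polynomial.map_mul, Polynomial.map_pow, map_C, map_X,
    Polynomial.map_sum]

theorem mono_tail {S : Type} [CommRing S] (n : ℕ) (z : Fin n → S) :
    (∑ i : Fin n, C (z i) * X ^ (i : ℕ) : S[X]).degree < n := by
  by_cases hn : n = 0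
  · subst hn
    simp
  · refine (degree_sum_le _ _).trans_lt ?_
    rw [Finset.sup_lt_iff (by simp)]
    intro i _
    refine (degree_C_mul_X_pow_le _ _).trans_lt ?_
    exact_mod_cast i.2

theorem mono_coeff_lt {S : Type} [CommRing S] (n : ℕ) (A₀ : S) (z : Fin n → S) (i : Fin n) :
    (mono n A₀ z).coeff i = z i := by
  unfold mono
  rw [coeff_add, coeff_C_mul, coeff_X_pow, if_neg (by have := i.2; omega), mul_zero, zero_add,
    finsetSum_coeff, Finset.sum_eq_single i]
  · simp
  · intro j _ hj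
    rw [coeff_C_mul, coeff_X_pow, if_neg (by intro h; exact hj (Fin.ext h.symm)), mul_zero]
  · intro h
    exact absurd (Finset.mem_univ i) h

theorem mono_coeff {S : Type} [CommRing S] (n : ℕ) (A₀ : S) (z : Fin n → S) :
    (mono n A₀ z).coeff n = A₀ := by
  unfold mono
  rw [coeff_add, coeff_C_mul, coeff_X_pow, if_pos rfl, mul_one,
    coeff_eq_zero_of_degree_lt (mono_tail n z), add_zero]

theorem mono_natDegree_le {S : Type} [CommRing S] (n : ℕ) (A₀ : S) (z : Fin n → S) :
    (mono n A₀ z).natDegree ≤ n := by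
  refine natDegree_le_of_degree_le ?_
  unfold mono
  refine (degree_add_le _ _).trans (max_le ?_ (mono_tail n z).le)
  exact (degree_C_mul_X_pow_le _ _)

theorem mono_natDegree {S : Type} [CommRing S] (n : ℕ) {A₀ : S} (hA : A₀ ≠ 0) (z : Fin n → S) :
    (mono n A₀ z).natDegree = n := by
  refine le_antisymm (mono_natDegree_le n A₀ z) ?_
  refine le_natDegree_of_ne_zero ?_
  rw [mono_coeff]
  exact hA

theorem mono_leadingCoeff {S : Type} [CommRing S] (n : ℕ) {A₀ : S} (hA : A₀ ≠ 0) (z : Fin n → S) :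
    (mono n A₀ z).leadingCoeff = A₀ := by
  rw [leadingCoeff, mono_natDegree n hA, mono_coeff]

/-- the version of `Fp` over a ring -/
noncomputable def FR {S ρ : Type} [CommRing S] [Fintype ρ] [DecidableEq ρ] (w : S) (l : ρ → S)
    (m : ρ → ℕ) (j₀ : ρ) : S[X] :=
  (X - C w) * (X - C (l j₀)) ^ (m j₀ - 1) * ∏ j ∈ Finset.univ.erase j₀, (X - C (l j)) ^ m j

theorem FR_map {S S' ρ : Type} [CommRing S] [CommRing S'] [Fintype ρ] [DecidableEq ρ]
    (φ : S →+* S') (w : S) (l : ρ → S) (m : ρ → ℕ) (j₀ : ρ) :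
    (FR w l m j₀).map φ = FR (φ w) (fun j => φ (l j)) m j₀ := by
  simp only [FR, Polynomial.map_mul, Polynomial.map_sub, Polynomial.map_pow, map_C, map_X,
    Polynomial.map_prod]

theorem FR_monic {S ρ : Type} [CommRing S] [Nontrivial S] [Fintype ρ] [DecidableEq ρ] (w : S)
    (l : ρ → S) (m : ρ → ℕ) (j₀ : ρ) : (FR w l m j₀).Monic := by
  unfold FR
  refine ((monic_X_sub_C w).mul ((monic_X_sub_C _).pow _)).mul ?_
  exact monic_prod_of_monic _ _ fun j _ => (monic_X_sub_C _).pow _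

theorem FR_natDegree {S ρ : Type} [CommRing S] [Nontrivial S] [Fintype ρ] [DecidableEq ρ] (w : S)
    (l : ρ → S) (m : ρ → ℕ) (j₀ : ρ) (hm : 0 < m j₀) :
    (FR w l m j₀).natDegree = ∑ j, m j := by
  unfold FR
  rw [Monic.natDegree_mul ((monic_X_sub_C w).mul ((monic_X_sub_C _).pow _))
      (monic_prod_of_monic _ _ fun j _ => (monic_X_sub_C _).pow _),
    Monic.natDegree_mul (monic_X_sub_C w) ((monic_X_sub_C _).pow _), natDegree_X_sub_C,
    (monic_X_sub_C (l j₀)).natDegree_pow, natDegree_X_sub_C,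
    natDegree_prod_of_monic _ _ fun j _ => (monic_X_sub_C (l j)).pow _]
  have h1 : ∀ j ∈ Finset.univ.erase j₀, ((X - C (l j)) ^ m j).natDegree = m j := by
    intro j _
    rw [(monic_X_sub_C (l j)).natDegree_pow, natDegree_X_sub_C, mul_one]
  have h3 : ∑ j ∈ Finset.univ.erase j₀, ((X - C (l j)) ^ m j).natDegree =
      ∑ j ∈ Finset.univ.erase j₀, m j := Finset.sum_congr rfl h1
  rw [h3]
  have h2 : m j₀ + ∑ x ∈ Finset.univ.erase j₀, m x = ∑ x, m x :=
    Finset.add_sum_erase Finset.univ m (Finset.mem_univ j₀)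
  omega

theorem FR_zero {S ρ : Type} [CommRing S] [Nontrivial S] [Fintype ρ] [DecidableEq ρ] (w : S)
    (m : ρ → ℕ) (j₀ : ρ) (hm : 0 < m j₀) :
    FR w (fun _ => 0) m j₀ = (X - C w) * X ^ (∑ j, m j - 1) := by
  unfold FR
  simp only [map_zero, sub_zero]
  rw [Finset.prod_pow_eq_pow_sum, mul_assoc, ← pow_add]
  have h2 : m j₀ + ∑ x ∈ Finset.univ.erase j₀, m x = ∑ x, m x :=
    Finset.add_sum_erase Finset.univ m (Finset.mem_univ j₀)
  have h3 : m j₀ - 1 + ∑ x ∈ Finset.univ.erase j₀, m x = ∑ x, m x - 1 := by omega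
  rw [h3]

theorem Fp_eq {k ρ : Type} [Field k] [Fintype ρ] [DecidableEq ρ] (w : k) (l : ρ → k)
    (m : ρ → ℕ) (j₀ : ρ) : Fp w l m j₀ = FR w l m j₀ := rfl

/-- a polynomial whose power is a multiple of `X ^ N` is a monomial -/
theorem eq_mono {k : Type} [Field k] {n N p : ℕ} (hp : 0 < p) {A₀ c : k} (hA : A₀ ≠ 0)
    (z : Fin n → k) (h : mono n A₀ z ^ p = C c * X ^ N) : z = 0 := by
  have hc : c ≠ 0 := by
    rintro rfl
    rw [map_zero, zero_mul] at h
    have h1 := pow_eq_zero_iff (hp.ne') |>.1 h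
    have h2 := mono_coeff n A₀ z
    rw [h1, coeff_zero] at h2
    exact hA h2.symm
  have h1 : mono n A₀ z ∣ X ^ N := by
    have h2 : mono n A₀ z ∣ C c * X ^ N := by
      rw [← h]
      exact dvd_pow_self _ hp.ne'
    exact (IsUnit.dvd_mul_left (isUnit_C.2 hc.isUnit)).1 h2
  obtain ⟨i, hi, hass⟩ := (dvd_prime_pow prime_X N).1 h1
  obtain ⟨u, hu⟩ := hass
  obtain ⟨e, he, hue⟩ := Polynomial.isUnit_iff.1 u.isUnit
  have h3 : mono n A₀ z * C e = X ^ i := by
    rw [hue]
    exact hu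
  have hin : i = n := by
    have h4 := congrArg natDegree h3
    rw [natDegree_mul_C he.ne_zero, mono_natDegree n hA, natDegree_X_pow] at h4
    exact h4.symm
  subst hin
  funext j
  have h5 := congrArg (fun P => P.coeff (j : ℕ)) h3
  simp only [coeff_mul_C, mono_coeff_lt, coeff_X_pow] at h5
  rw [if_neg (by have := j.2; omega)] at h5
  rcases mul_eq_zero.1 h5 with h6 | h6
  · exact h6
  · exact absurd h6 he.ne_zero

end SolveAux

open SolveAux in
theorem exists_poly {k : Type} [Field k] [CharZero k] [IsAlgClosed k] {ρ : Type} [Fintype ρ]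
    [DecidableEq ρ] {d p q a b s r : ℕ} (h : Tri d p q a b) (hs : 0 < s) (m : ρ → ℕ) (j₀ : ρ)
    (hm : 0 < m j₀) (hms : ∑ j, m j = d * s) (hr : s ≤ r) (ℓ : ρ → (Fin r → k) →ₗ[k] k)
    {A₀ C₀ : k} (hA : A₀ ≠ 0) (hC : C₀ ≠ 0) (hAC : A₀ ^ p - C₀ ^ q = 1) :
    ∃ (u : Fin r → k) (w : k) (A B : k[X]), A ^ p - B ^ q = Fp w (fun j => ℓ j u) m j₀ ∧
      A.natDegree = a * s ∧ A.leadingCoeff = A₀ ∧ B.natDegree = b * s ∧ B.leadingCoeff = C₀ ∧
      (u ≠ 0 ∨ ∀ c : k, A ^ p ≠ C c * Fp w (fun j => ℓ j u) m j₀) := by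
  classical
  simp only [Fp_eq]
  have hnum : a * p = d ∧ b * q = d ∧ a + b + 1 = d ∧ 2 ≤ p ∧ 2 ≤ q ∧ 3 ≤ d := by
    rcases h with ⟨rfl, rfl, rfl, rfl, rfl⟩ | ⟨rfl, rfl, rfl, rfl, rfl⟩ | ⟨rfl, rfl, rfl, rfl, rfl⟩ <;>
      decide
  obtain ⟨hap, hbq, habd, hp2, hq2, hd3⟩ := hnum
  let ι := Fin r ⊕ (Unit ⊕ (Fin (a * s) ⊕ Fin (b * s)))
  let R := MvPolynomial ι k
  let U : Fin r → R := fun i => MvPolynomial.X (Sum.inl i)
  let Wv : R := MvPolynomial.X (Sum.inr (Sum.inl ()))
  let Av : Fin (a * s) → R := fun i => MvPolynomial.X (Sum.inr (Sum.inr (Sum.inl i)))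
  let Bv : Fin (b * s) → R := fun i => MvPolynomial.X (Sum.inr (Sum.inr (Sum.inr i)))
  let Lv : ρ → R := fun j => ∑ i, MvPolynomial.C (ℓ j (fun t => if i = t then 1 else 0)) * U i
  let P : R[X] := mono (a * s) (MvPolynomial.C A₀) Av ^ p - mono (b * s) (MvPolynomial.C C₀) Bv ^ q
    - FR Wv Lv m j₀
  -- evaluation
  let u' : (ι → k) → Fin r → k := fun z i => z (Sum.inl i)
  let w' : (ι → k) → k := fun z => z (Sum.inr (Sum.inl ()))
  let A' : (ι → k) → Fin (a * s) → k := fun z i => z (Sum.inr (Sum.inr (Sum.inl i)))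
  let B' : (ι → k) → Fin (b * s) → k := fun z i => z (Sum.inr (Sum.inr (Sum.inr i)))
  have hLv : ∀ (z : ι → k) j, MvPolynomial.eval z (Lv j) = ℓ j (u' z) := by
    intro z j
    rw [LinearMap.pi_apply_eq_sum_univ (ℓ j) (u' z)]
    simp only [Lv, U, u', map_sum, map_mul, MvPolynomial.eval_C, MvPolynomial.eval_X, smul_eq_mul]
    exact Finset.sum_congr rfl fun i _ => mul_comm _ _
  have hP : ∀ z : ι → k, P.map (MvPolynomial.eval z) =
      mono (a * s) A₀ (A' z) ^ p - mono (b * s) C₀ (B' z) ^ q -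
        FR (w' z) (fun j => ℓ j (u' z)) m j₀ := by
    intro z
    simp only [P, Polynomial.map_sub, Polynomial.map_pow, mono_map, FR_map, hLv,
      MvPolynomial.eval_C, Av, Bv, Wv, MvPolynomial.eval_X, A', B', w']
  have hFdeg : ∀ z : ι → k, (FR (w' z) (fun j => ℓ j (u' z)) m j₀).natDegree = d * s := by
    intro z
    rw [← hms]
    exact FR_natDegree (w' z) _ m j₀ hm
  have hFmon : ∀ z : ι → k, (FR (w' z) (fun j => ℓ j (u' z)) m j₀).Monic := fun z =>
    FR_monic (w' z) _ m j₀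
  have hApd : a * s * p = d * s := by rw [← hap]; ring
  have hBqd : b * s * q = d * s := by rw [← hbq]; ring
  have hzero : ∀ z : ι → k, (∀ i : Fin (d * s), MvPolynomial.eval z (P.coeff i) = 0) →
      mono (a * s) A₀ (A' z) ^ p - mono (b * s) C₀ (B' z) ^ q -
        FR (w' z) (fun j => ℓ j (u' z)) m j₀ = 0 := by
    intro z hz
    rw [← hP]
    ext i
    rw [coeff_zero]
    rcases lt_trichotomy i (d * s) with hi | hi | hi
    · rw [coeff_map]
      exact hz ⟨i, hi⟩
    · rw [hP, hi, coeff_sub, coeff_sub]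
      have h1 : (mono (a * s) A₀ (A' z) ^ p).coeff (d * s) = A₀ ^ p := by
        have h2 : (mono (a * s) A₀ (A' z) ^ p).leadingCoeff = A₀ ^ p := by
          rw [leadingCoeff_pow, mono_leadingCoeff _ hA]
        have h3 : (mono (a * s) A₀ (A' z) ^ p).natDegree = d * s := by
          rw [natDegree_pow, mono_natDegree _ hA, ← hApd]
          ring
        rw [← h3]
        exact h2
      have h1' : (mono (b * s) C₀ (B' z) ^ q).coeff (d * s) = C₀ ^ q := by
        have h2 : (mono (b * s) C₀ (B' z) ^ q).leadingCoeff = C₀ ^ q := by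
          rw [leadingCoeff_pow, mono_leadingCoeff _ hC]
        have h3 : (mono (b * s) C₀ (B' z) ^ q).natDegree = d * s := by
          rw [natDegree_pow, mono_natDegree _ hC, ← hBqd]
          ring
        rw [← h3]
        exact h2
      have h2 : (FR (w' z) (fun j => ℓ j (u' z)) m j₀).coeff (d * s) = 1 := by
        have := (hFmon z).coeff_natDegree
        rwa [hFdeg z] at this
      rw [h1, h1', h2, hAC, sub_self]
    · rw [hP]
      refine coeff_eq_zero_of_natDegree_lt ?_
      refine lt_of_le_of_lt ?_ hi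
      refine (natDegree_sub_le _ _).trans (max_le ((natDegree_sub_le _ _).trans (max_le ?_ ?_)) ?_)
      · rw [natDegree_pow, mono_natDegree _ hA, ← hApd]
        exact le_of_eq (mul_comm _ _)
      · rw [natDegree_pow, mono_natDegree _ hC, ← hBqd]
        exact le_of_eq (mul_comm _ _)
      · rw [hFdeg z]
  -- the origin
  have h00 : ∀ i : Fin (d * s), MvPolynomial.eval (0 : ι → k) (P.coeff i) = 0 := by
    intro i
    rw [← coeff_map, hP]
    have e1 : ∀ (n : ℕ) (c : k) (z : Fin n → k), z = 0 → mono n c z = C c * X ^ n := by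
      intro n c z hz
      subst hz
      simp [mono]
    have e2 : FR (w' 0) (fun j => ℓ j (u' 0)) m j₀ = X ^ (d * s) := by
      have e3 : (fun j => ℓ j (u' 0)) = fun _ => (0 : k) := by
        funext j
        exact map_zero (ℓ j)
      have e4 : w' 0 = 0 := rfl
      rw [e3, e4]
      have e5 := FR_zero (0 : k) m j₀ hm
      rw [map_zero, sub_zero, ← pow_succ', hms] at e5
      have e6 : d * s - 1 + 1 = d * s := by
        have : 0 < d * s := by positivity
        omega
      rw [e6] at e5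
      exact e5
    rw [e1 _ _ (A' 0) rfl, e1 _ _ (B' 0) rfl, e2, mul_pow, mul_pow, ← pow_mul, ← pow_mul, hApd, hBqd,
      ← C_pow, ← C_pow]
    have e3 : C (A₀ ^ p) * X ^ (d * s) - C (C₀ ^ q) * X ^ (d * s) - X ^ (d * s) =
        C (A₀ ^ p - C₀ ^ q - 1) * (X ^ (d * s) : k[X]) := by
      rw [C_sub, C_sub, C_1]
      ring
    rw [e3, hAC, sub_self, map_zero, zero_mul, coeff_zero]
  have hcard : Fintype.card (Fin (d * s)) < Fintype.card ι := by
    simp only [ι, Fintype.card_sum, Fintype.card_fin, Fintype.card_unit]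
    have e1 : d * s = a * s + b * s + s := by
      rw [← habd]
      ring
    omega
  obtain ⟨z, hz0, hz⟩ := exists_zero (fun i : Fin (d * s) => P.coeff i) h00 hcard
  have hD := hzero z hz
  refine ⟨u' z, w' z, mono (a * s) A₀ (A' z), mono (b * s) C₀ (B' z), sub_eq_zero.1 hD,
    mono_natDegree _ hA _, mono_leadingCoeff _ hA _, mono_natDegree _ hC _,
    mono_leadingCoeff _ hC _, ?_⟩
  by_contra hcon
  push Not at hcon
  obtain ⟨hu, c, hc⟩ := hcon
  apply hz0
  have hF : FR (w' z) (fun j => ℓ j (u' z)) m j₀ = (X - C (w' z)) * X ^ (d * s - 1) := by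
    have e3 : (fun j => ℓ j (u' z)) = fun _ => (0 : k) := by
      funext j
      rw [hu]
      exact map_zero (ℓ j)
    rw [e3, ← hms]
    exact FR_zero (w' z) m j₀ hm
  have hAne : mono (a * s) A₀ (A' z) ≠ 0 := by
    intro h0
    have h2 := mono_leadingCoeff (a * s) hA (A' z)
    rw [h0, leadingCoeff_zero] at h2
    exact hA h2.symm
  have hc0 : c ≠ 0 := by
    rintro rfl
    rw [map_zero, zero_mul] at hc
    exact hAne (pow_eq_zero_iff (by omega) |>.1 hc)
  have hw : w' z = 0 := by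
    by_contra hw
    have h1 := congrArg (rootMultiplicity (w' z)) hc
    rw [hF] at h1
    have hne1 : (C c * ((X - C (w' z)) * X ^ (d * s - 1)) : k[X]) ≠ 0 := by
      refine mul_ne_zero (C_ne_zero.2 hc0) (mul_ne_zero (X_sub_C_ne_zero _) (pow_ne_zero _ X_ne_zero))
    have hne2 : ((X - C (w' z)) * X ^ (d * s - 1) : k[X]) ≠ 0 :=
      mul_ne_zero (X_sub_C_ne_zero _) (pow_ne_zero _ X_ne_zero)
    have h2 : rootMultiplicity (w' z) (X ^ (d * s - 1) : k[X]) = 0 := by
      apply rootMultiplicity_eq_zero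
      rw [IsRoot, eval_pow, eval_X]
      exact pow_ne_zero _ hw
    rw [rootMultiplicity_mul hne1, rootMultiplicity_C, rootMultiplicity_mul hne2, h2,
      rootMultiplicity_X_sub_C_self] at h1
    have h3 : rootMultiplicity (w' z) (mono (a * s) A₀ (A' z) ^ p) =
        p * rootMultiplicity (w' z) (mono (a * s) A₀ (A' z)) := by
      rw [← count_roots, roots_pow, Multiset.count_nsmul, count_roots]
    rw [h3] at h1
    have h4 : p ∣ 1 := Dvd.intro _ (h1.trans (by norm_num))
    have := Nat.le_of_dvd one_pos h4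
    omega
  have hF2 : FR (w' z) (fun j => ℓ j (u' z)) m j₀ = X ^ (d * s) := by
    rw [hF, hw, map_zero, sub_zero, ← pow_succ']
    congr 1
    have : 0 < d * s := by positivity
    omega
  rw [hF2] at hc hD
  have hA0 : A' z = 0 := eq_mono (by omega) hA (A' z) hc
  have hB : mono (b * s) C₀ (B' z) ^ q = C (c - 1) * X ^ (d * s) := by
    rw [hc] at hD
    rw [C_sub, C_1, sub_mul, one_mul]
    linear_combination (-1 : k[X]) * hD
  have hB0 : B' z = 0 := eq_mono (by omega) hC (B' z) hB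
  funext i
  rcases i with i | i | i | i
  · exact congrFun hu i
  · exact hw
  · exact congrFun hA0 i
  · exact congrFun hB0 i

end Pool.Agent.H12.VZ
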