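import Pool.Agent.H12.VZ.Fano1
import Pool.Agent.H12.VZ.Solve

/-!
# The vanishing theorem for symmetric functionals on `X ^ n × E`
-/

set_option autoImplicit false
set_option linter.overlappingInstances false
set_option linter.unusedSectionVars false

namespace Pool.Agent.H12.VZ

open FF IntermediateField Module Polynomial Pool.Agent.W603.LV Pool.Agent.W619.PQ
  Pool.Agent.Q70.CH Pool.Agent.H25.VO

section space

variable {k : Type} [Field k] [CharZero k] [IsAlgClosed k] {F : Type} [Field F] [Algebra k F]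
  [IsFF k F]

/-- a space of functions with poles bounded by `z`, without constants, and their values -/
lemma exists_space {g : ℕ} (hg : IsGenus k F g) {ι : Type} [Fintype ι] (z : ι → Place k F)
    {ρ : Type} (r : ρ → Place k F) (hzr : ∀ i j, z i ≠ r j) :
    ∃ (N : ℕ) (H : (Fin N → k) →ₗ[k] F) (ℓ : ρ → (Fin N → k) →ₗ[k] k), Fintype.card ι ≤ N + g ∧
      (∀ u, u ≠ 0 → Transcendental k (H u)) ∧ (∀ u, u ≠ 0 → ∀ P : Place k F, - P.ord (H u) ≤ cnt z P) ∧
      (∀ u j, Vl (r j) (H u) (ℓ j u)) := by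
  classical
  let D : Place k F →₀ ℤ := ∑ i, Finsupp.single (z i) (1 : ℤ)
  have hDP : ∀ P, D P = cnt z P := fun P => sum_single_apply z P
  have hD : ddeg D = Fintype.card ι := by
    have h2 : ∀ s : Finset ι, ddeg (∑ i ∈ s, Finsupp.single (z i) (1 : ℤ) : Place k F →₀ ℤ) =
        s.card := by
      intro s
      induction s using Finset.induction_on with
      | empty => simp [ddeg_zero]
      | insert a s ha ih =>
        rw [Finset.sum_insert ha, ddeg_add, ih, ddeg_single, deg_one,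
          Finset.card_insert_of_notMem ha]
        push_cast; ring
    rw [← Finset.card_univ]
    exact h2 _
  have hell := riemann_ineq hg D
  rw [hD] at hell
  have hge : ∀ (P : Place k F), (∀ i, z i ≠ P) → ∀ f ∈ LL D, Ge P 0 f := by
    intro P hP f hf
    rcases mem_LL.1 hf with h | h
    · exact Or.inl h
    · right
      have h1 := h P
      have h2 : cnt z P = 0 := by
        unfold cnt
        rw [Finset.card_eq_zero, Finset.filter_eq_empty_iff]
        intro i _; exact hP i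
      rw [hDP, h2] at h1
      simpa using h1
  let c : Submodule k (LL D) := (LinearMap.range (Algebra.linearMap k F)).comap (LL D).subtype
  obtain ⟨c', hc'⟩ := Submodule.exists_isCompl c
  have hcr : finrank k c ≤ 1 := by
    have h1 : finrank k c = finrank k (c.map (LL D).subtype) :=
      (LinearEquiv.finrank_eq (Submodule.equivMapOfInjective (LL D).subtype
        (Submodule.injective_subtype _) c))
    rw [h1]
    have h2 : c.map (LL D).subtype ≤ LinearMap.range (Algebra.linearMap k F) := by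
      rintro _ ⟨f, hf, rfl⟩
      exact hf
    have h3 := Submodule.finrank_mono h2
    have h4 := LinearMap.finrank_range_le (Algebra.linearMap k F)
    rw [Module.finrank_self] at h4
    omega
  have hsum := Submodule.finrank_add_eq_of_isCompl hc'
  have hfree : Module.Free k c' := Module.Free.of_divisionRing k c'
  let b := Module.finBasis k c'
  let N := finrank k c'
  let H : (Fin N → k) →ₗ[k] F := (LL D).subtype ∘ₗ c'.subtype ∘ₗ (b.equivFun.symm : (Fin N → k) →ₗ[k] c')
  have hHmem : ∀ u, H u ∈ LL D := fun u => Subtype.mem _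
  let ℓ : ρ → (Fin N → k) →ₗ[k] k := fun j =>
    { toFun := fun u => vv (r j) (H u)
      map_add' := by
        intro u u'
        have h1 := vv_spec (hge (r j) (fun i => hzr i j) _ (hHmem (u + u')))
        rw [map_add] at h1
        rw [map_add]
        exact h1.unique ((vv_spec (hge (r j) (fun i => hzr i j) _ (hHmem u))).add
          (vv_spec (hge (r j) (fun i => hzr i j) _ (hHmem u'))))
      map_smul' := by
        intro a u
        have h1 := vv_spec (hge (r j) (fun i => hzr i j) _ (hHmem (a • u)))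
        rw [map_smul, Algebra.smul_def] at h1
        rw [map_smul, Algebra.smul_def]
        exact h1.unique ((vv_spec (hge (r j) (fun i => hzr i j) _ (hHmem u))).smul a) }
  have hne : ∀ u, u ≠ 0 → H u ≠ 0 := by
    intro u hu h0
    apply hu
    have h1 : c'.subtype (b.equivFun.symm u) = 0 := Subtype.ext h0
    have h2 : b.equivFun.symm u = 0 := Subtype.ext h1
    exact (LinearEquiv.map_eq_zero_iff _).1 h2
  refine ⟨N, H, ℓ, ?_, ?_, ?_, ?_⟩
  · unfold ell at hell
    have : (finrank k c : ℤ) + (N : ℤ) = finrank k (LL D) := by exact_mod_cast hsum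
    omega
  · intro u hu hc
    obtain ⟨γ, hγ⟩ := alg_const hc
    apply hne u hu
    have h1 : c'.subtype (b.equivFun.symm u) ∈ c := ⟨γ, hγ⟩
    have h2 : c'.subtype (b.equivFun.symm u) ∈ c' := Subtype.mem _
    have h3 : c'.subtype (b.equivFun.symm u) ∈ c ⊓ c' := ⟨h1, h2⟩
    rw [hc'.inf_eq_bot, Submodule.mem_bot] at h3
    exact congrArg Subtype.val h3
  · intro u hu P
    have h1 := (mem_LL.1 (hHmem u)).resolve_left (hne u hu) P
    rw [hDP] at h1
    omega
  · intro u j
    exact vv_spec (hge (r j) (fun i => hzr i j) _ (hHmem u))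

/-- the order of the norm of `b` at `t` modulo `d` -/
lemma norm_mod' {d : ℕ} {ε : ℤ} {b : F} {ρ : Type} [Fintype ρ] {r : ρ → Place k F}
    (hr : Function.Injective r) (h1 : ∀ P, P ∉ Set.range r → (d : ℤ) ∣ P.ord b) {m : ρ → ℕ}
    (h2 : ∀ j, (d : ℤ) ∣ (r j).ord b + ε * m j) {h : F} (hh : Transcendental k h) {l : ρ → k}
    (hl : ∀ j, Vl (r j) h (l j)) {n : k →₀ ℤ}
    (hn : ∀ t, ∀ S : Finset (Place k F), (∀ P, P ∈ S ↔ 0 < P.ord (h - algebraMap k F t)) →
        n t = ∑ P ∈ S, P.ord b) (t : k) [DecidableEq k] :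
    (d : ℤ) ∣ n t + ε * ∑ j, if l j = t then (m j : ℤ) else 0 := by
  classical
  have hht : Transcendental k (h - algebraMap k F t) := by
    intro hc
    apply hh
    have := hc.add (isAlgebraic_algebraMap (R := k) (A := F) t)
    simpa using this
  obtain ⟨S, hS, -, -⟩ := zeros hht
  have h4 := hn t S hS
  rw [← Finset.sum_filter_add_sum_filter_not S (fun P => P ∈ Set.range r)] at h4
  have h5 : (d : ℤ) ∣ ∑ P ∈ S.filter (fun P => ¬ P ∈ Set.range r), P.ord b :=
    Finset.dvd_sum fun P hP => h1 P (Finset.mem_filter.1 hP).2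
  have h6 : ∑ P ∈ S.filter (fun P => P ∈ Set.range r), P.ord b =
      ∑ j, if l j = t then (r j).ord b else 0 := by
    rw [← Finset.sum_filter]
    symm
    apply Finset.sum_bij (fun j _ => r j)
    · intro j hj
      rw [Finset.mem_filter] at hj ⊢
      exact ⟨(hS _).2 ((ord_pos_iff hh (hl j)).2 hj.2), ⟨j, rfl⟩⟩
    · intro j _ j' _ hjj
      exact hr hjj
    · intro P hP
      rw [Finset.mem_filter] at hP
      obtain ⟨hP1, j, rfl⟩ := hP
      refine ⟨j, ?_, rfl⟩
      rw [Finset.mem_filter]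
      exact ⟨Finset.mem_univ _, (ord_pos_iff hh (hl j)).1 ((hS _).1 hP1)⟩
    · intro j _; rfl
  have h7 : (d : ℤ) ∣ ∑ j, ((if l j = t then (r j).ord b else 0) +
      ε * if l j = t then (m j : ℤ) else 0) := by
    apply Finset.dvd_sum
    intro j _
    split_ifs
    · exact h2 j
    · simp
  have h8 : n t + ε * ∑ j, (if l j = t then (m j : ℤ) else 0) =
      (∑ j, ((if l j = t then (r j).ord b else 0) + ε * if l j = t then (m j : ℤ) else 0)) +
        ∑ P ∈ S.filter (fun P => ¬ P ∈ Set.range r), P.ord b := by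
    rw [h4, h6, Finset.sum_add_distrib, Finset.mul_sum]; ring
  rw [h8]
  exact dvd_add h7 h5

end space

section fp

variable {k L : Type} [Field k] [Field L] [Algebra k L] {ρ : Type} [Fintype ρ] [DecidableEq ρ]

lemma Fp_monic (w : k) (l : ρ → k) (m : ρ → ℕ) (j₀ : ρ) : (Fp w l m j₀).Monic := by
  unfold Fp
  refine Monic.mul (Monic.mul (monic_X_sub_C w) ((monic_X_sub_C _).pow _)) ?_
  exact monic_prod_of_monic _ _ fun j _ => (monic_X_sub_C _).pow _

lemma Fp_natDegree (w : k) (l : ρ → k) (m : ρ → ℕ) {j₀ : ρ} (h0 : 0 < m j₀) :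
    (Fp w l m j₀).natDegree = ∑ j, m j := by
  unfold Fp
  rw [Monic.natDegree_mul (Monic.mul (monic_X_sub_C w) ((monic_X_sub_C _).pow _))
    (monic_prod_of_monic _ _ fun j _ => (monic_X_sub_C _).pow _),
    Monic.natDegree_mul (monic_X_sub_C w) ((monic_X_sub_C _).pow _), natDegree_X_sub_C,
    natDegree_pow, natDegree_X_sub_C, natDegree_prod_of_monic _ _ fun j _ => (monic_X_sub_C _).pow _]
  simp only [natDegree_pow, natDegree_X_sub_C, mul_one]
  rw [← Finset.add_sum_erase _ _ (Finset.mem_univ j₀)]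
  omega

lemma aeval_Fp {T : L} (hT : Transcendental k T) (w : k) (l : ρ → k) (m : ρ → ℕ) {j₀ : ρ}
    (h0 : 0 < m j₀) : aeval T (Fp w l m j₀) = (∏ j, (T - algebraMap k L (l j)) ^ m j) *
      ((T - algebraMap k L w) * (T - algebraMap k L (l j₀))⁻¹) := by
  unfold Fp
  rw [map_mul, map_mul, map_pow, map_prod]
  simp only [map_pow, map_sub, aeval_X, aeval_C]
  rw [← Finset.mul_prod_erase _ _ (Finset.mem_univ j₀)]
  obtain ⟨c, hc⟩ : ∃ c, m j₀ = c + 1 := ⟨m j₀ - 1, by omega⟩
  have h1 := sub_ne hT (l j₀)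
  rw [hc, Nat.add_sub_cancel, pow_succ]
  field_simp

end fp

lemma exists_div' {k : Type} {n : k →₀ ℤ} {d : ℕ} (h : ∀ t, (d : ℤ) ∣ n t) :
    ∃ m : k →₀ ℤ, n = d • m := by
  classical
  let m : k →₀ ℤ := n.mapRange (fun j => j / d) (by simp)
  refine ⟨m, ?_⟩
  ext t
  rw [Finsupp.smul_apply, nsmul_eq_mul]
  change n t = d * (n t / d)
  rw [Int.mul_ediv_cancel' (h t)]

lemma rat_mem {k L : Type} [Field k] [Field L] [Algebra k L] (T : L) (n : k →₀ ℤ) :
    rat T n ∈ k⟮T⟯ := by
  unfold rat Finsupp.prod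
  refine prod_mem fun t _ => zpow_mem ?_ _
  exact sub_mem (mem_adjoin_simple_self k T) (IntermediateField.algebraMap_mem _ t)

lemma rat_sum {k L : Type} [Field k] [Field L] [Algebra k L] {T : L} (hT : Transcendental k T)
    {ρ : Type} [Fintype ρ] (l : ρ → k) (m : ρ → ℕ) :
    rat T (∑ j, Finsupp.single (l j) (m j : ℤ)) = ∏ j, (T - algebraMap k L (l j)) ^ m j := by
  classical
  have h1 : ∀ s : Finset ρ, rat T (∑ j ∈ s, Finsupp.single (l j) (m j : ℤ)) =
      ∏ j ∈ s, (T - algebraMap k L (l j)) ^ m j := by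
    intro s
    induction s using Finset.induction_on with
    | empty => rw [Finset.sum_empty, Finset.prod_empty, rat_zero]
    | insert a s ha ih =>
      rw [Finset.sum_insert ha, Finset.prod_insert ha, rat_add hT, ih, rat_single, zpow_natCast]
  exact h1 _

variable {k : Type} [Field k] [CharZero k] [IsAlgClosed k] {F₁ F₂ K₁ K₂ : Type} [Field F₁]
  [Algebra k F₁] [IsFF k F₁] [Field F₂] [Algebra k F₂] [IsFF k F₂] [Field K₁] [Algebra k K₁]
  [IsFF k K₁] [Field K₂] [Algebra k K₂] [IsFF k K₂] [Algebra F₁ K₁] [IsScalarTower k F₁ K₁]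
  [Algebra F₂ K₂] [IsScalarTower k F₂ K₂] {G : Type} [CommGroup G] [Fintype G]
  {a₁ : G →* (K₁ ≃ₐ[k] K₁)} {a₂ : G →* (K₂ ≃ₐ[k] K₂)} {ψ : G →* kˣ} {d : ℕ} {τ : F₂} {v : K₂}

/-- the case of points which are not over branch points, with normalized `y` -/
lemma vanish_joint_aux {p q a' b' : ℕ} (h : Tri d p q a' b')
    (hM : Model a₂ ψ d (bet k a' b') τ v)
    {χ : G →* kˣ} {ε : ℤ} (hε : (ε = 1 ∧ χ = ψ⁻¹) ∨ (ε = -1 ∧ χ = ψ)) {g s : ℕ} {ρ : Type} [Fintype ρ]
    [Nonempty ρ] {y : K₁} {b : F₁} {r : ρ → Place k F₁} {m : ρ → ℕ}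
    (hD : Data a₁ F₁ χ d ε g s y b r m) {ι : Type} [Fintype ι] [DecidableEq ι]
    (hι : g + s ≤ Fintype.card ι) {W : Type} [AddCommGroup W] [Module k W]
    {Θ : (ι → Place k K₁) × Place k K₂ → W}
    (P1 : ∀ (π : Equiv.Perm ι) z, Θ (fun i => z.1 (π i), z.2) = Θ z)
    (P2 : ∀ (u : ι → G) z, Θ (fun i => act a₁ (u i) (z.1 i), z.2) =
      (((χ (∏ i, u i))⁻¹ : kˣ) : k) • Θ z)
    (P2' : ∀ (u : G) z, Θ (z.1, act a₂ u z.2) = ((χ u : kˣ) : k) • Θ z)
    (P3 : KillsF (((curve (k := k) K₁).pow ι).prod (curve (k := k) K₂)) Θ)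
    {x : ι → Place k K₁} {e₀ : Place k K₂} {z : ι → Place k F₁} (hz : ∀ i, ∃ e, Over (x i) (z i) e)
    (hbz : ∀ i, (z i).ord b = 0) (hzr : ∀ i j, z i ≠ r j) {τ₀ : k}
    (he₀ : Vl e₀ (algebraMap F₂ K₂ τ) τ₀) (h0 : τ₀ ≠ 0) (h1 : τ₀ ≠ 1) : Θ (x, e₀) = 0 := by
  classical
  obtain ⟨hd, hap, hbq, hab, hp, hq, ha, hb, hd2⟩ := h.pos
  -- the value of `v`
  obtain ⟨v₀, hv₀0, hv₀⟩ : ∃ v₀, v₀ ≠ 0 ∧ Vl e₀ v v₀ := by
    have h2 : Vl e₀ (v ^ d) ((bet k a' b').eval τ₀) := by
      rw [hM.root]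
      have h3 : algebraMap F₂ K₂ (aeval τ (bet k a' b')) =
          aeval (algebraMap F₂ K₂ τ) (bet k a' b') := (aeval_algebraMap_apply K₂ τ _).symm
      rw [h3]
      exact vl_aeval he₀ _
    have h3 : (bet k a' b').eval τ₀ ≠ 0 := by
      unfold bet
      rw [eval_mul, eval_pow, eval_pow, eval_sub, eval_X, eval_C]
      exact mul_ne_zero (pow_ne_zero _ h0) (pow_ne_zero _ (sub_ne_zero.2 h1))
    obtain ⟨h4, h5⟩ := h2.ne_zero h3
    have hvne : v ≠ 0 := by
      rintro rfl
      exact h4 (zero_pow hd.ne')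
    rw [e₀.ord_pow] at h5
    have h6 : e₀.ord v = 0 := by
      rcases mul_eq_zero.1 h5 with h7 | h7
      · omega
      · exact h7
    obtain ⟨c, hc⟩ := exists_vl e₀ (f := v) (Or.inr h6.ge)
    exact ⟨c, hc.ne_zero_of_ord hvne h6, hc⟩
  -- the leading coefficients
  obtain ⟨A₀, hA₀⟩ := IsAlgClosed.exists_pow_nat_eq τ₀ hp
  obtain ⟨C₀, hC₀⟩ := IsAlgClosed.exists_pow_nat_eq (τ₀ - 1) hq
  have hA₀0 : A₀ ≠ 0 := by
    rintro rfl
    rw [zero_pow hp.ne'] at hA₀
    exact h0 hA₀.symm
  have hC₀0 : C₀ ≠ 0 := by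
    rintro rfl
    rw [zero_pow hq.ne'] at hC₀
    exact (sub_ne_zero.2 h1) hC₀.symm
  -- functions
  obtain ⟨j₀⟩ := ‹Nonempty ρ›
  have hm0 := (hD.pos j₀).1
  have hs : 0 < s := by
    by_contra hc
    have h2 : s = 0 := by omega
    have h3 := hD.sum
    rw [h2, mul_zero, Finset.sum_eq_zero_iff] at h3
    have := h3 j₀ (Finset.mem_univ _)
    omega
  obtain ⟨N, H, ℓ, hN, hH1, hH2, hH3⟩ := exists_space hD.genus z r hzr
  obtain ⟨u, w, A, B, hAB, hAd, hAl, hBd, hBl, halt⟩ := exists_poly h hs m j₀ hm0 hD.sum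
    (r := N) (by omega) ℓ hA₀0 hC₀0 (by rw [hA₀, hC₀]; ring)
  have hB : B ≠ 0 := by
    rintro rfl
    rw [leadingCoeff_zero] at hBl
    exact hC₀0 hBl.symm
  set l : ρ → k := fun j => ℓ j u with hl
  have hFm := Fp_monic w l m j₀
  have hFd : (Fp w l m j₀).natDegree = d * s := by rw [Fp_natDegree w l m hm0, hD.sum]
  have hε' : ε = 1 ∨ ε = -1 := hε.imp (fun h => h.1) (fun h => h.1)
  by_cases hu : u = 0
  · -- constant points of the first curve
    have hl0 : ∀ j, l j = 0 := by
      intro j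
      rw [hl, hu]
      exact map_zero _
    have hT := hM.trans
    have hTne : τ ≠ 0 := by
      intro hc
      rw [hc] at hT
      exact hT isAlgebraic_zero
    refine fano_core h hM hε P2' P3 he₀ hv₀ hv₀0 hA₀0 hA₀ hAB hAd hAl hB hFm hFd (L := F₂) (T := τ)
      (Y := 1) (R₀ := (τ ^ s) ^ ε) (κ := 1) (s' := fun _ => x) hT ?_ one_ne_zero ?_ (w₁ := l j₀)
      (w₂ := w) (β₀ := 1) one_ne_zero (zpow_ne_zero _ (pow_ne_zero _ hTne)) ?_ ?_ ?_
    · intro i
      exact curve_const _ _ _
    · intro Q _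
      refine ⟨1, one_ne_zero, Vl.one Q, fun e => ?_⟩
      rw [inv_one, mul_one, one_smul]
    · exact zpow_mem (pow_mem (mem_adjoin_simple_self k τ) _) _
    · rw [aeval_Fp hT w l m hm0]
      have h2 : ∏ j, (τ - algebraMap k F₂ (l j)) ^ m j = (τ ^ s) ^ d := by
        have h3 : ∀ j ∈ Finset.univ, (τ - algebraMap k F₂ (l j)) ^ m j = τ ^ m j := by
          intro j _
          rw [hl0, map_zero, sub_zero]
        rw [Finset.prod_congr rfl h3, Finset.prod_pow_eq_pow_sum, hD.sum, ← pow_mul, mul_comm]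
      have h4 : ((τ ^ s) ^ d) ^ ε = ((τ ^ s) ^ ε) ^ d := by
        rw [← zpow_natCast (τ ^ s) d, ← zpow_mul, ← zpow_natCast ((τ ^ s) ^ ε) d, ← zpow_mul, mul_comm]
      rw [h2, mul_zpow, one_pow, map_one, one_mul, one_mul, h4]
    · intro hw
      right
      have hw0 : w = 0 := by rw [← hw]; exact hl0 j₀
      have hFX : Fp w l m j₀ = X ^ (d * s) := by
        unfold Fp
        have h3 : ∀ j ∈ Finset.univ.erase j₀, (X - C (l j)) ^ m j = X ^ m j := by
          intro j _
          rw [hl0, C_0, sub_zero]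
        rw [Finset.prod_congr rfl h3, Finset.prod_pow_eq_pow_sum, hl0, hw0, C_0, sub_zero, ← pow_succ',
          ← pow_add, ← hD.sum, ← Finset.add_sum_erase _ _ (Finset.mem_univ j₀)]
        congr 1
        omega
      have halt' := halt.resolve_left (fun hc => hc hu)
      by_contra hc
      push Not at hc
      -- all roots of `A` are zero
      have hroots : ∀ t ∈ A.roots, t = 0 := by
        intro t ht
        by_contra ht0
        obtain ⟨c, hc⟩ := hc t (isRoot_of_mem_roots ht) (by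
          rw [hFX, eval_pow, eval_X]
          exact pow_ne_zero _ ht0)
        exact halt' c hc
      have h2 := (IsAlgClosed.splits A).eq_prod_roots
      have h3 : A.roots = Multiset.replicate (Multiset.card A.roots) 0 :=
        Multiset.eq_replicate.2 ⟨rfl, hroots⟩
      have h4 : Multiset.card A.roots = a' * s := by
        rw [← hAd]
        exact (splits_iff_card_roots.1 (IsAlgClosed.splits A))
      rw [h3, Multiset.map_replicate, Multiset.prod_replicate, h4, C_0, sub_zero, hAl] at h2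
      apply halt' (A₀ ^ p)
      rw [hFX]
      nth_rewrite 1 [h2]
      rw [mul_pow, ← C_pow, ← pow_mul]
      congr 2
      rw [← hap]; ring
  · -- the main case
    set f := H u with hf
    have hft := hH1 u hu
    have hfp := hH2 u hu
    have hfl : ∀ j, Vl (r j) f (l j) := hH3 u
    obtain ⟨L, _, _, _, T, Y, κ, s', β, n, hT, hs', hκ, hinf, hfib, hβ, hYn, hn, -⟩ :=
      test_curve hD.quot x z hz f hft hfp hD.ne hD.eig hd hD.root hbz
        (fun x' (e : Place k K₂) => Θ (x', e)) (fun π x' => by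
          ext1 e
          exact P1 π (x', e)) (fun u' x' => by
          ext1 e
          exact P2 u' (x', e))
    obtain ⟨μ, hμ⟩ := exists_div' (n := n + ε • ∑ j, Finsupp.single (l j) (m j : ℤ)) (d := d) (by
      intro t
      have h2 := norm_mod' hD.inj hD.unram hD.ram hft hfl hn t
      rw [Finsupp.add_apply, Finsupp.smul_apply, Finsupp.finsetSum_apply, smul_eq_mul]
      simp only [Finsupp.single_apply]
      exact h2)
    refine fano_core h hM hε P2' P3 he₀ hv₀ hv₀0 hA₀0 hA₀ hAB hAd hAl hB hFm hFd (L := L) (T := T)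
      (Y := Y) (R₀ := rat T μ) (κ := κ) (s' := s') hT hs' hκ ?_ (w₁ := l j₀) (w₂ := w) (β₀ := β) hβ
      (rat_ne hT μ) (rat_mem T μ) ?_ ?_
    · intro Q hQ
      obtain ⟨c, hc0, hc, hΘ⟩ := hinf Q hQ
      exact ⟨c, hc0, hc, fun e => congrFun hΘ e⟩
    · rw [aeval_Fp hT w l m hm0, mul_zpow, hYn, ← rat_sum hT]
      have h2 : rat T n * (rat T (∑ j, Finsupp.single (l j) (m j : ℤ))) ^ ε = rat T μ ^ d := by
        rw [← rat_nsmul hT, ← hμ, rat_add hT]
        congr 1
        rcases hε' with rfl | rfl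
        · rw [zpow_one, one_smul]
        · rw [zpow_neg_one, neg_smul, one_smul, rat_neg]
      rw [← h2]
      ring
    · intro _
      left
      refine ⟨l j₀, fun Q hQ e => ?_⟩
      obtain ⟨i, e', hie⟩ := hfib Q _ hQ (r j₀) (ord_pos_of_vl hft (hfl j₀))
      have h2 : ¬ (d : ℤ) ∣ (r j₀).ord b := by
        intro hc
        have h3 := (dvd_add_right hc).1 (hD.ram j₀)
        have h4 : (d : ℤ) ∣ m j₀ := by
          rcases hε' with rfl | rfl
          · simpa using h3
          · simpa using h3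
        have h5 := Int.le_of_dvd (by exact_mod_cast hm0) h4
        have := (hD.pos j₀).2
        omega
      exact vanish_branch (Ψ := fun x' => Θ (x', e)) hD.quot hD.ne hD.eig hD.root
        (fun u' x' => P2 u' (x', e)) hie h2

end Pool.Agent.H12.VZ
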