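import Pool.Agent.H12.VZ.Defs

/-!
# Values of polynomials at places
-/

set_option autoImplicit false
set_option linter.overlappingInstances false
set_option linter.unusedSectionVars false

namespace Pool.Agent.H12.VZ

open FF IntermediateField Module Polynomial Pool.Agent.W603.LV Pool.Agent.W619.PQ
  Pool.Agent.Q70.CH Pool.Agent.H25.VO

section

variable {k L : Type} [Field k] [Field L] [Algebra k L]

/-- the value of a polynomial at a place where `T` has the value `t` -/
lemma vl_aeval {Q : Place k L} {T : L} {t : k} (h : Vl Q T t) (P : k[X]) :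
    Vl Q (aeval T P) (P.eval t) := by
  rw [aeval_eq_sum_range, eval_eq_sum_range]
  apply Vl.sum
  intro i _
  rw [Algebra.smul_def]
  exact (h.pow i).smul _

/-- the value at a pole of `T` of a polynomial in `T`, divided by `T ^ N`, is the coefficient at `N` -/
lemma vl_pole {Q : Place k L} {T : L} (h : Q.ord T < 0) {P : k[X]} {N : ℕ} (hP : P.natDegree ≤ N) :
    Vl Q (aeval T P * (T ^ N)⁻¹) (P.coeff N) := by
  have hT : T ≠ 0 := by
    rintro rfl
    rw [Q.ord_zero] at h
    omega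
  have h0 : Vl Q T⁻¹ 0 := by
    rw [vl_zero_iff]; right; rw [Q.ord_inv]; omega
  rw [aeval_eq_sum_range' (lt_of_le_of_lt hP (Nat.lt_succ_self N)), Finset.sum_mul]
  have h1 : P.coeff N = ∑ i ∈ Finset.range (N + 1), P.coeff i * (if i = N then 1 else 0) := by
    rw [Finset.sum_eq_single N]
    · rw [if_pos rfl, mul_one]
    · intro i _ hi
      rw [if_neg hi, mul_zero]
    · intro h; exact absurd (Finset.mem_range.2 (Nat.lt_succ_self N)) h
  rw [h1]
  apply Vl.sum
  intro i hi
  rw [Algebra.smul_def, mul_assoc]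
  apply Vl.smul
  have hi' : i ≤ N := Nat.lt_succ_iff.1 (Finset.mem_range.1 hi)
  have h2 : T ^ i * (T ^ N)⁻¹ = T⁻¹ ^ (N - i) := by
    rw [inv_pow, ← div_eq_mul_inv, div_eq_iff (pow_ne_zero _ hT)]
    have h3 : T ^ N = T ^ i * T ^ (N - i) := by rw [← pow_add]; congr 1; omega
    rw [h3]
    field_simp
  rw [h2]
  have h3 := h0.pow (N - i)
  by_cases hiN : i = N
  · subst hiN
    rw [if_pos rfl, Nat.sub_self, pow_zero]
    exact Vl.one Q
  · rw [if_neg hiN]
    rwa [zero_pow (by omega)] at h3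

lemma aeval_ne {T : L} (hT : Transcendental k T) {P : k[X]} (hP : P ≠ 0) : aeval T P ≠ 0 := by
  intro h
  exact hT ⟨P, hP, h⟩

/-- the value of `A ^ p / F` at a pole of `T` -/
lemma vl_sigma {Q : Place k L} {T : L} (h : Q.ord T < 0) {A F : k[X]} {p N M : ℕ}
    (hN : A.natDegree ≤ N) (hM : F.natDegree ≤ M) (hpN : N * p = M) (hF : F.coeff M = 1) :
    Vl Q (aeval T A ^ p * (aeval T F)⁻¹) (A.coeff N ^ p) := by
  have hT : T ≠ 0 := by
    rintro rfl
    rw [Q.ord_zero] at h
    omega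
  have h1 := (vl_pole h hN).pow p
  have h2 := vl_pole h hM
  rw [hF] at h2
  have h3 := h1.mul (h2.inv one_ne_zero)
  rw [inv_one, mul_one] at h3
  have h4 : (aeval T A * (T ^ N)⁻¹) ^ p * (aeval T F * (T ^ M)⁻¹)⁻¹ =
      aeval T A ^ p * (aeval T F)⁻¹ := by
    rw [mul_pow, mul_inv, inv_inv, inv_pow, ← pow_mul, hpN]
    field_simp
  rwa [h4] at h3

end

section

variable {k : Type} [Field k] [CharZero k] [IsAlgClosed k] {L L' : Type} [Field L] [Algebra k L]
  [IsFF k L] [Field L'] [Algebra k L'] [IsFF k L']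

lemma below_ord_neg {φ : L →ₐ[k] L'} {Q : Place k L'} {T : L} (h : Q.ord (φ T) < 0) :
    (below φ Q).ord T < 0 := by
  obtain ⟨e, he, h1⟩ := below_spec φ Q
  rw [h1] at h
  by_contra hc
  push Not at hc
  have : (0 : ℤ) ≤ e * (below φ Q).ord T := mul_nonneg (by positivity) hc
  omega

lemma below_ord_pos {φ : L →ₐ[k] L'} {Q : Place k L'} {T : L} (h : 0 < Q.ord (φ T)) :
    0 < (below φ Q).ord T := by
  obtain ⟨e, he, h1⟩ := below_spec φ Q
  rw [h1] at h
  by_contra hc
  push Not at hc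
  have : (e : ℤ) * (below φ Q).ord T ≤ 0 := mul_nonpos_of_nonneg_of_nonpos (by positivity) hc
  omega

lemma curve_below {K : Type} [Field K] [Algebra k K] (φ : L →ₐ[k] L') {s : Place k L → Place k K}
    (hs : s ∈ (curve (k := k) K).mor L) : (fun Q => s (below φ Q)) ∈ (curve (k := k) K).mor L' := by
  rcases hs with ⟨P, hP⟩ | ⟨θ, hθ⟩
  · left
    exact ⟨P, fun Q => hP _⟩
  · right
    refine ⟨φ.comp θ, fun Q => ?_⟩
    obtain ⟨e, he, h⟩ := hθ (below φ Q)
    obtain ⟨e', he', h'⟩ := below_spec φ Q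
    refine ⟨e' * e, Nat.mul_pos he' he, fun f => ?_⟩
    rw [AlgHom.comp_apply, h', h]
    push_cast; ring

end

end Pool.Agent.H12.VZ
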